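import Pool.Agent.Helper1.Stab.K.Expo
import Pool.Agent.Helper1.Stab.T.FinT

/-! `Σ^∞ BSU₊[f⁻¹]` for an arbitrary generator `f` of `π_4(BSU)`. -/

open CategoryTheory Topology Filter Set Matrix Opposite

noncomputable section

namespace Pool.Agent.Helper1.Stab.KT

theorem comp_sub' (R : Biv) {K L M : LC} (x : R.Hom K L) (y y' : R.Hom L M) :
    R.comp x (y - y') = R.comp x y - R.comp x y' := by
  have h := R.comp_add x (y - y') y'
  rw [sub_add_cancel] at h
  exact eq_sub_of_add_eq h.symm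

/-- precomposition as a homomorphism -/
def preZ (R : Biv) {K L : LC} (x : R.Hom K L) (M : LC) : R.Hom L M →+ R.Hom K M where
  toFun y := R.comp x y
  map_zero' := Helper9.Stab.c_zero R x
  map_add' y y' := R.comp_add x y y'

/-- postcomposition as a homomorphism -/
def postZ (R : Biv) (K : LC) {L M : LC} (y : R.Hom L M) : R.Hom K L →+ R.Hom K M where
  toFun x := R.comp x y
  map_zero' := Helper9.Stab.z_comp R y
  map_add' x x' := R.add_comp x x' y

/-- tensoring as a homomorphism -/
def tensZ (R : Biv) (K L Z : LC) : R.Hom K L →+ R.Hom (K.prod Z) (L.prod Z) where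
  toFun x := R.tens x Z
  map_zero' := R.tens_zero Z
  map_add' x x' := R.tens_add x x' Z

/-- an integer that acts as the identity on the unit acts as the identity everywhere -/
theorem smul_all (R : Biv) (n : ℤ) (h : n • R.J (PMap.id LC.point) = R.J (PMap.id LC.point))
    {K L : LC} (z : R.Hom K L) : n • z = z := by
  have h1 : n • R.J (PMap.id (LC.point.prod K)) = R.J (PMap.id (LC.point.prod K)) := by
    have h2 := map_zsmul (tensZ R LC.point LC.point K) n (R.J (PMap.id LC.point))
    rw [h] at h2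
    have h3 : tensZ R LC.point LC.point K (R.J (PMap.id LC.point)) =
        R.J (PMap.id (LC.point.prod K)) := by
      change R.tens (R.J (PMap.id LC.point)) K = _
      rw [R.tens_J]
      congr 1
    rw [h3] at h2
    exact h2.symm
  have h4 : ∀ w : R.Hom (LC.point.prod K) L, n • w = w := by
    intro w
    have h5 := map_zsmul (postZ R (LC.point.prod K) w) n (R.J (PMap.id (LC.point.prod K)))
    rw [h1] at h5
    change R.comp (R.J (PMap.id _)) w = n • R.comp (R.J (PMap.id _)) w at h5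
    rw [R.id_comp] at h5
    exact h5.symm
  have h6 := map_zsmul (preZ R (R.J (PMap.ofHomeo (LC.lunit K).symm)) L) n
    (R.comp (R.J (PMap.ofHomeo (LC.lunit K))) z)
  rw [h4] at h6
  change R.comp _ (R.comp _ z) = n • R.comp _ (R.comp _ z) at h6
  rw [← R.assoc, (R.invP_homeo (LC.lunit K)).2, R.id_comp] at h6
  exact h6.symm

/-- (HX) The Hurewicz class of every loop is a multiple of the class of a Bott product, with a
multiplicity that does not depend on the theory. -/
theorem hur_expo {κ : Type} [Fintype κ] (f : GenLoop (Fin (2 * 2)) (GK κ) (GK.base κ)) :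
    ∃ d : ℤ, ∀ (R : GBiv) (x : R.Hom (LC.cpow (Fin 2)) LC.point), IsHur R (e := 2) f x →
      ∀ {k : ℕ} (g : GenLoop (Fin (2 * 2)) (GK (Fin k)) (GK.base (Fin k))), IsBottProduct g →
      ∀ y : R.Hom (LC.cpow (Fin 2)) LC.point, IsHur R (e := 2) g y → x = d • y := by
  let u : C(QQ, GK κ) := ⟨fun P => loopBar (e := 2) f
    ((PMap.ofHomeo twoC).plus ((collP1.box collP1) P)),
    (loopBar (e := 2) f).continuous.comp
      ((PMap.ofHomeo twoC).continuous_plus.comp (collP1.box collP1).cont)⟩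
  have hz : collP1 (Pr.line true : Pr Bool 1) = (OnePoint.infty : OnePoint ℂ) := by
    change collP1Fun (Pr.line true) = _
    unfold collP1Fun
    rw [if_pos p1line69]
  have h1 : ∀ p : Q1, u (i1 p) = GK.base κ := by
    intro p
    change loopBar (e := 2) f ((PMap.ofHomeo twoC).plus
      (smashPt LC.C LC.C (collP1 p, collP1 (Pr.line true : Pr Bool 1)))) = _
    rw [hz, smashPt_inf_right]
    rfl
  have h2 : ∀ p : Q1, u (i2 p) = GK.base κ := by
    intro p
    change loopBar (e := 2) f ((PMap.ofHomeo twoC).plus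
      (smashPt LC.C LC.C (collP1 (Pr.line true : Pr Bool 1), collP1 p))) = _
    rw [hz, smashPt_inf_left]
    rfl
  obtain ⟨d, hd⟩ := exists_expo (S := κ × Bool) (n := Fintype.card κ)
    (u : C(QQ, Pr (κ × Bool) (Fintype.card κ))) (GK.base κ) h1 h2
  refine ⟨d, fun R x hx k g hg y hy => ?_⟩
  have e1 := hur_fam R f x hx u (fun _ => rfl)
  have e2 := hur_bottProduct R g hg y hy
  have e3 : R.comp (R.J (PMap.ofHomeo twoC)) x = d • R.comp (R.J (PMap.ofHomeo twoC)) y := by
    apply collQ_injective R.toBiv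
    have h4 := map_zsmul (preZ R.toBiv (K := QQ) (R.J (collP1.box collP1)) LC.point) d
      (R.comp (R.J (PMap.ofHomeo twoC)) y)
    refine Eq.trans ?_ h4.symm
    change _ = d • R.comp (R.J (collP1.box collP1)) (R.comp (R.J (PMap.ofHomeo twoC)) y)
    rw [e1, e2, hd R, add_sub_cancel_left]
  have h5 := congrArg (fun z => R.comp (R.J (PMap.ofHomeo twoC.symm)) z) e3
  have h6 := map_zsmul (preZ R.toBiv (R.J (PMap.ofHomeo twoC.symm)) LC.point) d
    (R.comp (R.J (PMap.ofHomeo twoC)) y)
  have h7 : ∀ w : R.Hom (LC.cpow (Fin 2)) LC.point,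
      R.comp (R.J (PMap.ofHomeo twoC.symm)) (R.comp (R.J (PMap.ofHomeo twoC)) w) = w := by
    intro w
    rw [← R.assoc, (R.invP_homeo twoC).2, R.id_comp]
  calc x = R.comp (R.J (PMap.ofHomeo twoC.symm)) (R.comp (R.J (PMap.ofHomeo twoC)) x) :=
        (h7 x).symm
    _ = R.comp (R.J (PMap.ofHomeo twoC.symm)) (d • R.comp (R.J (PMap.ofHomeo twoC)) y) := h5
    _ = d • R.comp (R.J (PMap.ofHomeo twoC.symm)) (R.comp (R.J (PMap.ofHomeo twoC)) y) := h6
    _ = d • y := by rw [h7]

/-- (TR) If a Bott product is the `m`-th power of `f` then `m` has an inverse on `SBSU f`. -/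
theorem exists_inv {k k' : ℕ} (f : GenLoop (Fin 4) (Gr {1} k) (Gr.pt {1} k))
    (g : GenLoop (Fin 4) (Gr {1} k') (Gr.pt {1} k')) (hg : IsBottProduct (loopGK (loopToU g)))
    (m : ℤ) (h : hclass (toBGLoop g) = hclass (toBGLoop f) ^ m) :
    ∃ d : ℤ, (d * m) • 𝟙 (hP.obj (SBSU f)) = 𝟙 (hP.obj (SBSU f)) := by
  obtain ⟨d, hd⟩ := hur_expo (loopGK (loopToU f))
  refine ⟨d, ?_⟩
  let S : LocTheory (loopDatum (e := 2) (loopGK (loopToU f))) :=
    (loopDatum (e := 2) (loopGK (loopToU f))).locTheory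
  obtain ⟨cS⟩ := comparison (e := 2) two_pos (loopToU f) S
  obtain ⟨i0, r0, h0⟩ := bsu_retract (e := 2) two_pos f
  obtain ⟨x, x', hx, h1, h2⟩ := exists_hur_inv (e := 2) two_pos (loopGK (loopToU f)) S
  obtain ⟨y, hy⟩ := exists_hur S.toGBiv (e := 2) two_pos (loopGK (loopToU g))
  have h3 : y = m • x := hur_pow S.toGBiv f g m h x y hx hy
  have h4 : x = d • y := hd S.toGBiv x hx _ hg y hy
  have h5 : (d * m) • x = x := by
    rw [mul_smul, ← h3]
    exact h4.symm
  have h6 : (d * m) • S.J (PMap.id LC.point) = S.J (PMap.id LC.point) := by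
    have h7 := map_zsmul (preZ S.toBiv x' LC.point) (d * m) x
    rw [h5] at h7
    change S.comp x' x = (d * m) • S.comp x' x at h7
    rw [h2] at h7
    exact h7.symm
  have h8 : (d * m) • 𝟙 S.toBiv.gf = 𝟙 S.toBiv.gf := by
    refine Helper84.Int.ext_evm fun b K z => ?_
    have h9 := (GF.ev b K).map_zsmul (f := 𝟙 S.toBiv.gf) (r := d * m)
    rw [CategoryTheory.Functor.map_id] at h9
    have h10 : GF.evm b K ((d * m) • 𝟙 S.toBiv.gf) z = (d * m) • z :=
      congrArg (fun φ : (GF.ev b K).obj S.toBiv.gf ⟶ (GF.ev b K).obj S.toBiv.gf => φ z) h9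
    rw [h10]
    exact smul_all S.toBiv (d * m) h6 (K := K.obj) (L := Zb b) z
  have h9 : (i0 ≫ cS.hom) ≫ ((d * m) • 𝟙 S.toBiv.gf) ≫ (cS.inv ≫ r0) =
      (d * m) • 𝟙 (hP.obj (tele (mulMap f))) := by
    rw [Preadditive.zsmul_comp, Category.id_comp, Preadditive.comp_zsmul, Category.assoc,
      Iso.hom_inv_id_assoc, h0]
  have h10 : (i0 ≫ cS.hom) ≫ ((d * m) • 𝟙 S.toBiv.gf) ≫ (cS.inv ≫ r0) =
      𝟙 (hP.obj (tele (mulMap f))) := by
    rw [h8, Category.id_comp, Category.assoc, Iso.hom_inv_id_assoc, h0]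
  exact h9.symm.trans h10

/-- a localisation at the powers of an invertible integer is an isomorphism -/
theorem isIso_of_isLoc {G H : GF} (q : G ⟶ H) (m d : ℤ) (hq : GF.IsLoc (Submonoid.powers m) q)
    (h : (d * m) • 𝟙 G = 𝟙 G) : IsIso q := by
  refine GF.isIso_of_bijective _ fun b K => ?_
  have hL : IsLocalizedModule (Submonoid.powers m) ((GF.ev b K.unop).map q).hom.toIntLinearMap :=
    hq b K.unop
  have h1 : ∀ x : (GF.ev b K.unop).obj G, (d * m) • x = x := by
    intro x
    have h9 := (GF.ev b K.unop).map_zsmul (f := 𝟙 G) (r := d * m)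
    rw [h, CategoryTheory.Functor.map_id] at h9
    exact (congrArg (fun φ : (GF.ev b K.unop).obj G ⟶ (GF.ev b K.unop).obj G => φ x) h9).symm
  have hb : Function.Bijective ((GF.ev b K.unop).map q).hom.toIntLinearMap := by
    constructor
    · intro x y hxy
      obtain ⟨⟨_, n, rfl⟩, hc⟩ := (IsLocalizedModule.eq_iff_exists (Submonoid.powers m)
        ((GF.ev b K.unop).map q).hom.toIntLinearMap).1 hxy
      change m ^ n • x = m ^ n • y at hc
      have h2 : ∀ (n : ℕ) (z : (GF.ev b K.unop).obj G), (d ^ n * m ^ n) • z = z := by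
        intro n
        induction n with
        | zero => intro z; simp
        | succ n ih =>
          intro z
          rw [pow_succ, pow_succ, mul_mul_mul_comm, mul_smul, h1, ih]
      rw [← h2 n x, ← h2 n y, mul_smul, mul_smul, hc]
    · intro z
      obtain ⟨⟨x, ⟨_, n, rfl⟩⟩, hx⟩ := IsLocalizedModule.surj (Submonoid.powers m)
        ((GF.ev b K.unop).map q).hom.toIntLinearMap z
      change m ^ n • z = _ at hx
      have hu := IsLocalizedModule.map_units ((GF.ev b K.unop).map q).hom.toIntLinearMap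
        (⟨m ^ n, n, rfl⟩ : Submonoid.powers m)
      have h2 : ∀ (n : ℕ) (z : (GF.ev b K.unop).obj G), (d ^ n * m ^ n) • z = z := by
        intro n
        induction n with
        | zero => intro z; simp
        | succ n ih =>
          intro z
          rw [pow_succ, pow_succ, mul_mul_mul_comm, mul_smul, h1, ih]
      refine ⟨d ^ n • x, ?_⟩
      have hinj : Function.Injective fun w : (GF.ev b K.unop).obj H => m ^ n • w :=
        ((Module.End.isUnit_iff _).1 hu).1
      apply hinj
      change m ^ n • _ = m ^ n • z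
      rw [hx, ← map_smul, ← mul_smul, mul_comm, h2]
  exact hb

/-- `SBSU f` is a countable wedge of copies of `MUP` for every generator `f` of `π_4(BSU)`. -/
def BottSHC : Prop :=
  ∀ (k : ℕ) (f : GenLoop (Fin 4) (Gr {1} k) (Gr.pt {1} k)), Generates f →
    Nonempty (spec (SBSU f) ≅ spec (wedge fun _ : ℕ => MUP))

theorem bottSHC (hF : Fullness) : BottSHC := by
  intro k f hf
  obtain ⟨k', g, hg⟩ := exists_bottProduct
  obtain ⟨m, hm⟩ := hf (hclass (toBGLoop g))
  obtain ⟨q, hq⟩ := tele_pow (D := {1}) (Or.inr rfl) (d := 3) (by decide) f g m hm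
  obtain ⟨d, hd⟩ := exists_inv f g hg m hm
  have iq : IsIso q := isIso_of_isLoc q m d hq hd
  obtain ⟨ε⟩ := wedge_chain hF g hg
  obtain ⟨G, hG, w, hw⟩ := hasModel_SBSU f
  have iw : IsIso (hP.map w) := (stableEquiv_iff w).1 hw
  have iw' : IsIso (stableEquiv.Q.map w) := isIso_Q hw
  obtain ⟨Ψ, -, hΨ⟩ := realises_compact hG (wedge fun _ : ℕ => MUP) (hP.map w ≫ q ≫ ε.hom)
  have iΨ : IsIso Ψ := hΨ (IsIso.comp_isIso' iw (IsIso.comp_isIso' iq (Iso.isIso_hom ε)))
  exact ⟨(asIso (stableEquiv.Q.map w)).symm ≪≫ asIso Ψ⟩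

end Pool.Agent.Helper1.Stab.KT
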