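import Pool.Agent.Helper1.Stab.K.Fam

/-! Clutching functions: the rules. -/

open Matrix

noncomputable section

namespace Pool.Agent.Helper1.Stab.KT

variable {X : Type} [TopologicalSpace X]

/-- (K4) Homotopic clutching functions have the same class.
Proof. `H` is a clutching function for `e.map snd` over `I × X`; the homeomorphism
`I × (X × P1) = (I × X) × P1` turns its bundle into a family `F` over `I × (X × P1)` with
`F.map in0 = c0.fam` and `F.map in1 = c1.fam` (equal matrices: use `cls_mvn` with `A = B = Q` or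
equality of structures); then `cls_hmt`. -/
theorem Clu.kap_hmt {e : Fam X} (c0 c1 : Clu e) (H : unitInterval × X × Circle → Matrix e.S e.S ℂ)
    (hH : Continuous H) (hu : ∀ y, IsUnit (H y))
    (hc : ∀ t x w, e.Q x * H (t, x, w) = H (t, x, w) * e.Q x)
    (h0 : ∀ x w, H (0, x, w) = c0.G (x, w)) (h1 : ∀ x w, H (1, x, w) = c1.G (x, w)) :
    c0.kap = c1.kap := by
  let c : Clu (e.map ⟨Prod.snd, continuous_snd⟩ : Fam (unitInterval × X)) :=
    { G := fun y => H (y.1.1, y.1.2, y.2)
      cont := hH.comp (by fun_prop)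
      unit := fun y => hu _
      comm := fun x w => hc x.1 x.2 w }
  let F : Fam (unitInterval × (X × P1)) :=
    c.fam.map ⟨fun z => ((z.1, z.2.1), z.2.2), by fun_prop⟩
  have key : ∀ (t : unitInterval) (d : Clu e), (∀ x w, H (t, x, w) = d.G (x, w)) →
      ∀ y : X × P1, F.Q (t, y) = d.mat y := by
    intro t d hd y
    change fromBlocks (y.2.1 false false • e.Q y.1)
      ((‖y.2.1 true false‖ : ℂ) • (e.Q y.1 * (H (t, y.1, phase y.2))⁻¹))
      ((‖y.2.1 true false‖ : ℂ) • (H (t, y.1, phase y.2) * e.Q y.1))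
      (y.2.1 true true • e.Q y.1) = _
    rw [hd]
    rfl
  have e0 : cls (F.map (in0 (X × P1))) = cls c0.fam := by
    refine cls_mvn ⟨c0.mat, c0.mat, c0.mat_aux.1, c0.mat_aux.1, fun y => ?_, fun y => ?_⟩
    · exact (c0.mat_aux.2.1 y).trans (key 0 c0 h0 y).symm
    · exact c0.mat_aux.2.1 y
  have e1 : cls (F.map (in1 (X × P1))) = cls c1.fam := by
    refine cls_mvn ⟨c1.mat, c1.mat, c1.mat_aux.1, c1.mat_aux.1, fun y => ?_, fun y => ?_⟩
    · exact (c1.mat_aux.2.1 y).trans (key 1 c1 h1 y).symm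
    · exact c1.mat_aux.2.1 y
  have h := cls_hmt F
  rw [e0, e1] at h
  unfold Clu.kap
  rw [h]

theorem P1.k5_aux (p : P1) : p.1 false false = ((p.1 false false).re : ℂ) ∧
    p.1 true true = ((p.1 true true).re : ℂ) ∧ 0 ≤ (p.1 false false).re ∧
    0 ≤ (p.1 true true).re ∧ (p.1 false false).re + (p.1 true true).re = 1 ∧
    (p.1 false false).re * (p.1 true true).re = ‖p.1 true false‖ ^ 2 := by
  obtain ⟨M, h1, h2, h3⟩ := p
  have hc : ∀ i j, star (M j i) = M i j := fun i j => congrFun (congrFun h1 i) j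
  have e0 : M false false = ((M false false).re : ℂ) := by
    have := hc false false
    exact (Complex.conj_eq_iff_real.1 this).elim fun r hr => by rw [hr]; simp
  have e1 : M true true = ((M true true).re : ℂ) := by
    have := hc true true
    exact (Complex.conj_eq_iff_real.1 this).elim fun r hr => by rw [hr]; simp
  have e2 : M false true * M true false = ((‖M true false‖ ^ 2 : ℝ) : ℂ) := by
    rw [← hc false true]
    have := Complex.conj_mul' (M true false)
    push_cast
    exact this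
  have q0 : M false false * M false false + M false true * M true false = M false false := by
    have := congrFun (congrFun h2 false) false
    rw [Matrix.mul_apply, Fintype.sum_bool] at this
    rw [add_comm]
    exact this
  have q1 : M true true * M true true + M true false * M false true = M true true := by
    have := congrFun (congrFun h2 true) true
    rw [Matrix.mul_apply, Fintype.sum_bool] at this
    exact this
  have t : M true true + M false false = 1 := by
    have := h3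
    rw [Matrix.trace, Fintype.sum_bool, Nat.cast_one] at this
    exact this
  have q0' : (M false false).re * (M false false).re + ‖M true false‖ ^ 2 = (M false false).re := by
    rw [e2, e0] at q0
    exact_mod_cast q0
  have q1' : (M true true).re * (M true true).re + ‖M true false‖ ^ 2 = (M true true).re := by
    rw [mul_comm (M true false), e2, e1] at q1
    exact_mod_cast q1
  have t' : (M false false).re + (M true true).re = 1 := by
    rw [e0, e1] at t
    rw [add_comm]
    exact_mod_cast t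
  refine ⟨e0, e1, ?_, ?_, t', ?_⟩
  · exact q0' ▸ add_nonneg (mul_self_nonneg (M false false).re) (sq_nonneg ‖M true false‖)
  · exact q1' ▸ add_nonneg (mul_self_nonneg (M true true).re) (sq_nonneg ‖M true false‖)
  · have : (M true true).re = 1 - (M false false).re := by linarith
    change (M false false).re * (M true true).re = ‖M true false‖ ^ 2
    rw [this]
    linarith

/-- (K5) A clutching function that does not depend on the phase has class zero.
Proof. `G (x, w) = C x`. With `a = p00`, `b = ‖p10‖`, `d = p11` (`a, d` real and `≥ 0`, `a + d = 1`,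
`a d = b²`) put `A = [√a • e; √d • C e]` (size `(S ⊕ S) × S`) and `B = [√a • e, √d • e C⁻¹]`: then
`B A = e` and `A B = c.mat`, `√a √d = b`. So `MvN (e.map fst) c.fam`. -/
theorem Clu.kap_const {e : Fam X} (c : Clu e) (C : X → Matrix e.S e.S ℂ)
    (h : ∀ x w, c.G (x, w) = C x) : c.kap = 0 := by
  have hC : Continuous C := by
    have h1 : C = fun x => c.G (x, 1) := funext fun x => (h x 1).symm
    rw [h1]
    exact c.cont.comp (by fun_prop)
  have hU : ∀ x, IsUnit (C x) := fun x => h x 1 ▸ c.unit (x, 1)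
  have hI : Continuous fun x => (C x)⁻¹ := continuous_inv_mat hC hU
  have hcomm : ∀ x, e.Q x * C x = C x * e.Q x := fun x => h x 1 ▸ c.comm x 1
  have hCi : ∀ x, C x * (C x)⁻¹ = 1 := fun x =>
    Matrix.mul_nonsing_inv _ ((Matrix.isUnit_iff_isUnit_det _).1 (hU x))
  have hiC : ∀ x, (C x)⁻¹ * C x = 1 := fun x =>
    Matrix.nonsing_inv_mul _ ((Matrix.isUnit_iff_isUnit_det _).1 (hU x))
  have key1 : ∀ y : X × P1, fromCols (((Real.sqrt (y.2.1 false false).re : ℝ) : ℂ) • e.Q y.1)
      (((Real.sqrt (y.2.1 true true).re : ℝ) : ℂ) • (e.Q y.1 * (C y.1)⁻¹)) *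
      fromRows (((Real.sqrt (y.2.1 false false).re : ℝ) : ℂ) • e.Q y.1)
      (((Real.sqrt (y.2.1 true true).re : ℝ) : ℂ) • (C y.1 * e.Q y.1)) = e.Q y.1 := by
    intro y
    obtain ⟨_, _, p0, p1, ps, _⟩ := y.2.k5_aux
    have s0 : ((Real.sqrt (y.2.1 false false).re : ℝ) : ℂ) * (Real.sqrt (y.2.1 false false).re : ℝ)
        = ((y.2.1 false false).re : ℂ) := by
      rw [← Complex.ofReal_mul, Real.mul_self_sqrt p0]
    have s1 : ((Real.sqrt (y.2.1 true true).re : ℝ) : ℂ) * (Real.sqrt (y.2.1 true true).re : ℝ)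
        = ((y.2.1 true true).re : ℂ) := by
      rw [← Complex.ofReal_mul, Real.mul_self_sqrt p1]
    rw [fromCols_mul_fromRows, smul_mul_smul_comm, smul_mul_smul_comm, e.idem, s0, s1]
    have : e.Q y.1 * (C y.1)⁻¹ * (C y.1 * e.Q y.1) = e.Q y.1 := by
      rw [Matrix.mul_assoc, ← Matrix.mul_assoc ((C y.1)⁻¹), hiC, Matrix.one_mul, e.idem]
    rw [this, ← add_smul, ← Complex.ofReal_add, ps, Complex.ofReal_one, one_smul]
  have key2 : ∀ y : X × P1, fromRows (((Real.sqrt (y.2.1 false false).re : ℝ) : ℂ) • e.Q y.1)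
      (((Real.sqrt (y.2.1 true true).re : ℝ) : ℂ) • (C y.1 * e.Q y.1)) *
      fromCols (((Real.sqrt (y.2.1 false false).re : ℝ) : ℂ) • e.Q y.1)
      (((Real.sqrt (y.2.1 true true).re : ℝ) : ℂ) • (e.Q y.1 * (C y.1)⁻¹)) = c.mat y := by
    intro y
    obtain ⟨q0, q1, p0, p1, ps, pm⟩ := y.2.k5_aux
    have s0 : ((Real.sqrt (y.2.1 false false).re : ℝ) : ℂ) * (Real.sqrt (y.2.1 false false).re : ℝ)
        = y.2.1 false false := by
      rw [← Complex.ofReal_mul, Real.mul_self_sqrt p0]
      exact q0.symm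
    have s1 : ((Real.sqrt (y.2.1 true true).re : ℝ) : ℂ) * (Real.sqrt (y.2.1 true true).re : ℝ)
        = y.2.1 true true := by
      rw [← Complex.ofReal_mul, Real.mul_self_sqrt p1]
      exact q1.symm
    have s2 : ((Real.sqrt (y.2.1 false false).re : ℝ) : ℂ) * (Real.sqrt (y.2.1 true true).re : ℝ)
        = (‖y.2.1 true false‖ : ℂ) := by
      rw [← Complex.ofReal_mul, ← Real.sqrt_mul p0, pm, Real.sqrt_sq (norm_nonneg _)]
    have s3 : ((Real.sqrt (y.2.1 true true).re : ℝ) : ℂ) * (Real.sqrt (y.2.1 false false).re : ℝ)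
        = (‖y.2.1 true false‖ : ℂ) := by
      rw [mul_comm, s2]
    unfold Clu.mat
    rw [fromRows_mul_fromCols, smul_mul_smul_comm, smul_mul_smul_comm, smul_mul_smul_comm,
      smul_mul_smul_comm, s0, s1, s2, s3, h]
    congr 1
    · rw [e.idem]
    · rw [← Matrix.mul_assoc, e.idem]
    · rw [Matrix.mul_assoc, e.idem]
    · rw [Matrix.mul_assoc, ← Matrix.mul_assoc (e.Q y.1), e.idem, ← Matrix.mul_assoc, ← hcomm,
        Matrix.mul_assoc, hCi, Matrix.mul_one]
  unfold Clu.kap
  rw [pib, K0.map_cls, sub_eq_zero]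
  refine (cls_mvn ?_).symm
  have ha : Continuous fun y : X × P1 => ((Real.sqrt (y.2.1 false false).re : ℝ) : ℂ) :=
    Complex.continuous_ofReal.comp (Real.continuous_sqrt.comp (Complex.continuous_re.comp
      ((continuous_subtype_val.comp continuous_snd).matrix_elem _ _)))
  have hd : Continuous fun y : X × P1 => ((Real.sqrt (y.2.1 true true).re : ℝ) : ℂ) :=
    Complex.continuous_ofReal.comp (Real.continuous_sqrt.comp (Complex.continuous_re.comp
      ((continuous_subtype_val.comp continuous_snd).matrix_elem _ _)))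
  have hQ : Continuous fun y : X × P1 => e.Q y.1 := e.cont.comp continuous_fst
  have hCQ : Continuous fun y : X × P1 => C y.1 * e.Q y.1 :=
    (hC.comp continuous_fst).matrix_mul hQ
  have hQI : Continuous fun y : X × P1 => e.Q y.1 * (C y.1)⁻¹ :=
    hQ.matrix_mul (hI.comp continuous_fst)
  refine ⟨fun y => fromRows (((Real.sqrt (y.2.1 false false).re : ℝ) : ℂ) • e.Q y.1)
      (((Real.sqrt (y.2.1 true true).re : ℝ) : ℂ) • (C y.1 * e.Q y.1)),
    fun y => fromCols (((Real.sqrt (y.2.1 false false).re : ℝ) : ℂ) • e.Q y.1)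
      (((Real.sqrt (y.2.1 true true).re : ℝ) : ℂ) • (e.Q y.1 * (C y.1)⁻¹)), ?_, ?_, ?_, ?_⟩
  · refine continuous_matrix fun i j => ?_
    rcases i with i | i
    · exact (ha.smul hQ).matrix_elem i j
    · exact (hd.smul hCQ).matrix_elem i j
  · refine continuous_matrix fun i j => ?_
    rcases j with j | j
    · exact (ha.smul hQ).matrix_elem i j
    · exact (hd.smul hQI).matrix_elem i j
  · exact key1
  · exact key2

/-- products of clutching functions -/
def Clu.mul {e : Fam X} (c c' : Clu e) : Clu e where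
  G y := c.G y * c'.G y
  cont := c.cont.matrix_mul c'.cont
  unit y := (c.unit y).mul (c'.unit y)
  comm x w := by
    rw [← Matrix.mul_assoc, c.comm, Matrix.mul_assoc, c'.comm, Matrix.mul_assoc]

/-- direct sums of clutching functions -/
def Clu.sum {e f : Fam X} (c : Clu e) (c' : Clu f) : Clu (e.sum f) where
  G y := fromBlocks (c.G y) 0 0 (c'.G y)
  cont := Continuous.matrix_fromBlocks c.cont continuous_const continuous_const c'.cont
  unit y := by
    have h := (Matrix.isUnit_iff_isUnit_det _).1 (c.unit y)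
    have h' := (Matrix.isUnit_iff_isUnit_det _).1 (c'.unit y)
    refine (Matrix.isUnit_iff_isUnit_det _).2 ?_
    have h2 : (fromBlocks (c.G y) 0 0 (c'.G y)).det = (c.G y).det * (c'.G y).det :=
      det_fromBlocks_zero₂₁ _ _ _
    exact h2 ▸ h.mul h'
  comm x w := by
    change fromBlocks (e.Q x) 0 0 (f.Q x) * fromBlocks (c.G (x, w)) 0 0 (c'.G (x, w)) =
      fromBlocks (c.G (x, w)) 0 0 (c'.G (x, w)) * fromBlocks (e.Q x) 0 0 (f.Q x)
    rw [fromBlocks_multiply, fromBlocks_multiply, c.comm, c'.comm]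
    simp

/-- the trivial clutching function -/
def Clu.one (e : Fam X) : Clu e where
  G _ := 1
  cont := continuous_const
  unit _ := isUnit_one
  comm x w := by rw [Matrix.mul_one, Matrix.one_mul]

/-- the matrix of the sum of two clutching functions, with explicit blocks -/
theorem Clu.sum_mat_eq {e f : Fam X} (c : Clu e) (c' : Clu f) (y : X × P1) :
    (c.sum c').mat y = fromBlocks
      (fromBlocks (y.2.1 false false • e.Q y.1) 0 0 (y.2.1 false false • f.Q y.1))
      (fromBlocks ((‖y.2.1 true false‖ : ℂ) • (e.Q y.1 * (c.G (y.1, phase y.2))⁻¹)) 0 0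
        ((‖y.2.1 true false‖ : ℂ) • (f.Q y.1 * (c'.G (y.1, phase y.2))⁻¹)))
      (fromBlocks ((‖y.2.1 true false‖ : ℂ) • (c.G (y.1, phase y.2) * e.Q y.1)) 0 0
        ((‖y.2.1 true false‖ : ℂ) • (c'.G (y.1, phase y.2) * f.Q y.1)))
      (fromBlocks (y.2.1 true true • e.Q y.1) 0 0 (y.2.1 true true • f.Q y.1)) := by
  have hi : (fromBlocks (c.G (y.1, phase y.2)) 0 0 (c'.G (y.1, phase y.2)))⁻¹ =
      fromBlocks (c.G (y.1, phase y.2))⁻¹ 0 0 (c'.G (y.1, phase y.2))⁻¹ := by
    have h := inv_fromBlocks_zero₂₁_of_isUnit_iff (c.G (y.1, phase y.2))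
      (0 : Matrix e.S f.S ℂ) (c'.G (y.1, phase y.2)) (iff_of_true (c.unit _) (c'.unit _))
    rw [h]
    simp
  change fromBlocks (y.2.1 false false • fromBlocks (e.Q y.1) 0 0 (f.Q y.1))
      ((‖y.2.1 true false‖ : ℂ) • (fromBlocks (e.Q y.1) 0 0 (f.Q y.1) *
        (fromBlocks (c.G (y.1, phase y.2)) 0 0 (c'.G (y.1, phase y.2)))⁻¹))
      ((‖y.2.1 true false‖ : ℂ) • (fromBlocks (c.G (y.1, phase y.2)) 0 0 (c'.G (y.1, phase y.2)) *
        fromBlocks (e.Q y.1) 0 0 (f.Q y.1)))
      (y.2.1 true true • fromBlocks (e.Q y.1) 0 0 (f.Q y.1)) = _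
  rw [hi, fromBlocks_multiply, fromBlocks_multiply]
  simp only [fromBlocks_smul, Matrix.mul_zero, Matrix.zero_mul, add_zero, zero_add, smul_zero]

/-- (K6) direct sums.
Proof. `(c.sum c').fam` has index `(S ⊕ T) ⊕ (S ⊕ T)` and `c.fam.sum c'.fam` has index
`(S ⊕ S) ⊕ (T ⊕ T)`; they are conjugate by the permutation of the blocks (the inverse of a block
diagonal matrix is block diagonal). So `MvN`, and `cls_sum`; `pib` of a sum is the sum. -/
theorem Clu.kap_sum {e f : Fam X} (c : Clu e) (c' : Clu f) :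
    (c.sum c').kap = c.kap + c'.kap := by
  have hm : cls (c.sum c').fam = cls (c.fam.sum c'.fam) := by
    let σ : (e.S ⊕ e.S) ⊕ (f.S ⊕ f.S) ≃ (e.S ⊕ f.S) ⊕ (e.S ⊕ f.S) :=
      Equiv.sumSumSumComm e.S e.S f.S f.S
    let M : X × P1 → Matrix ((e.S ⊕ f.S) ⊕ (e.S ⊕ f.S)) ((e.S ⊕ f.S) ⊕ (e.S ⊕ f.S)) ℂ :=
      (c.sum c').mat
    have hMM : ∀ y, M y * M y = M y := (c.sum c').mat_aux.2.1
    have hMc : Continuous M := (c.sum c').mat_aux.1
    refine cls_mvn ⟨fun y => (M y).submatrix σ id, fun y => (M y).submatrix id σ,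
      hMc.matrix_submatrix _ _, hMc.matrix_submatrix _ _, fun y => ?_, fun y => ?_⟩
    · have h := submatrix_mul_equiv (M y) (M y) id σ id
      exact h.trans (by rw [hMM, submatrix_id_id]; rfl)
    · have h := submatrix_mul (M y) (M y) σ id σ Function.bijective_id
      refine h.symm.trans ?_
      rw [hMM]
      change ((c.sum c').mat y).submatrix σ σ = fromBlocks (c.mat y) 0 0 (c'.mat y)
      rw [Clu.sum_mat_eq]
      ext i j
      rcases i with (i | i) | (i | i) <;> rcases j with (j | j) | (j | j) <;> rfl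
  unfold Clu.kap
  rw [hm, cls_sum, cls_sum, map_add]
  abel

/-- the rotation matrix with block entries -/
def rotM (S : Type) [Fintype S] [DecidableEq S] (θ : ℝ) : Matrix (S ⊕ S) (S ⊕ S) ℂ :=
  fromBlocks ((Real.cos θ : ℂ) • 1) (-((Real.sin θ : ℂ) • 1)) ((Real.sin θ : ℂ) • 1)
    ((Real.cos θ : ℂ) • 1)

theorem rotM_mul_neg (S : Type) [Fintype S] [DecidableEq S] (θ : ℝ) :
    rotM S θ * rotM S (-θ) = 1 := by
  have h : (Real.cos θ : ℂ) * Real.cos θ + (Real.sin θ : ℂ) * Real.sin θ = 1 := by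
    have := Real.cos_sq_add_sin_sq θ
    rw [sq, sq] at this
    exact_mod_cast this
  unfold rotM
  rw [fromBlocks_multiply, ← fromBlocks_one, Real.cos_neg, Real.sin_neg]
  have e : ∀ a b : ℂ, (a • (1 : Matrix S S ℂ)) * (b • 1) = (a * b) • 1 := fun a b => by
    rw [Matrix.smul_mul, Matrix.one_mul, smul_smul]
  congr 1
  · rw [e, Matrix.neg_mul, e, ← neg_smul, ← add_smul]
    rw [Complex.ofReal_neg]
    rw [show (Real.cos θ : ℂ) * Real.cos θ + -((Real.sin θ : ℂ) * -(Real.sin θ : ℂ)) = 1 by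
      rw [← h]; ring, one_smul]
  · rw [Matrix.mul_neg, Matrix.neg_mul, e, e, ← neg_smul, ← neg_smul, ← add_smul]
    rw [Complex.ofReal_neg]
    rw [show -((Real.cos θ : ℂ) * -(Real.sin θ : ℂ)) + -((Real.sin θ : ℂ) * (Real.cos θ : ℂ)) = 0 by
      ring, zero_smul]
  · rw [e, e, ← add_smul]
    rw [Complex.ofReal_neg]
    rw [show (Real.sin θ : ℂ) * (Real.cos θ : ℂ) + (Real.cos θ : ℂ) * -(Real.sin θ : ℂ) = 0 by
      ring, zero_smul]
  · rw [Matrix.mul_neg, e, e, ← neg_smul, ← add_smul]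
    rw [Complex.ofReal_neg]
    rw [show -((Real.sin θ : ℂ) * -(Real.sin θ : ℂ)) + (Real.cos θ : ℂ) * (Real.cos θ : ℂ) = 1 by
      rw [← h]; ring, one_smul]

theorem rotM_unit (S : Type) [Fintype S] [DecidableEq S] (θ : ℝ) : IsUnit (rotM S θ) := by
  have h1 := rotM_mul_neg S θ
  have h2 := rotM_mul_neg S (-θ)
  rw [neg_neg] at h2
  exact ⟨⟨rotM S θ, rotM S (-θ), h1, h2⟩, rfl⟩

theorem rotM_zero (S : Type) [Fintype S] [DecidableEq S] : rotM S 0 = 1 := by
  unfold rotM
  simp

theorem rotM_comm (S : Type) [Fintype S] [DecidableEq S] (θ : ℝ) (P : Matrix S S ℂ) :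
    fromBlocks P 0 0 P * rotM S θ = rotM S θ * fromBlocks P 0 0 P := by
  unfold rotM
  rw [fromBlocks_multiply, fromBlocks_multiply]
  simp

theorem continuous_rotM (S : Type) [Fintype S] [DecidableEq S] {Y : Type*} [TopologicalSpace Y]
    {f : Y → ℝ} (hf : Continuous f) : Continuous fun y => rotM S (f y) := by
  unfold rotM
  have h1 : Continuous fun y => ((Real.cos (f y) : ℝ) : ℂ) :=
    Complex.continuous_ofReal.comp (Real.continuous_cos.comp hf)
  have h2 : Continuous fun y => ((Real.sin (f y) : ℝ) : ℂ) :=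
    Complex.continuous_ofReal.comp (Real.continuous_sin.comp hf)
  exact Continuous.matrix_fromBlocks (h1.smul continuous_const) (h2.smul continuous_const).neg
    (h2.smul continuous_const) (h1.smul continuous_const)

theorem isUnit_diag {S : Type} [Fintype S] [DecidableEq S] {P Q : Matrix S S ℂ} (h : IsUnit P)
    (h' : IsUnit Q) : IsUnit (fromBlocks P 0 0 Q) := by
  rw [Matrix.isUnit_iff_isUnit_det] at h h' ⊢
  rw [det_fromBlocks_zero₂₁]
  exact h.mul h'

/-- the homotopy from `diag (G, G')` to `diag (G G', 1)` -/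
def rotH {S : Type} [Fintype S] [DecidableEq S] (θ : ℝ) (G G' : Matrix S S ℂ) :
    Matrix (S ⊕ S) (S ⊕ S) ℂ :=
  fromBlocks G 0 0 1 * rotM S θ * fromBlocks 1 0 0 G' * rotM S (-θ)

theorem rotH_zero {S : Type} [Fintype S] [DecidableEq S] (G G' : Matrix S S ℂ) :
    rotH 0 G G' = fromBlocks G 0 0 G' := by
  unfold rotH
  rw [neg_zero, rotM_zero, Matrix.mul_one, Matrix.mul_one, fromBlocks_multiply]
  simp

theorem rotH_one {S : Type} [Fintype S] [DecidableEq S] (G G' : Matrix S S ℂ) :
    rotH (Real.pi / 2) G G' = fromBlocks (G * G') 0 0 1 := by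
  unfold rotH rotM
  rw [Real.cos_neg, Real.sin_neg, Real.cos_pi_div_two, Real.sin_pi_div_two, fromBlocks_multiply,
    fromBlocks_multiply, fromBlocks_multiply]
  simp

theorem rotH_unit {S : Type} [Fintype S] [DecidableEq S] (θ : ℝ) {G G' : Matrix S S ℂ}
    (h : IsUnit G) (h' : IsUnit G') : IsUnit (rotH θ G G') :=
  (((isUnit_diag h isUnit_one).mul (rotM_unit S θ)).mul (isUnit_diag isUnit_one h')).mul
    (rotM_unit S _)

theorem rotH_comm {S : Type} [Fintype S] [DecidableEq S] (θ : ℝ) {G G' P : Matrix S S ℂ}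
    (h : P * G = G * P) (h' : P * G' = G' * P) :
    fromBlocks P 0 0 P * rotH θ G G' = rotH θ G G' * fromBlocks P 0 0 P := by
  have h1 : fromBlocks P 0 0 P * fromBlocks G 0 0 1 = fromBlocks G 0 0 1 * fromBlocks P 0 0 P := by
    rw [fromBlocks_multiply, fromBlocks_multiply]
    simp [h]
  have h2 : fromBlocks P 0 0 P * fromBlocks 1 0 0 G' = fromBlocks 1 0 0 G' * fromBlocks P 0 0 P := by
    rw [fromBlocks_multiply, fromBlocks_multiply]
    simp [h']
  unfold rotH
  rw [← Matrix.mul_assoc, ← Matrix.mul_assoc, ← Matrix.mul_assoc, h1,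
    Matrix.mul_assoc (fromBlocks G 0 0 1) (fromBlocks P 0 0 P) (rotM S θ), rotM_comm,
    ← Matrix.mul_assoc, Matrix.mul_assoc _ (fromBlocks P 0 0 P) (fromBlocks 1 0 0 G'), h2,
    ← Matrix.mul_assoc, Matrix.mul_assoc _ (fromBlocks P 0 0 P) (rotM S (-θ)), rotM_comm,
    ← Matrix.mul_assoc]

/-- (K7) products: `κ(G G') = κ(G) + κ(G')`.
Proof. On `e ⊕ e` the clutching functions `diag(G G', 1)` and `diag(G, G')` are homotopic through
`diag(G, 1) R_t diag(1, G') R_t⁻¹`, `R_t = [cos, -sin; sin, cos]` with angle `π t / 2` (at `t = 0` it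
is `diag(G, G')`, at `t = 1` it is `diag(G G', 1)`), all invertible and commuting with `e ⊕ e`. Use
`kap_hmt`, `kap_sum` and `kap_const` for the clutching function `1`. -/
theorem Clu.kap_mul {e : Fam X} (c c' : Clu e) : (c.mul c').kap = c.kap + c'.kap := by
  have hθ : Continuous fun y : unitInterval × X × Circle => Real.pi / 2 * (y.1 : ℝ) := by
    fun_prop
  have key := Clu.kap_hmt (c.sum c') ((c.mul c').sum (Clu.one e))
    (fun y => rotH (Real.pi / 2 * (y.1 : ℝ)) (c.G y.2) (c'.G y.2)) (by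
      unfold rotH
      refine Continuous.matrix_mul (Continuous.matrix_mul (Continuous.matrix_mul ?_ ?_) ?_) ?_
      · exact Continuous.matrix_fromBlocks (c.cont.comp continuous_snd) continuous_const
          continuous_const continuous_const
      · exact continuous_rotM e.S hθ
      · exact Continuous.matrix_fromBlocks continuous_const continuous_const
          continuous_const (c'.cont.comp continuous_snd)
      · exact continuous_rotM e.S hθ.neg)
    (fun y => rotH_unit _ (c.unit _) (c'.unit _))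
    (fun t x w => rotH_comm _ (c.comm x w) (c'.comm x w))
    (fun x w => by
      change rotH (Real.pi / 2 * ((0 : unitInterval) : ℝ)) (c.G (x, w)) (c'.G (x, w)) =
        fromBlocks (c.G (x, w)) 0 0 (c'.G (x, w))
      rw [Set.Icc.coe_zero, mul_zero, rotH_zero])
    (fun x w => by
      change rotH (Real.pi / 2 * ((1 : unitInterval) : ℝ)) (c.G (x, w)) (c'.G (x, w)) =
        fromBlocks (c.G (x, w) * c'.G (x, w)) 0 0 1
      rw [Set.Icc.coe_one, mul_one, rotH_one])
  rw [Clu.kap_sum, Clu.kap_sum, Clu.kap_const (Clu.one e) (fun _ => 1) (fun _ _ => rfl),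
    add_zero] at key
  exact key.symm

/-- the clutching function `w` -/
def Clu.zz (e : Fam X) : Clu e where
  G y := (y.2 : ℂ) • 1
  cont := (continuous_subtype_val.comp continuous_snd).smul continuous_const
  unit y := by
    refine (Matrix.isUnit_iff_isUnit_det _).2 ?_
    rw [det_smul, det_one, mul_one]
    exact (IsUnit.mk0 _ (Circle.coe_ne_zero _)).pow _
  comm x w := by simp

/-- (K8) the clutching function `w` gives the product with the tautological bundle.
Proof. `‖p10‖ w(p) = p10`, `‖p10‖ w(p)⁻¹ = conj p10 = p01`, so the matrix of `(zz e).fam` at `(x, p)` is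
`[p00 e, p01 e; p10 e, p11 e]`, which is `e ⊗ p` after the bijection `S ⊕ S = S × Bool`
(`inl s = (s, false)`, `inr s = (s, true)`). -/
theorem Clu.kap_zz (e : Fam X) : (Clu.zz e).kap = tau (cls e) - pib (cls e) := by
  have hph : ∀ p : P1, (‖p.1 true false‖ : ℂ) * (phase p : ℂ) = p.1 true false := by
    intro p
    by_cases h : p.1 true false = 0
    · rw [h, norm_zero, Complex.ofReal_zero, zero_mul]
    · have e1 := congrArg (fun w : Circle => (w : ℂ)) (dif_neg h : phase p = _)
      have e2 : (phase p : ℂ) = p.1 true false / (‖p.1 true false‖ : ℂ) := e1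
      have hn : (‖p.1 true false‖ : ℂ) ≠ 0 := by exact_mod_cast norm_ne_zero_iff.2 h
      rw [e2]
      field_simp
  have hs : ∀ p : P1, p.1 false true = star (p.1 true false) := by
    intro p
    conv_lhs => rw [← p.2.1]
    rfl
  have hph' : ∀ p : P1, (‖p.1 true false‖ : ℂ) * (phase p : ℂ)⁻¹ = p.1 false true := by
    intro p
    have e1 : (phase p : ℂ)⁻¹ = star (phase p : ℂ) := by
      rw [← Circle.coe_inv, Circle.coe_inv_eq_conj]
      rfl
    have e3 := congrArg (fun z : ℂ => star z) (hph p)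
    have e4 : star ((‖p.1 true false‖ : ℂ) * (phase p : ℂ)) =
        (‖p.1 true false‖ : ℂ) * star (phase p : ℂ) := by
      rw [star_mul']
      exact congrArg (· * star (phase p : ℂ)) (Complex.conj_ofReal _)
    rw [e1, ← e4]
    exact e3.trans (hs p).symm
  have hinv : ∀ w : Circle, ((w : ℂ) • (1 : Matrix e.S e.S ℂ))⁻¹ = (w : ℂ)⁻¹ • 1 := by
    intro w
    apply Matrix.inv_eq_right_inv
    rw [Matrix.smul_mul, Matrix.one_mul, smul_smul, mul_inv_cancel₀ (Circle.coe_ne_zero w), one_smul]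
  have key : cls e.tau = cls (Clu.zz e).fam := by
    refine k1_reindex (Clu.zz e).fam e.tau
      ((Equiv.prodComm e.S Bool).trans (Equiv.boolProdEquivSum e.S)) ?_
    intro y
    change ((Clu.zz e).mat y).submatrix _ _ = kroneckerMap (· * ·) (e.Q y.1) y.2.1
    ext ⟨s, b⟩ ⟨t, b'⟩
    cases b <;> cases b'
    · change y.2.1 false false * e.Q y.1 s t = e.Q y.1 s t * y.2.1 false false
      exact mul_comm _ _
    · change (‖y.2.1 true false‖ : ℂ) * (e.Q y.1 * ((phase y.2 : ℂ) • (1 : Matrix e.S e.S ℂ))⁻¹) s t =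
        e.Q y.1 s t * y.2.1 false true
      rw [hinv, Matrix.mul_smul, Matrix.mul_one, Matrix.smul_apply, smul_eq_mul, ← mul_assoc, hph' y.2]
      exact mul_comm _ _
    · change (‖y.2.1 true false‖ : ℂ) * (((phase y.2 : ℂ) • (1 : Matrix e.S e.S ℂ)) * e.Q y.1) s t =
        e.Q y.1 s t * y.2.1 true false
      rw [Matrix.smul_mul, Matrix.one_mul, Matrix.smul_apply, smul_eq_mul, ← mul_assoc, hph y.2]
      exact mul_comm _ _
    · change y.2.1 true true * e.Q y.1 s t = e.Q y.1 s t * y.2.1 true true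
      exact mul_comm _ _
  unfold Clu.kap
  rw [tau_cls, key]

/-- the trace of an idempotent matrix is a natural number -/
theorem kapSplit_trace {S : Type} [Fintype S] [DecidableEq S] (p : Matrix S S ℂ) (h : p * p = p) :
    ∃ n : ℕ, p.trace = n := by
  have h1 : (Matrix.toLin' p) ∘ₗ (Matrix.toLin' p) = Matrix.toLin' p := by
    rw [← Matrix.toLin'_mul, h]
  have h2 : IsIdempotentElem (Matrix.toLin' p) := h1
  exact ⟨_, (Matrix.trace_toLin'_eq p).symm.trans
    ((LinearMap.isProj_range_iff_isIdempotentElem _).2 h2).trace⟩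

/-- continuous families of idempotent matrices have constant rank -/
theorem kapSplit_rank [PreconnectedSpace X] {S : Type} [Fintype S] [DecidableEq S]
    (p : X → Matrix S S ℂ) (hc : Continuous p) (h : ∀ x, p x * p x = p x) :
    ∃ n : ℕ, ∀ x, (p x).trace = n := by
  by_cases hX : Nonempty X
  · obtain ⟨x0⟩ := hX
    obtain ⟨n, hn⟩ := kapSplit_trace (p x0) (h x0)
    refine ⟨n, fun x => ?_⟩
    have hr : Continuous fun x => (p x).trace.re := Complex.continuous_re.comp hc.matrix_trace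
    have h1 : (p x).trace.re = (p x0).trace.re :=
      isPreconnected_univ.constant_of_mapsTo (T := Set.range ((↑) : ℕ → ℝ))
        Nat.isClosedEmbedding_coe_real.isEmbedding.isDiscrete_range hr.continuousOn (fun y _ => by
          obtain ⟨m, hm⟩ := kapSplit_trace (p y) (h y)
          refine ⟨m, ?_⟩
          change (m : ℝ) = (p y).trace.re
          rw [hm]
          simp) (Set.mem_univ x) (Set.mem_univ x0)
    obtain ⟨m, hm⟩ := kapSplit_trace (p x) (h x)
    rw [hm, hn] at h1
    have h2 : m = n := by simpa using h1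
    rw [hm, h2]
  · exact ⟨0, fun x => (hX ⟨x⟩).elim⟩

/-- a family that is the sum of two orthogonal families -/
theorem kapSplit_cls (E : Fam X) (n1 n2 : ℕ) (Q1 Q2 : X → Matrix E.S E.S ℂ) (c1 : Continuous Q1)
    (c2 : Continuous Q2) (i1 : ∀ y, Q1 y * Q1 y = Q1 y) (i2 : ∀ y, Q2 y * Q2 y = Q2 y)
    (t1 : ∀ y, (Q1 y).trace = n1) (t2 : ∀ y, (Q2 y).trace = n2) (h : ∀ y, E.Q y = Q1 y + Q2 y)
    (h12 : ∀ y, Q1 y * Q2 y = 0) (h21 : ∀ y, Q2 y * Q1 y = 0) :
    cls E = cls ⟨E.S, n1, Q1, c1, i1, t1⟩ + cls ⟨E.S, n2, Q2, c2, i2, t2⟩ := by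
  have r1 : ∀ y, fromCols (Q1 y) (Q2 y) * fromRows (Q1 y) (Q2 y) = E.Q y := fun y => by
    rw [fromCols_mul_fromRows, i1, i2, h]
  have r2 : ∀ y, fromRows (Q1 y) (Q2 y) * fromCols (Q1 y) (Q2 y) =
      fromBlocks (Q1 y) 0 0 (Q2 y) := fun y => by
    rw [fromRows_mul_fromCols, i1, i2, h12, h21]
  have d1 : Continuous fun y => fromRows (Q1 y) (Q2 y) := by
    refine continuous_matrix fun i j => ?_
    rcases i with i | i
    · exact c1.matrix_elem i j
    · exact c2.matrix_elem i j
  have d2 : Continuous fun y => fromCols (Q1 y) (Q2 y) := by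
    refine continuous_matrix fun i j => ?_
    rcases j with j | j
    · exact c1.matrix_elem i j
    · exact c2.matrix_elem i j
  rw [← cls_sum]
  exact cls_mvn ⟨fun y => fromRows (Q1 y) (Q2 y), fun y => fromCols (Q1 y) (Q2 y), d1, d2, r1, r2⟩

/-- products of block matrices -/
theorem kapSplit_blk {S : Type} [Fintype S] [DecidableEq S] (a b c d a' b' c' d' : ℂ)
    (P R : Matrix S S ℂ) (h : P * R = 0) : fromBlocks (a • P) (b • P) (c • P) (d • P) *
      fromBlocks (a' • R) (b' • R) (c' • R) (d' • R) = 0 := by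
  rw [fromBlocks_multiply]
  simp only [Matrix.smul_mul, Matrix.mul_smul, h, smul_zero, add_zero, fromBlocks_zero]

/-- (K9) the clutching function `1 + (w - 1) q` for an idempotent `q` that commutes with `e`.
Proof. The trace of `e q` is a locally constant natural number, hence constant (`X` is
preconnected; if `X` is empty everything is trivial), so `e q` and `e (1 - q)` are families `e₁`, `e₂`
with the same index `S`. `G⁻¹ = 1 + (w⁻¹ - 1) q`, and `c.mat = M₁ + M₂` with `M₁ = (zz e₁).mat`,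
`M₂ = (one e₂).mat`, `M₁ M₂ = 0 = M₂ M₁`. Hence `MvN c.fam ((zz e₁).fam.sum (one e₂).fam)` by
`A = [M₁; M₂]`, `B = [M₁, M₂]`, and `MvN e (e₁.sum e₂)` similarly. So
`κ(c) = κ(zz e₁) + κ(one e₂) = tau (cls e₁) - pib (cls e₁)`. -/
theorem Clu.kap_split [PreconnectedSpace X] {e : Fam X} (c : Clu e) (q : X → Matrix e.S e.S ℂ)
    (hq : Continuous q) (hqq : ∀ x, q x * q x = q x) (hqe : ∀ x, e.Q x * q x = q x * e.Q x)
    (h : ∀ x w, c.G (x, w) = 1 + ((w : ℂ) - 1) • q x) : c.kap ∈ MM X := by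
  have hQ := e.cont
  have i1 : ∀ x, (e.Q x * q x) * (e.Q x * q x) = e.Q x * q x := fun x => by
    rw [mul_assoc, ← mul_assoc (q x), ← hqe, mul_assoc (e.Q x) (q x), hqq, ← mul_assoc, e.idem]
  have hqe' : ∀ x, e.Q x * (1 - q x) = (1 - q x) * e.Q x := fun x => by
    rw [mul_sub, sub_mul, mul_one, one_mul, hqe]
  have hqq' : ∀ x, (1 - q x) * (1 - q x) = 1 - q x := fun x => by
    rw [mul_sub, mul_one, sub_mul, one_mul, hqq, sub_self, sub_zero]
  have i2 : ∀ x, (e.Q x * (1 - q x)) * (e.Q x * (1 - q x)) = e.Q x * (1 - q x) := fun x => by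
    rw [mul_assoc, ← mul_assoc (1 - q x), ← hqe', mul_assoc (e.Q x) (1 - q x), hqq', ← mul_assoc,
      e.idem]
  have q0 : ∀ x, q x * (1 - q x) = 0 := fun x => by rw [mul_sub, mul_one, hqq, sub_self]
  have q0' : ∀ x, (1 - q x) * q x = 0 := fun x => by rw [sub_mul, one_mul, hqq, sub_self]
  have h12 : ∀ x, (e.Q x * q x) * (e.Q x * (1 - q x)) = 0 := fun x => by
    rw [hqe', mul_assoc, ← mul_assoc (q x), q0, zero_mul, mul_zero]
  have h21 : ∀ x, (e.Q x * (1 - q x)) * (e.Q x * q x) = 0 := fun x => by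
    rw [hqe, mul_assoc, ← mul_assoc (1 - q x), q0', zero_mul, mul_zero]
  have c1 : Continuous fun x => e.Q x * q x := by fun_prop
  have c2 : Continuous fun x => e.Q x * (1 - q x) := by fun_prop
  obtain ⟨n1, t1⟩ := kapSplit_rank _ c1 i1
  obtain ⟨n2, t2⟩ := kapSplit_rank _ c2 i2
  let e1 : Fam X := ⟨e.S, n1, fun x => e.Q x * q x, c1, i1, t1⟩
  let e2 : Fam X := ⟨e.S, n2, fun x => e.Q x * (1 - q x), c2, i2, t2⟩
  have k1 : cls e = cls e1 + cls e2 := kapSplit_cls e n1 n2 _ _ c1 c2 i1 i2 t1 t2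
    (fun x => by rw [← mul_add, add_sub_cancel, mul_one]) h12 h21
  have m1 : ∀ y : X × P1, (Clu.zz e1).mat y = fromBlocks (y.2.1 false false • (e.Q y.1 * q y.1))
      (((‖y.2.1 true false‖ : ℂ) * ((phase y.2)⁻¹ : ℂ)) • (e.Q y.1 * q y.1))
      (((‖y.2.1 true false‖ : ℂ) * (phase y.2 : ℂ)) • (e.Q y.1 * q y.1))
      (y.2.1 true true • (e.Q y.1 * q y.1)) := by
    intro y
    have e0 : ((phase y.2 : ℂ) • (1 : Matrix e.S e.S ℂ))⁻¹ = ((phase y.2)⁻¹ : ℂ) • 1 := by
      refine Matrix.inv_eq_right_inv ?_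
      rw [Matrix.smul_mul, Matrix.mul_smul, mul_one, smul_smul,
        mul_inv_cancel₀ (Circle.coe_ne_zero _), one_smul]
    change fromBlocks _ ((‖y.2.1 true false‖ : ℂ) • ((e.Q y.1 * q y.1) *
      ((phase y.2 : ℂ) • (1 : Matrix e.S e.S ℂ))⁻¹))
      ((‖y.2.1 true false‖ : ℂ) • (((phase y.2 : ℂ) • (1 : Matrix e.S e.S ℂ)) *
        (e.Q y.1 * q y.1))) _ = _
    rw [e0, Matrix.smul_mul, one_mul, Matrix.mul_smul, mul_one, smul_smul, smul_smul]
  have m2 : ∀ y : X × P1, (Clu.one e2).mat y =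
      fromBlocks (y.2.1 false false • (e.Q y.1 * (1 - q y.1)))
      ((‖y.2.1 true false‖ : ℂ) • (e.Q y.1 * (1 - q y.1)))
      ((‖y.2.1 true false‖ : ℂ) • (e.Q y.1 * (1 - q y.1)))
      (y.2.1 true true • (e.Q y.1 * (1 - q y.1))) := by
    intro y
    change fromBlocks _ ((‖y.2.1 true false‖ : ℂ) • ((e.Q y.1 * (1 - q y.1)) *
      (1 : Matrix e.S e.S ℂ)⁻¹))
      ((‖y.2.1 true false‖ : ℂ) • ((1 : Matrix e.S e.S ℂ) * (e.Q y.1 * (1 - q y.1)))) _ = _
    rw [inv_one, one_mul, mul_one]
  have m0 : ∀ y : X × P1, c.mat y = (Clu.zz e1).mat y + (Clu.one e2).mat y := by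
    intro y
    have e0 : (c.G (y.1, phase y.2))⁻¹ = (1 - q y.1) + ((phase y.2)⁻¹ : ℂ) • q y.1 := by
      refine Matrix.inv_eq_right_inv ?_
      rw [h]
      have e3 : (1 : Matrix e.S e.S ℂ) + ((phase y.2 : ℂ) - 1) • q y.1 =
          (1 - q y.1) + (phase y.2 : ℂ) • q y.1 := by
        rw [sub_smul, one_smul]
        abel
      rw [e3, add_mul, mul_add, mul_add, hqq', Matrix.smul_mul, Matrix.mul_smul, Matrix.smul_mul,
        Matrix.mul_smul, q0, q0', hqq, smul_smul, mul_inv_cancel₀ (Circle.coe_ne_zero _)]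
      simp
    have e3 : c.G (y.1, phase y.2) = (1 - q y.1) + (phase y.2 : ℂ) • q y.1 := by
      rw [h, sub_smul, one_smul]
      abel
    have e4 : e.Q y.1 = e.Q y.1 * q y.1 + e.Q y.1 * (1 - q y.1) := by
      rw [← mul_add, add_sub_cancel, mul_one]
    rw [m1, m2, fromBlocks_add, Clu.mat, e0, e3]
    congr 1
    · rw [← smul_add, ← e4]
    · rw [mul_add, Matrix.mul_smul, smul_add, smul_smul, add_comm]
    · rw [add_mul, Matrix.smul_mul, ← hqe, ← hqe', smul_add, smul_smul, add_comm]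
    · rw [← smul_add, ← e4]
  have k2 : cls c.fam = cls (Clu.zz e1).fam + cls (Clu.one e2).fam :=
    kapSplit_cls c.fam n1 n2 (Clu.zz e1).mat (Clu.one e2).mat (Clu.zz e1).mat_aux.1
      (Clu.one e2).mat_aux.1 (Clu.zz e1).mat_aux.2.1 (Clu.one e2).mat_aux.2.1
      (Clu.zz e1).mat_aux.2.2 (Clu.one e2).mat_aux.2.2 m0
      (fun y => by
        rw [m1, m2]
        exact kapSplit_blk _ _ _ _ _ _ _ _ _ _ (h12 y.1))
      (fun y => by
        rw [m1, m2]
        exact kapSplit_blk _ _ _ _ _ _ _ _ _ _ (h21 y.1))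
  have k3 : c.kap = (Clu.zz e1).kap + (Clu.one e2).kap := by
    unfold Clu.kap
    rw [k1, k2, map_add]
    abel
  rw [k3, Clu.kap_const (Clu.one e2) (fun _ => 1) (fun _ _ => rfl), add_zero, Clu.kap_zz]
  exact sub_mem (AddSubgroup.mem_sup_right (AddMonoidHom.mem_range.2 ⟨_, rfl⟩))
    (AddSubgroup.mem_sup_left (AddMonoidHom.mem_range.2 ⟨_, rfl⟩))

end Pool.Agent.Helper1.Stab.KT
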