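import Pool.Agent.Helper1.Stab.K.Clut

/-! Every bundle over `X × P1` has a clutching function. -/

open Matrix

noncomputable section

namespace Pool.Agent.Helper1.Stab.KT

variable {X Y : Type} [TopologicalSpace X] [TopologicalSpace Y]

/-- the matrix `V(q, p)` that conjugates `p` to `q` -/
def k10V {S : Type} [Fintype S] [DecidableEq S] (q p : Matrix S S ℂ) : Matrix S S ℂ :=
  q * p + (1 - q) * (1 - p)

theorem k10V_conj {S : Type} [Fintype S] [DecidableEq S] {q p : Matrix S S ℂ} (hq : q * q = q)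
    (hp : p * p = p) : k10V q p * p = q * k10V q p := by
  have h1 : k10V q p * p = q * (p * p) + (1 - q) * (p - p * p) := by
    unfold k10V
    noncomm_ring
  have h2 : q * k10V q p = q * q * p + (q - q * q) * (1 - p) := by
    unfold k10V
    noncomm_ring
  rw [h1, h2, hp, hq, sub_self, sub_self, Matrix.mul_zero, Matrix.zero_mul]

theorem k10V_self {S : Type} [Fintype S] [DecidableEq S] {p : Matrix S S ℂ} (hp : p * p = p) :
    k10V p p = 1 := by
  have h1 : k10V p p = 1 + 2 • (p * p - p) := by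
    unfold k10V
    noncomm_ring
  rw [h1, hp, sub_self, smul_zero, add_zero]

theorem k10V_cont {S : Type} [Fintype S] [DecidableEq S] {Z : Type} [TopologicalSpace Z]
    {f g : Z → Matrix S S ℂ} (hf : Continuous f) (hg : Continuous g) :
    Continuous fun z => k10V (f z) (g z) := by
  unfold k10V
  exact (hf.mul hg).add ((continuous_const.sub hf).mul (continuous_const.sub hg))

/-- the cut parameter `min t (j/N)` -/
def k10c (N j : ℕ) (t : unitInterval) : unitInterval :=
  ⟨min (t : ℝ) (j / N), le_min t.2.1 (by positivity), (min_le_left _ _).trans t.2.2⟩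

theorem k10c_cont (N j : ℕ) : Continuous (k10c N j) :=
  Continuous.subtype_mk (continuous_subtype_val.min continuous_const) _

theorem k10c_zero (N : ℕ) (t : unitInterval) : k10c N 0 t = 0 := by
  apply Subtype.ext
  show min (t : ℝ) ((0 : ℕ) / N) = 0
  rw [Nat.cast_zero, zero_div]
  exact min_eq_right t.2.1

theorem k10c_at (N j : ℕ) : k10c N j 0 = 0 := by
  apply Subtype.ext
  show min (0 : ℝ) (j / N) = 0
  exact min_eq_left (by positivity)

theorem k10c_last (N : ℕ) (hN : 0 < N) (t : unitInterval) : k10c N N t = t := by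
  apply Subtype.ext
  show min (t : ℝ) (N / N) = t
  rw [div_self (by exact_mod_cast hN.ne')]
  exact min_eq_left t.2.2

theorem k10c_dist (N j : ℕ) (hN : 0 < N) (t : unitInterval) :
    dist (k10c N (j + 1) t) (k10c N j t) ≤ 1 / N := by
  have hN' : (0 : ℝ) < N := by exact_mod_cast hN
  have h1 : ((j + 1 : ℕ) : ℝ) / N = j / N + 1 / N := by
    push_cast
    ring
  have h2 : (0 : ℝ) < 1 / N := by positivity
  rw [Subtype.dist_eq, Real.dist_eq]
  show |min (t : ℝ) (((j + 1 : ℕ) : ℝ) / N) - min (t : ℝ) (j / N)| ≤ 1 / N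
  rw [h1, abs_le]
  rcases le_total (t : ℝ) (j / N) with h3 | h3
  · rw [min_eq_left h3, min_eq_left (h3.trans (by linarith)), sub_self]
    constructor <;> linarith
  · rw [min_eq_right h3]
    rcases le_total (t : ℝ) (j / N + 1 / N) with h4 | h4
    · rw [min_eq_left h4]
      constructor <;> linarith
    · rw [min_eq_right h4]
      constructor <;> linarith

/-- the product over the first `j` steps -/
def k10U (H : Fam (unitInterval × Y)) (N : ℕ) : ℕ → unitInterval × Y → Matrix H.S H.S ℂ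
  | 0, _ => 1
  | j + 1, z => k10V (H.Q (k10c N (j + 1) z.1, z.2)) (H.Q (k10c N j z.1, z.2)) * k10U H N j z

theorem k10_exN [CompactSpace Y] (H : Fam (unitInterval × Y)) : ∃ N : ℕ, 0 < N ∧
    ∀ (s t : unitInterval) (y : Y), dist s t ≤ 1 / N → IsUnit (k10V (H.Q (s, y)) (H.Q (t, y))) := by
  let f : unitInterval × unitInterval × Y → ℂ := fun z =>
    (k10V (H.Q (z.1, z.2.2)) (H.Q (z.2.1, z.2.2))).det
  have hf : Continuous f := (k10V_cont (H.cont.comp (by fun_prop))
    (H.cont.comp (by fun_prop))).matrix_det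
  have hK : IsCompact (f ⁻¹' {0}) := (isClosed_singleton.preimage hf).isCompact
  have key : ∃ δ : ℝ, 0 < δ ∧ ∀ z ∈ f ⁻¹' {0}, δ ≤ dist z.1 z.2.1 := by
    rcases (f ⁻¹' {0}).eq_empty_or_nonempty with he | hne
    · exact ⟨1, one_pos, fun z hz => by rw [he] at hz; exact absurd hz (Set.notMem_empty z)⟩
    · obtain ⟨z0, hz0, hmin⟩ := hK.exists_isMinOn hne
        (f := fun z : unitInterval × unitInterval × Y => dist z.1 z.2.1)
        (Continuous.continuousOn (by fun_prop))
      refine ⟨dist z0.1 z0.2.1, ?_, fun z hz => hmin hz⟩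
      rw [dist_pos]
      intro h
      have h1 : f z0 = 0 := hz0
      have h2 : f z0 = 1 := by
        show (k10V (H.Q (z0.1, z0.2.2)) (H.Q (z0.2.1, z0.2.2))).det = 1
        rw [h, k10V_self (H.idem _), Matrix.det_one]
      rw [h2] at h1
      exact one_ne_zero h1
  obtain ⟨δ, hδ, hδ'⟩ := key
  obtain ⟨n, hn⟩ := exists_nat_one_div_lt hδ
  refine ⟨n + 1, Nat.succ_pos n, fun s t y hst => ?_⟩
  rw [Matrix.isUnit_iff_isUnit_det, isUnit_iff_ne_zero]
  intro h0
  have h1 := hδ' (s, t, y) h0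
  have h2 : dist s t ≤ 1 / ((n : ℝ) + 1) := by
    have h3 := hst
    push_cast at h3
    exact h3
  exact absurd (h1.trans h2) (not_le.2 hn)

/-- (K10) A homotopy of idempotents over a compact space is a conjugation.
Proof. For idempotents `p, q` put `V(q, p) = q p + (1 - q)(1 - p)`; then `V p = q V` and `V(p, p) = 1`.
By compactness of `I × Y` (uniform continuity of `H.Q` in the first variable, uniformly in `y`, and
openness of the invertible matrices, `det ≠ 0`) there is `N` such that `V(Q(t,y), Q(s,y))` is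
invertible whenever `|t - s| ≤ 1/N`. Put `U(t, y) = V(Q(t), Q(j/N)) V(Q(j/N), Q((j-1)/N)) ⋯
V(Q(1/N), Q(0))` for `j/N ≤ t ≤ (j+1)/N`, or without cases the finite product over `j < N` of
`V(Q(min t ((j+1)/N)), Q(min t (j/N)))` (factors with larger `j` on the left); it is continuous,
invertible, `1` at `t = 0`, and conjugates `Q(0, y)` to `Q(t, y)`. -/
theorem exists_cover [CompactSpace Y] (H : Fam (unitInterval × Y)) :
    ∃ U : unitInterval × Y → Matrix H.S H.S ℂ, Continuous U ∧ (∀ z, IsUnit (U z)) ∧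
      (∀ y, U (0, y) = 1) ∧ ∀ t y, U (t, y) * H.Q (0, y) = H.Q (t, y) * U (t, y) := by
  obtain ⟨N, hN, hunit⟩ := k10_exN H
  have hc : ∀ j, Continuous (k10U H N j) := by
    intro j
    induction j with
    | zero => exact continuous_const
    | succ j ih =>
      refine Continuous.mul (k10V_cont ?_ ?_) ih
      · exact H.cont.comp (((k10c_cont N (j + 1)).comp continuous_fst).prodMk continuous_snd)
      · exact H.cont.comp (((k10c_cont N j).comp continuous_fst).prodMk continuous_snd)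
  have hu : ∀ j z, IsUnit (k10U H N j z) := by
    intro j z
    induction j with
    | zero => exact isUnit_one
    | succ j ih => exact (hunit _ _ _ (k10c_dist N j hN z.1)).mul ih
  have h0 : ∀ j y, k10U H N j (0, y) = 1 := by
    intro j y
    induction j with
    | zero => rfl
    | succ j ih =>
      show k10V (H.Q (k10c N (j + 1) 0, y)) (H.Q (k10c N j 0, y)) * k10U H N j (0, y) = 1
      rw [ih, k10c_at, k10c_at, k10V_self (H.idem _), Matrix.one_mul]
  have hq : ∀ j t y, k10U H N j (t, y) * H.Q (0, y) = H.Q (k10c N j t, y) * k10U H N j (t, y) := by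
    intro j t y
    induction j with
    | zero =>
      show 1 * H.Q (0, y) = H.Q (k10c N 0 t, y) * 1
      rw [k10c_zero, Matrix.one_mul, Matrix.mul_one]
    | succ j ih =>
      show k10V (H.Q (k10c N (j + 1) t, y)) (H.Q (k10c N j t, y)) * k10U H N j (t, y) * H.Q (0, y) =
        H.Q (k10c N (j + 1) t, y) *
          (k10V (H.Q (k10c N (j + 1) t, y)) (H.Q (k10c N j t, y)) * k10U H N j (t, y))
      rw [Matrix.mul_assoc, ih, ← Matrix.mul_assoc, k10V_conj (H.idem _) (H.idem _),
        Matrix.mul_assoc]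
  refine ⟨k10U H N N, hc N, hu N, h0 N, fun t y => ?_⟩
  have h := hq N t y
  rwa [k10c_last N hN] at h

/-- cosine and sine of `π t / 2` -/
def cosI (t : unitInterval) : ℝ := Real.cos (Real.pi / 2 * (t : ℝ))
def sinI (t : unitInterval) : ℝ := Real.sin (Real.pi / 2 * (t : ℝ))

/-- the matrix of the projection onto the line spanned by `(cos, sin w)` -/
def polMat (y : unitInterval × Circle) : Matrix Bool Bool ℂ := fun i j => match i, j with
  | false, false => (cosI y.1 : ℂ) * cosI y.1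
  | false, true => (cosI y.1 : ℂ) * sinI y.1 * ((y.2⁻¹ : Circle) : ℂ)
  | true, false => (cosI y.1 : ℂ) * sinI y.1 * (y.2 : ℂ)
  | true, true => (sinI y.1 : ℂ) * sinI y.1

theorem cosI_sq_add (t : unitInterval) : (cosI t : ℂ) * cosI t + (sinI t : ℂ) * sinI t = 1 := by
  have h := Real.cos_sq_add_sin_sq (Real.pi / 2 * (t : ℝ))
  have h2 : cosI t * cosI t + sinI t * sinI t = 1 := by
    unfold cosI sinI
    rw [← pow_two, ← pow_two]
    exact h
  exact_mod_cast h2

theorem cosI_nonneg (t : unitInterval) : 0 ≤ cosI t := by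
  unfold cosI
  refine Real.cos_nonneg_of_mem_Icc ⟨?_, ?_⟩
  · have h1 := mul_nonneg (by positivity : 0 ≤ Real.pi / 2) t.2.1
    linarith [Real.pi_pos]
  · have h1 := mul_le_mul_of_nonneg_left t.2.2 (by positivity : 0 ≤ Real.pi / 2)
    rwa [mul_one] at h1

theorem sinI_nonneg (t : unitInterval) : 0 ≤ sinI t := by
  unfold sinI
  refine Real.sin_nonneg_of_nonneg_of_le_pi (mul_nonneg (by positivity) t.2.1) ?_
  have h1 := mul_le_mul_of_nonneg_left t.2.2 (by positivity : 0 ≤ Real.pi / 2)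
  linarith [Real.pi_pos]

theorem star_ofReal_mul (a b : ℝ) : star ((a : ℂ) * b) = (a : ℂ) * b := by
  rw [← Complex.ofReal_mul]
  exact Complex.conj_ofReal _

theorem circle_star (w : Circle) : star (w : ℂ) = ((w⁻¹ : Circle) : ℂ) :=
  (Circle.coe_inv_eq_conj w).symm

/-- (K11a) -/
theorem polMat_aux (y : unitInterval × Circle) : (polMat y)ᴴ = polMat y ∧
    polMat y * polMat y = polMat y ∧ (polMat y).trace = ((1 : ℕ) : ℂ) := by
  have hcs := cosI_sq_add y.1
  have hw : ((y.2⁻¹ : Circle) : ℂ) * (y.2 : ℂ) = 1 := by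
    rw [← Circle.coe_mul, inv_mul_cancel, Circle.coe_one]
  have hw2 : star ((y.2⁻¹ : Circle) : ℂ) = (y.2 : ℂ) := by
    rw [circle_star, inv_inv]
  refine ⟨?_, ?_, ?_⟩
  · ext i j
    rw [Matrix.conjTranspose_apply]
    cases i <;> cases j
    · exact star_ofReal_mul _ _
    · show star ((cosI y.1 : ℂ) * sinI y.1 * (y.2 : ℂ)) = _
      rw [star_mul', star_ofReal_mul, circle_star]
      rfl
    · show star ((cosI y.1 : ℂ) * sinI y.1 * ((y.2⁻¹ : Circle) : ℂ)) = _
      rw [star_mul', star_ofReal_mul, hw2]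
      rfl
    · exact star_ofReal_mul _ _
  · ext i j
    rw [Matrix.mul_apply, Fintype.sum_bool]
    cases i <;> cases j
    · show (cosI y.1 : ℂ) * sinI y.1 * ((y.2⁻¹ : Circle) : ℂ) * ((cosI y.1 : ℂ) * sinI y.1 * (y.2 : ℂ))
        + (cosI y.1 : ℂ) * cosI y.1 * ((cosI y.1 : ℂ) * cosI y.1) = (cosI y.1 : ℂ) * cosI y.1
      linear_combination (cosI y.1 : ℂ) ^ 2 * (sinI y.1 : ℂ) ^ 2 * hw
        + (cosI y.1 : ℂ) ^ 2 * hcs
    · show (cosI y.1 : ℂ) * sinI y.1 * ((y.2⁻¹ : Circle) : ℂ) * ((sinI y.1 : ℂ) * sinI y.1)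
        + (cosI y.1 : ℂ) * cosI y.1 * ((cosI y.1 : ℂ) * sinI y.1 * ((y.2⁻¹ : Circle) : ℂ))
        = (cosI y.1 : ℂ) * sinI y.1 * ((y.2⁻¹ : Circle) : ℂ)
      linear_combination (cosI y.1 : ℂ) * (sinI y.1 : ℂ) * ((y.2⁻¹ : Circle) : ℂ) * hcs
    · show (sinI y.1 : ℂ) * sinI y.1 * ((cosI y.1 : ℂ) * sinI y.1 * (y.2 : ℂ))
        + (cosI y.1 : ℂ) * sinI y.1 * (y.2 : ℂ) * ((cosI y.1 : ℂ) * cosI y.1)
        = (cosI y.1 : ℂ) * sinI y.1 * (y.2 : ℂ)
      linear_combination (cosI y.1 : ℂ) * (sinI y.1 : ℂ) * (y.2 : ℂ) * hcs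
    · show (sinI y.1 : ℂ) * sinI y.1 * ((sinI y.1 : ℂ) * sinI y.1)
        + (cosI y.1 : ℂ) * sinI y.1 * (y.2 : ℂ) * ((cosI y.1 : ℂ) * sinI y.1 * ((y.2⁻¹ : Circle) : ℂ))
        = (sinI y.1 : ℂ) * sinI y.1
      linear_combination (cosI y.1 : ℂ) ^ 2 * (sinI y.1 : ℂ) ^ 2 * hw
        + (sinI y.1 : ℂ) ^ 2 * hcs
  · rw [Matrix.trace, Fintype.sum_bool, Nat.cast_one]
    show (sinI y.1 : ℂ) * sinI y.1 + (cosI y.1 : ℂ) * cosI y.1 = 1
    rw [add_comm]
    exact hcs

/-- polar coordinates on the projective line: the line spanned by `(cos, sin w)` -/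
def pol (y : unitInterval × Circle) : P1 := ⟨polMat y, polMat_aux y⟩

theorem mat_facts (m : Matrix Bool Bool ℂ) (h1 : mᴴ = m) (h2 : m * m = m)
    (h3 : m.trace = ((1 : ℕ) : ℂ)) : ∃ a : ℝ, 0 ≤ a ∧ a ≤ 1 ∧ m false false = (a : ℂ) ∧
    m true true = ((1 - a : ℝ) : ℂ) ∧ m false true = star (m true false) ∧
    ‖m true false‖ = √a * √(1 - a) := by
  have e1 : m false true = star (m true false) := (congrFun (congrFun h1 false) true).symm
  have e2 : star (m false false) = m false false := congrFun (congrFun h1 false) false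
  have e3 : (((m false false).re : ℝ) : ℂ) = m false false := Complex.conj_eq_iff_re.1 e2
  have e4 : m true true = 1 - m false false := by
    rw [Matrix.trace, Fintype.sum_bool, Nat.cast_one] at h3
    exact eq_sub_of_add_eq h3
  have e5 : m false true * m true false + m false false * m false false = m false false := by
    have h4 := congrFun (congrFun h2 false) false
    rw [Matrix.mul_apply, Fintype.sum_bool] at h4
    exact h4
  obtain ⟨a, ha⟩ : ∃ a : ℝ, a = (m false false).re := ⟨_, rfl⟩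
  rw [← ha] at e3
  have e6 : ‖m true false‖ ^ 2 + a * a = a := by
    rw [e1, ← e3] at e5
    have h4 : star (m true false) * m true false = ((‖m true false‖ ^ 2 : ℝ) : ℂ) := by
      have h5 := Complex.conj_mul' (m true false)
      rw [Complex.ofReal_pow]
      exact h5
    rw [h4] at e5
    exact_mod_cast e5
  have h0 : 0 ≤ a := by nlinarith [sq_nonneg ‖m true false‖, mul_self_nonneg a]
  have h1' : a ≤ 1 := by
    by_contra hc
    push Not at hc
    nlinarith [sq_nonneg ‖m true false‖]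
  refine ⟨a, h0, h1', e3.symm, ?_, e1, ?_⟩
  · rw [e4, ← e3]
    push_cast
    rfl
  · rw [← Real.sqrt_mul h0, eq_comm, Real.sqrt_eq_iff_mul_self_eq (by nlinarith) (norm_nonneg _)]
    linarith

theorem P1_facts (p : P1) : ∃ a : ℝ, 0 ≤ a ∧ a ≤ 1 ∧ p.1 false false = (a : ℂ) ∧
    p.1 true true = ((1 - a : ℝ) : ℂ) ∧ p.1 false true = star (p.1 true false) ∧
    ‖p.1 true false‖ = √a * √(1 - a) := mat_facts p.1 p.2.1 p.2.2.1 p.2.2.2

/-- (K11b) For `p` take `t` with `cos² = p00` and `w = phase p`. -/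
theorem pol_surjective : Function.Surjective pol := by
  intro p
  obtain ⟨a, h0, h1, e0, e1, e2, e3⟩ := P1_facts p
  have hs0 : 0 ≤ √a := Real.sqrt_nonneg a
  have hs1 : √a ≤ 1 := Real.sqrt_le_one.2 h1
  have ht0 : 0 ≤ 2 / Real.pi * Real.arccos (√a) :=
    mul_nonneg (by positivity) (Real.arccos_nonneg _)
  have ht1 : 2 / Real.pi * Real.arccos (√a) ≤ 1 := by
    have h2 : Real.arccos (√a) ≤ Real.pi / 2 := Real.arccos_le_pi_div_two.2 hs0
    calc 2 / Real.pi * Real.arccos (√a) ≤ 2 / Real.pi * (Real.pi / 2) :=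
          mul_le_mul_of_nonneg_left h2 (by positivity)
      _ = 1 := by
          field_simp
  let t : unitInterval := ⟨2 / Real.pi * Real.arccos (√a), ht0, ht1⟩
  have hang : Real.pi / 2 * (t : ℝ) = Real.arccos (√a) := by
    show Real.pi / 2 * (2 / Real.pi * Real.arccos (√a)) = Real.arccos (√a)
    field_simp
  have hc : cosI t = √a := by
    unfold cosI
    rw [hang, Real.cos_arccos (by linarith) hs1]
  have hsn : sinI t = √(1 - a) := by
    unfold sinI
    rw [hang, Real.sin_arccos, Real.sq_sqrt h0]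
  have hph : ((‖p.1 true false‖ : ℝ) : ℂ) * (phase p : ℂ) = p.1 true false := by
    unfold phase
    split_ifs with h
    · rw [h, norm_zero, Complex.ofReal_zero, zero_mul]
    · show ((‖p.1 true false‖ : ℝ) : ℂ) * (p.1 true false / (‖p.1 true false‖ : ℂ)) = _
      exact mul_div_cancel₀ _ (Complex.ofReal_ne_zero.2 (norm_ne_zero_iff.2 h))
  have hph2 : ((‖p.1 true false‖ : ℝ) : ℂ) * (((phase p)⁻¹ : Circle) : ℂ) = p.1 false true := by
    rw [e2, ← circle_star]
    conv_rhs => rw [← hph]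
    rw [star_mul']
    congr 1
    exact (Complex.conj_ofReal _).symm
  refine ⟨(t, phase p), ?_⟩
  apply Subtype.ext
  show polMat (t, phase p) = p.1
  ext i j
  cases i <;> cases j
  · show (cosI t : ℂ) * cosI t = _
    rw [hc, e0, ← Complex.ofReal_mul, Real.mul_self_sqrt h0]
  · show (cosI t : ℂ) * sinI t * (((phase p)⁻¹ : Circle) : ℂ) = _
    rw [hc, hsn, ← Complex.ofReal_mul, ← e3, hph2]
  · show (cosI t : ℂ) * sinI t * (phase p : ℂ) = _
    rw [hc, hsn, ← Complex.ofReal_mul, ← e3, hph]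
  · show (sinI t : ℂ) * sinI t = _
    rw [hsn, e1, ← Complex.ofReal_mul, Real.mul_self_sqrt (by linarith)]

theorem continuous_pol : Continuous pol := by
  refine Continuous.subtype_mk ?_ _
  have hc : Continuous fun y : unitInterval × Circle => (cosI y.1 : ℂ) := by
    unfold cosI
    fun_prop
  have hs : Continuous fun y : unitInterval × Circle => (sinI y.1 : ℂ) := by
    unfold sinI
    fun_prop
  have hw : Continuous fun y : unitInterval × Circle => (y.2 : ℂ) :=
    continuous_subtype_val.comp continuous_snd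
  have hw1 : Continuous fun y : unitInterval × Circle => (y.2⁻¹ : Circle) := continuous_snd.inv
  have hw2 : Continuous fun y : unitInterval × Circle => ((y.2⁻¹ : Circle) : ℂ) :=
    (show Continuous (fun w : Circle => (w : ℂ)) from continuous_subtype_val).comp hw1
  refine continuous_matrix fun i j => ?_
  cases i <;> cases j
  · exact hc.mul hc
  · exact (hc.mul hs).mul hw2
  · exact (hc.mul hs).mul hw
  · exact hs.mul hs

theorem cosI_inj {t t' : unitInterval} (h : cosI t = cosI t') : t = t' := by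
  have hm : ∀ t : unitInterval, Real.pi / 2 * (t : ℝ) ∈ Set.Icc 0 Real.pi := by
    intro t
    refine ⟨mul_nonneg (by positivity) t.2.1, ?_⟩
    have h1 := mul_le_mul_of_nonneg_left t.2.2 (by positivity : 0 ≤ Real.pi / 2)
    linarith [Real.pi_pos]
  have h2 := Real.injOn_cos (hm t) (hm t') h
  have hpi : Real.pi / 2 ≠ 0 := by positivity
  exact Subtype.ext (mul_left_cancel₀ hpi h2)

theorem pol_eq {t t' : unitInterval} {w w' : Circle} (h : pol (t, w) = pol (t', w')) :
    t = t' ∧ (w = w' ∨ t = 0 ∨ t = 1) := by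
  have h1 : polMat (t, w) = polMat (t', w') := congrArg Subtype.val h
  have h2 : (cosI t : ℂ) * cosI t = (cosI t' : ℂ) * cosI t' :=
    congrFun (congrFun h1 false) false
  have h3 : cosI t * cosI t = cosI t' * cosI t' := by exact_mod_cast h2
  have h4 : cosI t = cosI t' :=
    (mul_self_inj_of_nonneg (cosI_nonneg t) (cosI_nonneg t')).1 h3
  obtain rfl := cosI_inj h4
  refine ⟨rfl, ?_⟩
  have h5 : (cosI t : ℂ) * sinI t * (w : ℂ) = (cosI t : ℂ) * sinI t * (w' : ℂ) :=
    congrFun (congrFun h1 true) false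
  rcases mul_eq_mul_left_iff.1 h5 with h6 | h6
  · exact Or.inl (Circle.ext h6)
  · right
    rcases mul_eq_zero.1 h6 with h7 | h7
    · right
      have h8 : cosI t = cosI 1 := by
        rw [Complex.ofReal_eq_zero.1 h7]
        unfold cosI
        simp
      exact cosI_inj h8
    · left
      have h8 : cosI t = cosI 0 := by
        have h9 := cosI_sq_add t
        rw [h7, mul_zero, add_zero] at h9
        have h10 : cosI t * cosI t = 1 := by exact_mod_cast h9
        have h11 : cosI (0 : unitInterval) = 1 := by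
          unfold cosI
          simp
        rw [h11]
        nlinarith [cosI_nonneg t]
      exact cosI_inj h8

/-- (K11) descent along polar coordinates: a continuous function on `X × I × S¹` that does not
depend on the phase at the two ends comes from a continuous function on `X × P1`.
Proof. `pol` is continuous and surjective (for `p` take `cos² = p00`, `w = phase p`), `I × S¹` is
compact and `P1` is Hausdorff, so `pol` is proper and `id × pol : X × (I × S¹) → X × P1` is a closed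
continuous surjection, hence a quotient map. `pol (t, w) = pol (t', w')` implies `t = t'` and
(`w = w'` or `t = 0` or `t = 1`). -/
theorem exists_desc {S T : Type} [Fintype S] [Fintype T]
    (F : X × unitInterval × Circle → Matrix T S ℂ) (hF : Continuous F)
    (h0 : ∀ x w w', F (x, 0, w) = F (x, 0, w')) (h1 : ∀ x w w', F (x, 1, w) = F (x, 1, w')) :
    ∃ A : X × P1 → Matrix T S ℂ, Continuous A ∧ ∀ x t w, A (x, pol (t, w)) = F (x, t, w) := by
  have : T2Space P1 := inferInstanceAs (T2Space {p : Matrix Bool Bool ℂ //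
    pᴴ = p ∧ p * p = p ∧ p.trace = ((1 : ℕ) : ℂ)})
  have hprop : IsProperMap pol := continuous_pol.isProperMap
  have hprod : IsProperMap (Prod.map (id : X → X) pol) := isProperMap_id.prodMap hprop
  have hsurj : Function.Surjective (Prod.map (id : X → X) pol) :=
    Function.surjective_id.prodMap pol_surjective
  have hq : Topology.IsQuotientMap (Prod.map (id : X → X) pol) :=
    hprod.isClosedMap.isQuotientMap hprod.continuous hsurj
  have hfac : ∀ z z' : X × unitInterval × Circle,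
      Prod.map (id : X → X) pol z = Prod.map (id : X → X) pol z' → F z = F z' := by
    rintro ⟨x, t, w⟩ ⟨x', t', w'⟩ h
    obtain rfl : x = x' := congrArg Prod.fst h
    obtain ⟨rfl, h3⟩ := pol_eq (congrArg Prod.snd h)
    rcases h3 with rfl | rfl | rfl
    · rfl
    · exact h0 _ _ _
    · exact h1 _ _ _
  have hA : ∀ z, F (Function.surjInv hsurj (Prod.map (id : X → X) pol z)) = F z := fun z =>
    hfac _ _ (Function.surjInv_eq hsurj _)
  refine ⟨fun z => F (Function.surjInv hsurj z), ?_, fun x t w => hA (x, t, w)⟩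
  rw [hq.continuous_iff]
  have : (fun z => F (Function.surjInv hsurj z)) ∘ Prod.map (id : X → X) pol = F :=
    funext hA
  rw [this]
  exact hF

theorem k12_norm (t : unitInterval) (w : Circle) :
    ‖(pol (t, w)).1 true false‖ = cosI t * sinI t := by
  show ‖(cosI t : ℂ) * sinI t * (w : ℂ)‖ = _
  rw [norm_mul, Circle.norm_coe, mul_one, ← Complex.ofReal_mul, Complex.norm_real,
    Real.norm_of_nonneg (mul_nonneg (cosI_nonneg t) (sinI_nonneg t))]

theorem k12_phase (t : unitInterval) (w : Circle) (h : cosI t * sinI t ≠ 0) :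
    phase (pol (t, w)) = w := by
  have h1 : (pol (t, w)).1 true false = ((cosI t * sinI t : ℝ) : ℂ) * (w : ℂ) := by
    show (cosI t : ℂ) * sinI t * (w : ℂ) = _
    rw [Complex.ofReal_mul]
  have hc : ((cosI t * sinI t : ℝ) : ℂ) ≠ 0 := Complex.ofReal_ne_zero.2 h
  have h2 : (pol (t, w)).1 true false ≠ 0 := by
    rw [h1]
    exact mul_ne_zero hc (Circle.coe_ne_zero w)
  apply Circle.ext
  unfold phase
  rw [dif_neg h2]
  show (pol (t, w)).1 true false / (‖(pol (t, w)).1 true false‖ : ℂ) = (w : ℂ)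
  rw [k12_norm, h1]
  exact mul_div_cancel_left₀ _ hc

/-- (K12) the matrix of a clutched bundle in polar coordinates -/
theorem Clu.mat_pol {e : Fam X} (c : Clu e) (x : X) (t : unitInterval) (w : Circle) :
    c.mat (x, pol (t, w)) = fromBlocks ((cosI t * cosI t : ℂ) • e.Q x)
      ((cosI t * sinI t : ℂ) • (e.Q x * (c.G (x, w))⁻¹))
      ((cosI t * sinI t : ℂ) • (c.G (x, w) * e.Q x)) ((sinI t * sinI t : ℂ) • e.Q x) := by
  have e0 : (pol (t, w)).1 false false = (cosI t * cosI t : ℂ) := rfl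
  have e1 : (pol (t, w)).1 true true = (sinI t * sinI t : ℂ) := rfl
  have e2 : (‖(pol (t, w)).1 true false‖ : ℂ) = (cosI t * sinI t : ℂ) := by
    rw [k12_norm, Complex.ofReal_mul]
  show fromBlocks ((pol (t, w)).1 false false • e.Q x)
    ((‖(pol (t, w)).1 true false‖ : ℂ) • (e.Q x * (c.G (x, phase (pol (t, w))))⁻¹))
    ((‖(pol (t, w)).1 true false‖ : ℂ) • (c.G (x, phase (pol (t, w))) * e.Q x))
    ((pol (t, w)).1 true true • e.Q x) = _
  rw [e0, e1, e2]
  by_cases h : cosI t * sinI t = 0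
  · have h3 : (cosI t * sinI t : ℂ) = 0 := by
      rw [← Complex.ofReal_mul, h, Complex.ofReal_zero]
    rw [h3]
    simp only [zero_smul]
  · rw [k12_phase t w h]

/-! Auxiliary lemmas for (K13). -/

theorem k13_fromRows {S1 S2 S3 : Type} {f : Y → Matrix S1 S3 ℂ} {g : Y → Matrix S2 S3 ℂ}
    (hf : Continuous f) (hg : Continuous g) : Continuous fun y => fromRows (f y) (g y) := by
  refine continuous_matrix fun i j => ?_
  rcases i with i | i
  · exact hf.matrix_elem i j
  · exact hg.matrix_elem i j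

theorem k13_fromCols {S1 S2 S3 : Type} {f : Y → Matrix S3 S1 ℂ} {g : Y → Matrix S3 S2 ℂ}
    (hf : Continuous f) (hg : Continuous g) : Continuous fun y => fromCols (f y) (g y) := by
  refine continuous_matrix fun i j => ?_
  rcases j with j | j
  · exact hf.matrix_elem i j
  · exact hg.matrix_elem i j

theorem k13_contc : Continuous fun t : unitInterval => (cosI t : ℂ) := by
  unfold cosI
  fun_prop

theorem k13_conts : Continuous fun t : unitInterval => (sinI t : ℂ) := by
  unfold sinI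
  fun_prop

theorem k13_c0 : cosI 0 = 1 := by simp [cosI]

theorem k13_s0 : sinI 0 = 0 := by simp [sinI]

theorem k13_c1 : cosI 1 = 0 := by simp [cosI]

theorem k13_s1 : sinI 1 = 1 := by simp [sinI]

theorem k13_sq (t : unitInterval) :
    (cosI t : ℂ) * cosI t + (sinI t : ℂ) * sinI t = 1 := by
  have h := Real.cos_sq_add_sin_sq (Real.pi / 2 * (t : ℝ))
  have h2 : cosI t * cosI t + sinI t * sinI t = 1 := by
    unfold cosI sinI
    linarith
  exact_mod_cast h2

theorem k13_pol0 (w w' : Circle) : pol (0, w) = pol (0, w') := by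
  apply Subtype.ext
  funext i j
  show polMat (0, w) i j = polMat (0, w') i j
  rcases i with _ | _ <;> rcases j with _ | _ <;> simp [polMat, k13_s0]

theorem k13_pol1 (w w' : Circle) : pol (1, w) = pol (1, w') := by
  apply Subtype.ext
  funext i j
  show polMat (1, w) i j = polMat (1, w') i j
  rcases i with _ | _ <;> rcases j with _ | _ <;> simp [polMat, k13_c1]

/-- the algebra of (K13) -/
theorem k13_alg {S : Type} [Fintype S] [DecidableEq S] {U E e G : Matrix S S ℂ} {c s : ℂ}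
    (hU : IsUnit U) (hG : IsUnit G) (hE : E * E = E) (he : e * e = e) (hUe : U * e = E * U)
    (hGe : e * G = G * e) (hcs : c * c + s * s = 1) :
    fromCols (c • (U * e)) (s • (U * e * G⁻¹)) * fromRows (c • (U⁻¹ * E)) (s • (G * U⁻¹ * E)) = E ∧
    fromRows (c • (U⁻¹ * E)) (s • (G * U⁻¹ * E)) * fromCols (c • (U * e)) (s • (U * e * G⁻¹)) =
      fromBlocks ((c * c) • e) ((c * s) • (e * G⁻¹)) ((c * s) • (G * e)) ((s * s) • e) := by
  have hU' : IsUnit U.det := (isUnit_iff_isUnit_det U).1 hU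
  have hG' : IsUnit G.det := (isUnit_iff_isUnit_det G).1 hG
  have u1 : U * U⁻¹ = 1 := mul_nonsing_inv U hU'
  have u2 : U⁻¹ * U = 1 := nonsing_inv_mul U hU'
  have g1 : G * G⁻¹ = 1 := mul_nonsing_inv G hG'
  have g2 : G⁻¹ * G = 1 := nonsing_inv_mul G hG'
  have k1 : U * e * (U⁻¹ * E) = E := by
    rw [hUe, Matrix.mul_assoc, ← Matrix.mul_assoc U, u1, Matrix.one_mul, hE]
  have k2 : U * e * G⁻¹ * (G * U⁻¹ * E) = E := by
    have : U * e * G⁻¹ * (G * U⁻¹ * E) = U * e * ((G⁻¹ * G) * (U⁻¹ * E)) := by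
      simp only [Matrix.mul_assoc]
    rw [this, g2, Matrix.one_mul, k1]
  have k3 : U⁻¹ * E * (U * e) = e := by
    have : U⁻¹ * E * (U * e) = U⁻¹ * (E * U) * e := by simp only [Matrix.mul_assoc]
    rw [this, ← hUe, ← Matrix.mul_assoc U⁻¹, u2, Matrix.one_mul, he]
  have k4 : U⁻¹ * E * (U * e * G⁻¹) = e * G⁻¹ := by
    rw [← Matrix.mul_assoc, k3]
  have k5 : G * U⁻¹ * E * (U * e) = G * e := by
    have : G * U⁻¹ * E * (U * e) = G * (U⁻¹ * E * (U * e)) := by simp only [Matrix.mul_assoc]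
    rw [this, k3]
  have k6 : G * U⁻¹ * E * (U * e * G⁻¹) = e := by
    rw [← Matrix.mul_assoc, k5, ← hGe, Matrix.mul_assoc, g1, Matrix.mul_one]
  constructor
  · rw [fromCols_mul_fromRows, Matrix.smul_mul, Matrix.mul_smul, Matrix.smul_mul,
      Matrix.mul_smul, k1, k2, smul_smul, smul_smul, ← add_smul, hcs, one_smul]
  · rw [fromRows_mul_fromCols]
    simp only [Matrix.smul_mul, Matrix.mul_smul, k3, k4, k5, k6, smul_smul]
    rw [mul_comm s c]

/-- (K13) Every bundle over `X × P1` has a clutching function.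
Proof. Apply `exists_cover` to the family `(t, (x, w)) ↦ E (x, pol (t, w))` over `I × (X × S¹)`:
`U (t, x, w)` with `U = 1` at `t = 0`. Let `e (x) = E (x, pol (0, 1))` (`pol (0, w)` and `pol (1, w)` do
not depend on `w`), `G (x, w) = U (1, x, 1)⁻¹ U (1, x, w)`; it commutes with `e`. With `c = cos`,
`s = sin` of `π t / 2` put `A = [c • 1; s • G] U(t, x, w)⁻¹ E(x, pol (t, w))` and
`B = U(t, x, w) e [c • 1, s • G⁻¹]`. Then `B A = E`, `A B = c.mat` (by `mat_pol`, `e` commutes with
`G`, `U e = E U`, `c² + s² = 1`). At `t = 0`: `A = [1; 0] e`, `B = e [1, 0]`; at `t = 1`: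
`A = [0; U (1, x, 1)⁻¹] E (x, ∞)`, `B = U(1,x,w) e [0, U(1,x,w)⁻¹ U(1,x,1)] = E(x,∞) [0, U(1,x,1)]`:
independent of `w`. So `A`, `B` descend by `exists_desc` and give `MvN E c.fam`. -/
theorem exists_clutch [CompactSpace X] (E : Fam (X × P1)) :
    ∃ (e : Fam X) (c : Clu e), cls E = cls c.fam := by
  have hcp : Continuous fun z : unitInterval × (X × Circle) =>
      ((z.2.1, pol (z.1, z.2.2)) : X × P1) :=
    (continuous_fst.comp continuous_snd).prodMk
      (continuous_pol.comp (continuous_fst.prodMk (continuous_snd.comp continuous_snd)))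
  obtain ⟨U, hUc, hUu, hU0, hUE⟩ : ∃ U : unitInterval × (X × Circle) → Matrix E.S E.S ℂ,
      Continuous U ∧ (∀ z, IsUnit (U z)) ∧ (∀ y, U (0, y) = 1) ∧
      ∀ t y, U (t, y) * E.Q (y.1, pol (0, y.2)) = E.Q (y.1, pol (t, y.2)) * U (t, y) :=
    exists_cover (E.map ⟨_, hcp⟩)
  let e : Fam X := E.map ⟨fun x => (x, pol (0, 1)), by fun_prop⟩
  have heQ : ∀ x w, E.Q (x, pol (0, w)) = E.Q (x, pol (0, 1)) := fun x w => by
    rw [k13_pol0 w 1]
  have hEU : ∀ t x w, U (t, (x, w)) * E.Q (x, pol (0, 1)) =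
      E.Q (x, pol (t, w)) * U (t, (x, w)) := fun t x w => by
    rw [← heQ x w]
    exact hUE t (x, w)
  have hU1c : Continuous fun z : X × Circle => U (1, (z.1, 1)) := hUc.comp (by fun_prop)
  have hU2c : Continuous fun z : X × Circle => U (1, (z.1, z.2)) := hUc.comp (by fun_prop)
  have hdet : ∀ z, IsUnit (U z).det := fun z => (isUnit_iff_isUnit_det _).1 (hUu z)
  have hinvu : ∀ z, IsUnit (U z)⁻¹ := fun z => by
    rw [isUnit_iff_isUnit_det]
    exact isUnit_nonsing_inv_det _ (hdet z)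
  let G : X × Circle → Matrix E.S E.S ℂ := fun z => (U (1, (z.1, 1)))⁻¹ * U (1, (z.1, z.2))
  have hGc : Continuous G := (continuous_inv_mat hU1c fun z => hUu _).matrix_mul hU2c
  have hGu : ∀ z, IsUnit (G z) := fun z => (hinvu _).mul (hUu _)
  have hGe : ∀ x w, E.Q (x, pol (0, 1)) * G (x, w) = G (x, w) * E.Q (x, pol (0, 1)) := by
    intro x w
    have h1 := hEU 1 x 1
    have h2 := hEU 1 x w
    have h3 : E.Q (x, pol (0, 1)) * (U (1, (x, 1)))⁻¹ =
        (U (1, (x, 1)))⁻¹ * E.Q (x, pol (1, 1)) := by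
      have h4 : (U (1, (x, 1)))⁻¹ * (U (1, (x, 1)) * E.Q (x, pol (0, 1))) * (U (1, (x, 1)))⁻¹ =
          (U (1, (x, 1)))⁻¹ * (E.Q (x, pol (1, 1)) * U (1, (x, 1))) * (U (1, (x, 1)))⁻¹ := by
        rw [h1]
      rw [← Matrix.mul_assoc, nonsing_inv_mul _ (hdet _), Matrix.one_mul, ← Matrix.mul_assoc,
        Matrix.mul_assoc (_ * _), mul_nonsing_inv _ (hdet _), Matrix.mul_one] at h4
      exact h4
    show E.Q (x, pol (0, 1)) * ((U (1, (x, 1)))⁻¹ * U (1, (x, w))) =
      (U (1, (x, 1)))⁻¹ * U (1, (x, w)) * E.Q (x, pol (0, 1))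
    rw [← Matrix.mul_assoc, h3, Matrix.mul_assoc, Matrix.mul_assoc, h2, k13_pol1 1 w]
  let c : Clu e := ⟨G, hGc, hGu, hGe⟩
  -- the two families of matrices
  let A : X × unitInterval × Circle → Matrix (E.S ⊕ E.S) E.S ℂ := fun z =>
    fromRows ((cosI z.2.1 : ℂ) • ((U (z.2.1, (z.1, z.2.2)))⁻¹ * E.Q (z.1, pol (z.2.1, z.2.2))))
      ((sinI z.2.1 : ℂ) • (G (z.1, z.2.2) * (U (z.2.1, (z.1, z.2.2)))⁻¹ *
        E.Q (z.1, pol (z.2.1, z.2.2))))
  let B : X × unitInterval × Circle → Matrix E.S (E.S ⊕ E.S) ℂ := fun z =>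
    fromCols ((cosI z.2.1 : ℂ) • (U (z.2.1, (z.1, z.2.2)) * E.Q (z.1, pol (0, 1))))
      ((sinI z.2.1 : ℂ) • (U (z.2.1, (z.1, z.2.2)) * E.Q (z.1, pol (0, 1)) *
        (G (z.1, z.2.2))⁻¹))
  have cU : Continuous fun z : X × unitInterval × Circle => U (z.2.1, (z.1, z.2.2)) :=
    hUc.comp (by fun_prop)
  have cUi : Continuous fun z : X × unitInterval × Circle => (U (z.2.1, (z.1, z.2.2)))⁻¹ :=
    continuous_inv_mat cU fun z => hUu _
  have cG : Continuous fun z : X × unitInterval × Circle => G (z.1, z.2.2) :=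
    hGc.comp (by fun_prop)
  have cGi : Continuous fun z : X × unitInterval × Circle => (G (z.1, z.2.2))⁻¹ :=
    continuous_inv_mat cG fun z => hGu _
  have cE : Continuous fun z : X × unitInterval × Circle => E.Q (z.1, pol (z.2.1, z.2.2)) :=
    E.cont.comp (continuous_fst.prodMk (continuous_pol.comp continuous_snd))
  have ce : Continuous fun z : X × unitInterval × Circle => E.Q (z.1, pol (0, 1)) :=
    E.cont.comp (continuous_fst.prodMk continuous_const)
  have cc : Continuous fun z : X × unitInterval × Circle => (cosI z.2.1 : ℂ) :=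
    k13_contc.comp (continuous_fst.comp continuous_snd)
  have cs : Continuous fun z : X × unitInterval × Circle => (sinI z.2.1 : ℂ) :=
    k13_conts.comp (continuous_fst.comp continuous_snd)
  have cA : Continuous A := k13_fromRows (cc.smul (cUi.matrix_mul cE))
    (cs.smul ((cG.matrix_mul cUi).matrix_mul cE))
  have cB : Continuous B := k13_fromCols (cc.smul (cU.matrix_mul ce))
    (cs.smul ((cU.matrix_mul ce).matrix_mul cGi))
  obtain ⟨A', hA', hA⟩ := exists_desc A cA (by
    intro x w w'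
    show fromRows ((cosI 0 : ℂ) • ((U (0, (x, w)))⁻¹ * E.Q (x, pol (0, w))))
      ((sinI 0 : ℂ) • (G (x, w) * (U (0, (x, w)))⁻¹ * E.Q (x, pol (0, w)))) =
      fromRows ((cosI 0 : ℂ) • ((U (0, (x, w')))⁻¹ * E.Q (x, pol (0, w'))))
      ((sinI 0 : ℂ) • (G (x, w') * (U (0, (x, w')))⁻¹ * E.Q (x, pol (0, w'))))
    rw [hU0, hU0, k13_s0, k13_pol0 w w']
    simp) (by
    intro x w w'
    show fromRows ((cosI 1 : ℂ) • ((U (1, (x, w)))⁻¹ * E.Q (x, pol (1, w))))
      ((sinI 1 : ℂ) • (G (x, w) * (U (1, (x, w)))⁻¹ * E.Q (x, pol (1, w)))) =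
      fromRows ((cosI 1 : ℂ) • ((U (1, (x, w')))⁻¹ * E.Q (x, pol (1, w'))))
      ((sinI 1 : ℂ) • (G (x, w') * (U (1, (x, w')))⁻¹ * E.Q (x, pol (1, w'))))
    have hG1 : ∀ w, G (x, w) * (U (1, (x, w)))⁻¹ = (U (1, (x, 1)))⁻¹ := by
      intro w
      show (U (1, (x, 1)))⁻¹ * U (1, (x, w)) * (U (1, (x, w)))⁻¹ = _
      rw [Matrix.mul_assoc, mul_nonsing_inv _ (hdet _), Matrix.mul_one]
    rw [hG1, hG1, k13_c1, k13_pol1 w w']
    simp)
  obtain ⟨B', hB', hB⟩ := exists_desc B cB (by
    intro x w w'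
    show fromCols ((cosI 0 : ℂ) • (U (0, (x, w)) * E.Q (x, pol (0, 1))))
      ((sinI 0 : ℂ) • (U (0, (x, w)) * E.Q (x, pol (0, 1)) * (G (x, w))⁻¹)) =
      fromCols ((cosI 0 : ℂ) • (U (0, (x, w')) * E.Q (x, pol (0, 1))))
      ((sinI 0 : ℂ) • (U (0, (x, w')) * E.Q (x, pol (0, 1)) * (G (x, w'))⁻¹))
    rw [hU0, hU0, k13_s0]
    simp) (by
    intro x w w'
    show fromCols ((cosI 1 : ℂ) • (U (1, (x, w)) * E.Q (x, pol (0, 1))))
      ((sinI 1 : ℂ) • (U (1, (x, w)) * E.Q (x, pol (0, 1)) * (G (x, w))⁻¹)) =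
      fromCols ((cosI 1 : ℂ) • (U (1, (x, w')) * E.Q (x, pol (0, 1))))
      ((sinI 1 : ℂ) • (U (1, (x, w')) * E.Q (x, pol (0, 1)) * (G (x, w'))⁻¹))
    have hG1 : ∀ w, U (1, (x, w)) * E.Q (x, pol (0, 1)) * (G (x, w))⁻¹ =
        E.Q (x, pol (1, 1)) * U (1, (x, 1)) := by
      intro w
      show U (1, (x, w)) * E.Q (x, pol (0, 1)) * ((U (1, (x, 1)))⁻¹ * U (1, (x, w)))⁻¹ = _
      rw [Matrix.mul_inv_rev, nonsing_inv_nonsing_inv _ (hdet _), hEU, Matrix.mul_assoc,
        ← Matrix.mul_assoc (U (1, (x, w))), mul_nonsing_inv _ (hdet _), Matrix.one_mul,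
        k13_pol1 w 1]
    rw [hG1, hG1, k13_c1]
    simp)
  have halg : ∀ x t w, B (x, t, w) * A (x, t, w) = E.Q (x, pol (t, w)) ∧
      A (x, t, w) * B (x, t, w) = fromBlocks ((cosI t * cosI t : ℂ) • E.Q (x, pol (0, 1)))
      ((cosI t * sinI t : ℂ) • (E.Q (x, pol (0, 1)) * (G (x, w))⁻¹))
      ((cosI t * sinI t : ℂ) • (G (x, w) * E.Q (x, pol (0, 1))))
      ((sinI t * sinI t : ℂ) • E.Q (x, pol (0, 1))) := fun x t w =>
    k13_alg (hUu _) (hGu _) (E.idem _) (E.idem _) (hEU t x w) (hGe x w) (k13_sq t)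
  refine ⟨e, c, cls_mvn ⟨A', B', hA', hB', ?_, ?_⟩⟩
  · rintro ⟨x, p⟩
    obtain ⟨⟨t, w⟩, rfl⟩ := pol_surjective p
    rw [hA, hB]
    exact (halg x t w).1
  · rintro ⟨x, p⟩
    obtain ⟨⟨t, w⟩, rfl⟩ := pol_surjective p
    rw [hA, hB]
    exact (halg x t w).2.trans (c.mat_pol x t w).symm

end Pool.Agent.Helper1.Stab.KT
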