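import Pool.Agent.Helper1.Stab.K.ToR
import Pool.Agent.Helper1.Stab.RetractSHC

/-! Every element of `π_4(BSU)` has the Hurewicz class of a multiple of a Bott product. -/

open CategoryTheory Topology Filter Set Matrix Opposite

noncomputable section

namespace Pool.Agent.Helper1.Stab.KT

/-- (E1) the diagonal of `ℂ²` is null-homotopic.
Proof. The homotopy `(t, v) ↦ (v, v + (t / (1 - t)) (1, 0))` for `t < 1`, `∞` for `t = 1`; the
preimage of a compact set `‖ ‖ ≤ r` is contained in `‖v‖ ≤ r`, `t / (1 - t) ≤ 2 r`, so the map is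
proper on `[0, 1) × ℂ²` and extends continuously by `∞`. -/
theorem diag_null : PMap.Homotopic (graph (X := LC.C.prod LC.C) (L := LC.C.prod LC.C)
    (fun v => v) continuous_id) (PMap.zero _ _) := by
  classical
  let X2 : LC := LC.C.prod LC.C
  let vv : X2 → ℂ × ℂ := fun v => v
  have hvv : Continuous vv := continuous_id
  let O : Set (LC.I.prod X2) := {x | (x.1 : ℝ) < 1}
  have hO : IsOpen O := isOpen_lt (continuous_subtype_val.comp continuous_fst) continuous_const
  let s : unitInterval → ℝ := fun t => (t : ℝ) / (1 - (t : ℝ))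
  let g : O → X2.prod X2 := fun x =>
    (x.1.2, (((vv x.1.2).1 + ((s x.1.1 : ℝ) : ℂ), (vv x.1.2).2) : ℂ × ℂ))
  have hg : Continuous g := by
    have hc2 : Continuous fun x : O => vv x.1.2 :=
      hvv.comp ((continuous_snd (X := unitInterval) (Y := X2)).comp continuous_subtype_val)
    have hct : Continuous fun x : O => ((x.1.1 : unitInterval) : ℝ) := continuous_subtype_val.comp
        ((continuous_fst (X := unitInterval) (Y := X2)).comp continuous_subtype_val)
    have hc1 : Continuous fun x : O => s x.1.1 := by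
      refine Continuous.div hct (continuous_const.sub hct) ?_
      intro x
      have h1 : (x.1.1 : ℝ) < 1 := x.2
      linarith
    exact hc2.prodMk (((continuous_fst.comp hc2).add (Complex.continuous_ofReal.comp hc1)).prodMk
      (continuous_snd.comp hc2))
  let f : LC.I.prod X2 → OnePoint (X2.prod X2) := fun x =>
    if h : x ∈ O then (g ⟨x, h⟩ : OnePoint (X2.prod X2)) else OnePoint.infty
  have hf : ∀ x : O, f x = (g x : OnePoint (X2.prod X2)) := fun x => dif_pos x.2
  have hf' : ∀ x, x ∉ O → f x = OnePoint.infty := fun x hx => dif_neg hx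
  have hP := MV.partial_open (X := LC.I.prod X2) (L := X2.prod X2) O hO g hg f hf hf' (by
    intro D hD
    obtain ⟨M0, hM0⟩ := (IsCompact.isBounded (α := (ℂ × ℂ) × (ℂ × ℂ)) (s := D) hD).exists_norm_le
    set M := max M0 1 with hM
    have hMM : ∀ b ∈ D, ‖(b : (ℂ × ℂ) × (ℂ × ℂ))‖ ≤ M := fun b hb => (hM0 _ hb).trans (le_max_left _ _)
    have hM1 : 1 ≤ M := le_max_right _ _
    have hMp : 0 < 2 * M + 1 := by linarith
    have hcb : IsCompact {b : X2 | ‖vv b‖ ≤ M} := by
      have h1 := isCompact_closedBall (0 : ℂ × ℂ) M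
      have h2 : {b : X2 | ‖vv b‖ ≤ M} = (Metric.closedBall (0 : ℂ × ℂ) M) := by
        ext b
        exact (mem_closedBall_zero_iff (a := vv b) (r := M)).symm
      rw [h2]
      exact h1
    refine ⟨(univ ×ˢ {b : X2 | ‖vv b‖ ≤ M}) ∩ {x | (2 * M + 1)⁻¹ ≤ 1 - (x.1 : ℝ)}, ?_, ?_, ?_⟩
    · exact (isCompact_univ.prod hcb).inter_right (isClosed_le continuous_const
        (continuous_const.sub (continuous_subtype_val.comp continuous_fst)))
    · rintro x ⟨-, hx⟩
      have h1 : (2 * M + 1)⁻¹ ≤ 1 - (x.1 : ℝ) := hx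
      have h2 : 0 < (2 * M + 1)⁻¹ := inv_pos.2 hMp
      change (x.1 : ℝ) < 1
      linarith
    · intro x hx
      have h1 : (x.1.1 : ℝ) < 1 := x.2
      have h0 : 0 ≤ (x.1.1 : ℝ) := x.1.1.2.1
      have h2 : ‖((vv x.1.2, ((vv x.1.2).1 + ((s x.1.1 : ℝ) : ℂ), (vv x.1.2).2)) :
        (ℂ × ℂ) × (ℂ × ℂ))‖ ≤ M := hMM _ hx
      have h3 : ‖vv x.1.2‖ ≤ M := (norm_fst_le _).trans h2
      have h4 : ‖(vv x.1.2).1 + ((s x.1.1 : ℝ) : ℂ)‖ ≤ M :=
        (norm_fst_le _).trans ((norm_snd_le _).trans h2)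
      have h5 : ‖(vv x.1.2).1‖ ≤ M := (norm_fst_le _).trans h3
      have h6 : ‖((s x.1.1 : ℝ) : ℂ)‖ ≤ 2 * M := by
        have h7 : ((s x.1.1 : ℝ) : ℂ) = ((vv x.1.2).1 + ((s x.1.1 : ℝ) : ℂ)) - (vv x.1.2).1 := by ring
        rw [h7]
        exact (norm_sub_le _ _).trans (by linarith)
      have h8 : s x.1.1 ≤ 2 * M := by
        rw [Complex.norm_real, Real.norm_eq_abs] at h6
        exact (le_abs_self _).trans h6
      refine ⟨⟨trivial, h3⟩, ?_⟩
      change (2 * M + 1)⁻¹ ≤ 1 - (x.1.1 : ℝ)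
      have h9 : (x.1.1 : ℝ) ≤ 2 * M * (1 - (x.1.1 : ℝ)) := by
        have h10 : (x.1.1 : ℝ) / (1 - (x.1.1 : ℝ)) ≤ 2 * M := h8
        rwa [div_le_iff₀ (by linarith)] at h10
      rw [inv_le_iff_one_le_mul₀ hMp]
      linarith)
  refine ⟨⟨f, hP.1, hP.2⟩, fun k => ?_, fun k => ?_⟩
  · have h0 : ((0 : LC.I), k) ∈ O := show ((0 : unitInterval) : ℝ) < 1 by norm_num
    change f ((0 : LC.I), k) = (((k, k) : X2.prod X2) : OnePoint (X2.prod X2))
    rw [hf ⟨_, h0⟩]
    congr 1
    refine Prod.ext rfl ?_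
    change (((vv k).1 + ((s 0 : ℝ) : ℂ), (vv k).2) : ℂ × ℂ) = vv k
    have hs : s 0 = 0 := by simp [s]
    rw [hs]
    simp
  · refine hf' _ ?_
    intro h
    have h1 : ((1 : unitInterval) : ℝ) < 1 := h
    simp at h1

/-- the product of two classes supported on `ℂ²` is zero -/
theorem mulB_zero_of (R : Biv) (z z' : R.Hom (LC.C.prod LC.C) LC.point) :
    Helper37.Stab.mulB R z z' = 0 := by
  have h : R.J (graph (X := LC.C.prod LC.C) (L := LC.C.prod LC.C) (fun v => v) continuous_id) =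
      0 := by
    rw [R.J_homotopic diag_null, R.J_zero]
  change R.comp (R.J (graph (X := LC.C.prod LC.C) (L := LC.C.prod LC.C) (fun v => v)
    continuous_id)) _ = 0
  rw [h]
  exact Helper9.Stab.z_comp R _

/-- `ℂP¹ × ℂP¹` -/
abbrev QQ : LC := (LC.Pr Bool 1).prod (LC.Pr Bool 1)

instance : CompactSpace QQ := inferInstanceAs (CompactSpace (Pr Bool 1 × Pr Bool 1))

/-- products of classes that come from the collapse vanish -/
theorem mul_coll (R : GBiv) (z z' : R.Hom (LC.C.prod LC.C) LC.point) :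
    R.mul (K := QQ) (R.comp (R.J (collP1.box collP1)) z) (R.comp (R.J (collP1.box collP1)) z') =
      0 := by
  refine (Helper37.Stab.mulB_pre R.toBiv (K := QQ) (collP1.box collP1) z z').symm.trans ?_
  rw [mulB_zero_of]
  exact Helper9.Stab.c_zero R.toBiv _

/-- the Hurewicz class of the family of a loop -/
theorem hur_fam (R : GBiv) {κ : Type} [Fintype κ] (f : GenLoop (Fin (2 * 2)) (GK κ) (GK.base κ))
    (x : R.Hom (LC.cpow (Fin 2)) LC.point) (hx : IsHur R (e := 2) f x)
    (u : C(QQ, GK κ)) (hu : ∀ P : QQ, u P = loopBar (e := 2) f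
      ((PMap.ofHomeo twoC).plus ((collP1.box collP1) P))) :
    R.comp (R.J (collP1.box collP1)) (R.comp (R.J (PMap.ofHomeo twoC)) x) =
      R.bun (K := QQ) (S := κ × Bool) (n := Fintype.card κ)
        (u : C(QQ, Pr (κ × Bool) (Fintype.card κ))) - R.one QQ := by
  let c : C(QQ, OnePoint (Fin 2 → ℂ)) :=
    ⟨fun P => (PMap.ofHomeo twoC).plus ((collP1.box collP1) P),
      (PMap.ofHomeo twoC).continuous_plus.comp (collP1.box collP1).cont⟩
  have h0 : StablyHomotopic u u := ⟨0, 0, Equiv.refl _, ContinuousMap.Homotopic.refl _⟩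
  have h1 := Helper75.Stab.hur_aux R (K := QQ) (L := LC.C.prod LC.C) (e := 2)
    f twoC (collP1.box collP1) c (fun _ => rfl) u hu u h0 x hx
  rw [h1, R.bun_GK (K := QQ) u]
  rfl

theorem e2_box_eq (R : Biv) {K L Z W : LC} (f : PMap K L.plus) (g : PMap Z W.plus) :
    R.J (f.box g) = R.comp (R.ltens K (R.J g)) (R.tens (R.J f) W) := by
  rw [R.tens_J, Pool.Agent.Helper9.Stab.ltens_J, ← R.J_comp]
  have h := PMap.box_comp f (PMap.id K) (PMap.id W) g
  rw [PMap.comp_id, PMap.id_comp] at h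
  exact congrArg R.J h

/-- (E2) the collapse is a split monomorphism.
Proof. `J (c × c) = ltens (J c) ≫ tens (J c)` (`OrX.box_eq`), and `collP1_split` gives a section `r`,
`r ≫ J c = id`; so `(ltens r or tens r)` of it is a left inverse of precomposition with
`J (collP1.box collP1)`. -/
theorem collQ_injective (R : Biv) {x y : R.Hom (LC.C.prod LC.C) LC.point}
    (h : R.comp (R.J (collP1.box collP1)) x = R.comp (R.J (collP1.box collP1)) y) : x = y := by
  obtain ⟨r, hr, -⟩ := collP1_split R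
  have key : R.comp (R.comp (R.tens r LC.C) (R.ltens (LC.Pr Bool 1) r))
      (R.J (collP1.box collP1)) = R.J (PMap.id _) := by
    rw [e2_box_eq, R.assoc, ← R.assoc (R.ltens _ r), ← Pool.Agent.Helper9.Stab.ltens_comp, hr,
      Pool.Agent.Helper9.Stab.ltens_id, R.id_comp, ← R.tens_comp, hr,
      Pool.Agent.Helper63.Stab.tens_id]
  have h2 := congrArg (R.comp (R.comp (R.tens r LC.C) (R.ltens (LC.Pr Bool 1) r))) h
  rw [← R.assoc, ← R.assoc, key, R.id_comp, R.id_comp] at h2
  exact h2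

/-- powers of a unit `1 + ε`, `ε² = 0` -/
theorem unit_zpow {A : Type} [CommRing A] (Θ : Aˣ) (ε : A) (h : (Θ : A) = 1 + ε) (h2 : ε * ε = 0)
    (d : ℤ) : ((Θ ^ d : Aˣ) : A) = 1 + d • ε := by
  have hn : ∀ n : ℕ, ((Θ ^ n : Aˣ) : A) = 1 + n • ε := by
    intro n
    induction n with
    | zero => simp
    | succ n ih =>
      rw [pow_succ, Units.val_mul, ih, h]
      have : n • ε * ε = 0 := by rw [smul_mul_assoc, h2, smul_zero]
      rw [mul_add, mul_one, add_mul, one_mul, this, add_zero, add_smul, one_smul]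
      ring
  have hi : ((Θ⁻¹ : Aˣ) : A) = 1 - ε := by
    have h3 : (Θ : A) * (1 - ε) = 1 := by
      rw [h]
      ring_nf
      rw [show ε ^ 2 = ε * ε by ring, h2, sub_zero]
    exact Units.inv_eq_of_mul_eq_one_right h3
  have hin : ∀ n : ℕ, (((Θ⁻¹) ^ n : Aˣ) : A) = 1 - n • ε := by
    intro n
    induction n with
    | zero => simp
    | succ n ih =>
      rw [pow_succ, Units.val_mul, ih, hi]
      have : n • ε * ε = 0 := by rw [smul_mul_assoc, h2, smul_zero]
      rw [mul_sub, mul_one, sub_mul, one_mul, this, sub_zero, add_smul, one_smul]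
      ring
  obtain ⟨n, rfl | rfl⟩ := d.eq_nat_or_neg
  · rw [_root_.zpow_natCast, hn, natCast_zsmul]
  · rw [_root_.zpow_neg, _root_.zpow_natCast, ← inv_pow, hin, neg_smul, natCast_zsmul, sub_eq_add_neg]

/-! ## The classes on `ℂP¹ × ℂP¹` -/

/-- the projective line as a locally compact space -/
abbrev Q1 : LC := LC.Pr Bool 1

/-- the tautological line bundle -/
def tautL : Fam Q1 := Fam.taut

/-- the external product of the two tautological line bundles -/
def tauL : Fam QQ := Fam.taut.tau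

def f1 : C(QQ, Q1) := ⟨Prod.fst, continuous_fst⟩
def f2 : C(QQ, Q1) := ⟨Prod.snd, continuous_snd⟩

/-- the base point -/
def pt1 : Q1 := (Pr.line true : Pr Bool 1)

def i1 : C(Q1, QQ) := ⟨fun p => (p, pt1), continuous_id.prodMk continuous_const⟩
def i2 : C(Q1, QQ) := ⟨fun p => (pt1, p), continuous_const.prodMk continuous_id⟩

theorem K0_QQ (z : K0 QQ) : ∃ a b c d : ℤ, z = a • cls (Fam.one QQ) +
    b • K0.map f1 (cls tautL) + c • K0.map f2 (cls tautL) + d • cls tauL := by
  obtain ⟨a, b, c, d, h⟩ := K0_P1P1 z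
  refine ⟨a, b, c, d, ?_⟩
  rw [K0.map_cls, K0.map_cls]
  exact h

section
variable (R : GBiv)

/-- an element of the ring -/
def rg {K : LC} (x : R.Hom K LC.point) : Rg R K := x

/-- the unit of a class of `K⁰` -/
def un {K : LC} [CompactSpace K] (z : K0 K) : (Rg R K)ˣ := (toR R z).toMul

variable {K L M : LC} [CompactSpace K] [CompactSpace L] [CompactSpace M]

theorem un_add (z z' : K0 K) : un R (z + z') = un R z * un R z' := by
  unfold un
  rw [map_add, toMul_add]

theorem un_zsmul (n : ℤ) (z : K0 K) : un R (n • z) = un R z ^ n := by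
  unfold un
  rw [map_zsmul, toMul_zsmul]

theorem un_cls (E : Fam K) : ((un R (cls E) : (Rg R K)ˣ) : Rg R K) = rg R (fbun R E) :=
  toR_cls R E

/-- restriction of units -/
def pu (f : C(K, L)) : (Rg R L)ˣ →* (Rg R K)ˣ := Units.map (pull R f).toMonoidHom

theorem pu_val (f : C(K, L)) (z : (Rg R L)ˣ) : ((pu R f z : (Rg R K)ˣ) : Rg R K) = pull R f z :=
  rfl

theorem pull_bun (f : C(K, L)) {S : Type} [Fintype S] {n : ℕ} (E : C(L, Pr S n)) :
    pull R f (rg R (R.bun E)) = rg R (R.bun (E.comp f)) := R.bun_comp f E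

theorem un_map (f : C(K, L)) (z : K0 L) : un R (K0.map f z) = pu R f (un R z) := by
  unfold un
  rw [toR_map]
  rfl

theorem un_one : un R (cls (Fam.one K)) = 1 := by
  apply Units.ext
  rw [un_cls]
  let P : Pr Unit 1 := ⟨1, conjTranspose_one, Matrix.one_mul 1, by simp⟩
  refine Eq.trans ?_ (R.bun_const (K := K) P)
  refine congrArg (fun u : C(K, Pr Unit 1) => R.bun u) ?_
  ext1 x
  exact (Fam.one K).proj_eq P (Matrix.one_mul _) (Matrix.one_mul _)

/-- restriction of units along a composite -/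
theorem pu_comp (f : C(K, L)) (g : C(L, M)) (z : (Rg R M)ˣ) :
    pu R f (pu R g z) = pu R (g.comp f) z := by
  apply Units.ext
  change R.comp (R.J (PMap.ofCont (K := K) (L := L) f f.continuous))
    (R.comp (R.J (PMap.ofCont (K := L) (L := M) g g.continuous)) (z : Rg R M)) =
    R.comp (R.J (PMap.ofCont (K := K) (L := M) (g.comp f) (g.comp f).continuous)) (z : Rg R M)
  rw [← R.assoc, ← R.J_comp]
  rfl

/-- the restriction of the class of a bundle along a constant map is trivial -/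
theorem pu_const (l : L) (E : Fam L) : pu R (ContinuousMap.const K l) (un R (cls E)) = 1 := by
  apply Units.ext
  rw [pu_val, un_cls]
  refine (R.bun_comp (ContinuousMap.const K l) E.proj).trans ?_
  exact R.bun_const (K := K) (E.proj l)

theorem pu_id (z : (Rg R K)ˣ) : pu R (ContinuousMap.id K) z = z := by
  apply Units.ext
  exact R.id_comp _

/-- the tautological unit on the projective line -/
def tt : (Rg R Q1)ˣ := un R (cls tautL)

theorem tt_val : ((tt R : (Rg R Q1)ˣ) : Rg R Q1) = rg R (R.taut Bool) := by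
  refine (un_cls R tautL).trans ?_
  exact fbun_ofPr R (K := Q1) (S := Bool) (n := 1) (ContinuousMap.id _)

/-- the tensor product of the two line bundles -/
def tens2 : C(QQ, Pr (Bool × Bool) 1) := ⟨Pr.tensor, Pr.continuous_tensor⟩

theorem tauL_val : ((un R (cls tauL) : (Rg R QQ)ˣ) : Rg R QQ) = rg R (R.bun tens2) := by
  refine (un_cls R tauL).trans ?_
  refine congrArg (fun u : C(QQ, Pr (Bool × Bool) 1) => rg R (R.bun u)) ?_
  ext1 x
  exact tauL.proj_eq (Pr.tensor x : Pr (Bool × Bool) 1) (tauL.idem x) (tauL.idem x)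

theorem theta_eq : rg R (R.theta Bool Bool) =
    rg R (R.bun tens2) * pull R f1 (rg R (R.cotaut Bool)) * pull R f2 (rg R (R.cotaut Bool)) := rfl

theorem taut_cotaut : rg R (R.taut Bool) * rg R (R.cotaut Bool) = 1 := by
  have h11 : 1 ≤ Fintype.card Bool := by decide
  have h := R.bun_perp (K := Q1) (S := Bool) (n := 1) (m := Fintype.card Bool - 1)
    (by omega) (ContinuousMap.id _)
  have h2 : R.cotaut Bool = R.bun (K := Q1) (S := Bool) (n := Fintype.card Bool - 1)
      ⟨Pr.perp (by omega), Pr.continuous_perp (by omega)⟩ := dif_pos h11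
  rw [h2]
  exact h

theorem cotaut_eq : rg R (R.cotaut Bool) = (((tt R)⁻¹ : (Rg R Q1)ˣ) : Rg R Q1) := by
  refine (Units.inv_eq_of_mul_eq_one_right ?_).symm
  rw [tt_val]
  exact taut_cotaut R

/-- the unit `θ` -/
theorem theta_unit : ((un R (cls tauL) * (pu R f1 (tt R))⁻¹ * (pu R f2 (tt R))⁻¹ : (Rg R QQ)ˣ) :
    Rg R QQ) = rg R (R.theta Bool Bool) := by
  rw [theta_eq, cotaut_eq, Units.val_mul, Units.val_mul, tauL_val, ← map_inv, ← map_inv]
  rfl

/-- the restrictions of the class of the tensor product to the axes -/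
theorem pu_tauL_i1 : pu R i1 (un R (cls tauL)) = tt R := by
  apply Units.ext
  rw [tt_val, pu_val, tauL_val, pull_bun]
  refine (R.bun_congr (K := Q1) (ContinuousMap.id _) _ ?_).symm
  have h := UEq.ext (OrX.embL Bool true) (X := Pr Bool 1) (continuous_id (X := Pr Bool 1))
  have e : (fun x => Pr.ext (OrX.embL Bool true) (id x) : Pr Bool 1 → Pr (Bool × Bool) 1) =
      fun x => tens2 (i1 x) := by
    funext x
    exact (OrX.tensor_line x true).symm
  rw [e] at h
  exact h

theorem pu_tauL_i2 : pu R i2 (un R (cls tauL)) = tt R := by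
  apply Units.ext
  rw [tt_val, pu_val, tauL_val, pull_bun]
  refine (R.bun_congr (K := Q1) (ContinuousMap.id _) _ ?_).symm
  have h := UEq.ext (OrX.embR Bool true) (X := Pr Bool 1) (continuous_id (X := Pr Bool 1))
  have e : (fun x => Pr.ext (OrX.embR Bool true) (id x) : Pr Bool 1 → Pr (Bool × Bool) 1) =
      fun x => tens2 (i2 x) := by
    funext x
    exact (OrX.line_tensor true x).symm
  rw [e] at h
  exact h

end

/-- (EX) A family of projections on `ℂP¹ × ℂP¹` that is constant on the axes has the class of a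
multiple of `θ - 1`, with a multiplicity that does not depend on the theory. -/
theorem exists_expo {S : Type} [Fintype S] {n : ℕ} (u : C(QQ, Pr S n)) (P₀ : Pr S n)
    (h1 : ∀ p : Q1, u (i1 p) = P₀) (h2 : ∀ p : Q1, u (i2 p) = P₀) :
    ∃ d : ℤ, ∀ R : GBiv, R.bun u = R.one QQ + d • (R.theta Bool Bool - R.one QQ) := by
  classical
  obtain ⟨a, b, c, d, h⟩ := K0_QQ (cls (Fam.ofPr u))
  refine ⟨d, fun R => ?_⟩
  -- the class of `u`
  obtain ⟨T, hT⟩ : ∃ T, T = un R (cls tauL) := ⟨_, rfl⟩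
  obtain ⟨t1, ht1⟩ : ∃ t, t = pu R f1 (tt R) := ⟨_, rfl⟩
  obtain ⟨t2, ht2⟩ : ∃ t, t = pu R f2 (tt R) := ⟨_, rfl⟩
  have e1 : un R (cls (Fam.ofPr u)) = t1 ^ b * t2 ^ c * T ^ d := by
    rw [h, un_add, un_add, un_add, un_zsmul, un_zsmul, un_zsmul, un_zsmul, un_one, un_map, un_map,
      _root_.one_zpow, one_mul, ht1, ht2, hT]
    rfl
  -- the restrictions to the axes
  have g : ∀ (i : C(Q1, QQ)), (∀ p, u (i p) = P₀) → pu R i (un R (cls (Fam.ofPr u))) = 1 := by
    intro i hi
    apply Units.ext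
    rw [pu_val, un_cls, fbun_ofPr, pull_bun]
    refine Eq.trans ?_ (R.bun_const (K := Q1) P₀)
    refine congrArg (fun u : C(Q1, Pr S n) => R.bun u) ?_
    ext1 x
    exact hi x
  have g1 : pu R i1 t1 = tt R := by
    rw [ht1, pu_comp]
    exact pu_id R (tt R)
  have g2 : pu R i1 t2 = 1 := by
    rw [ht2, pu_comp]
    exact pu_const R pt1 tautL
  have g3 : pu R i2 t1 = 1 := by
    rw [ht1, pu_comp]
    exact pu_const R pt1 tautL
  have g4 : pu R i2 t2 = tt R := by
    rw [ht2, pu_comp]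
    exact pu_id R (tt R)
  have r1 : (tt R) ^ b * (tt R) ^ d = 1 := by
    have h3 := g i1 h1
    rw [e1, map_mul, map_mul, map_zpow, map_zpow, map_zpow, g1, g2, hT, pu_tauL_i1,
      _root_.one_zpow, mul_one] at h3
    exact h3
  have r2 : (tt R) ^ c * (tt R) ^ d = 1 := by
    have h3 := g i2 h2
    rw [e1, map_mul, map_mul, map_zpow, map_zpow, map_zpow, g3, g4, hT, pu_tauL_i2,
      _root_.one_zpow, one_mul] at h3
    exact h3
  have s1 : t1 ^ b * t1 ^ d = 1 := by
    have h3 := congrArg (pu R f1) r1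
    rwa [map_mul, map_zpow, map_zpow, map_one, ← ht1] at h3
  have s2 : t2 ^ c * t2 ^ d = 1 := by
    have h3 := congrArg (pu R f2) r2
    rwa [map_mul, map_zpow, map_zpow, map_one, ← ht2] at h3
  have e2 : un R (cls (Fam.ofPr u)) = (T * t1⁻¹ * t2⁻¹) ^ d := by
    rw [e1, _root_.mul_zpow, _root_.mul_zpow, _root_.inv_zpow, _root_.inv_zpow, eq_inv_of_mul_eq_one_left s1,
      eq_inv_of_mul_eq_one_left s2]
    rw [mul_comm _ (T ^ d), mul_assoc]
  -- `θ - 1` has square zero
  obtain ⟨k', γ, hγ⟩ := exists_bottProduct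
  obtain ⟨y, hy⟩ := exists_hur R (e := 2) two_pos (loopGK (loopToU γ))
  have h4 := hur_bottProduct R _ hγ y hy
  have h5 : (rg R (R.theta Bool Bool - R.one QQ)) * (rg R (R.theta Bool Bool - R.one QQ)) = 0 := by
    have h6 := mul_coll R (R.comp (R.J (PMap.ofHomeo twoC)) y) (R.comp (R.J (PMap.ofHomeo twoC)) y)
    rw [h4] at h6
    exact h6
  have h7 := unit_zpow (T * t1⁻¹ * t2⁻¹) (rg R (R.theta Bool Bool - R.one QQ)) (by
    rw [hT, ht1, ht2]
    refine (theta_unit R).trans ?_
    exact (add_sub_cancel (rg R (R.one QQ)) (rg R (R.theta Bool Bool))).symm) h5 d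
  rw [← e2, un_cls, fbun_ofPr] at h7
  exact h7

end Pool.Agent.Helper1.Stab.KT
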