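import Mathlib

/-! Topological K-theory of a space by families of idempotent matrices: definitions. -/

open Matrix

noncomputable section

namespace Pool.Agent.Helper1.Stab.KT

/-- A continuous family of idempotent matrices of rank `n`. -/
structure Fam (X : Type) [TopologicalSpace X] where
  S : Type
  [fin : Fintype S]
  [dec : DecidableEq S]
  n : ℕ
  Q : X → Matrix S S ℂ
  cont : Continuous Q
  idem : ∀ x, Q x * Q x = Q x
  tr : ∀ x, (Q x).trace = n

attribute [instance] Fam.fin Fam.dec

variable {X Y Z : Type} [TopologicalSpace X] [TopologicalSpace Y] [TopologicalSpace Z]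

namespace Fam

/-- pull-back -/
def map (f : C(X, Y)) (E : Fam Y) : Fam X where
  S := E.S
  n := E.n
  Q x := E.Q (f x)
  cont := E.cont.comp f.continuous
  idem x := E.idem (f x)
  tr x := E.tr (f x)

/-- direct sum -/
def sum (E F : Fam X) : Fam X where
  S := E.S ⊕ F.S
  n := E.n + F.n
  Q x := fromBlocks (E.Q x) 0 0 (F.Q x)
  cont := Continuous.matrix_fromBlocks E.cont continuous_const continuous_const F.cont
  idem x := by
    rw [fromBlocks_multiply, E.idem, F.idem]
    simp
  tr x := by
    have h : (fromBlocks (E.Q x) 0 0 (F.Q x)).trace = (E.Q x).trace + (F.Q x).trace := by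
      simp only [Matrix.trace, Matrix.diag, Fintype.sum_sum_type, fromBlocks_apply₁₁,
        fromBlocks_apply₂₂]
    rw [h, E.tr, F.tr]
    push_cast
    rfl

/-- the trivial line bundle -/
def one (X : Type) [TopologicalSpace X] : Fam X where
  S := Unit
  n := 1
  Q _ := 1
  cont := continuous_const
  idem _ := by rw [Matrix.one_mul]
  tr _ := by simp

end Fam

/-- isomorphic families -/
def MvN (E F : Fam X) : Prop :=
  ∃ (A : X → Matrix F.S E.S ℂ) (B : X → Matrix E.S F.S ℂ), Continuous A ∧ Continuous B ∧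
    (∀ x, B x * A x = E.Q x) ∧ ∀ x, A x * B x = F.Q x

/-- the ends of the interval -/
def in0 (X : Type) [TopologicalSpace X] : C(X, unitInterval × X) :=
  ⟨fun x => (0, x), by fun_prop⟩

def in1 (X : Type) [TopologicalSpace X] : C(X, unitInterval × X) :=
  ⟨fun x => (1, x), by fun_prop⟩

/-- the relations of K-theory -/
inductive Rel (X : Type) [TopologicalSpace X] : FreeAbelianGroup (Fam X) → Prop
  | mvn (E F : Fam X) (h : MvN E F) : Rel X (FreeAbelianGroup.of E - FreeAbelianGroup.of F)
  | hmt (H : Fam (unitInterval × X)) :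
      Rel X (FreeAbelianGroup.of (H.map (in0 X)) - FreeAbelianGroup.of (H.map (in1 X)))
  | sum (E F : Fam X) :
      Rel X (FreeAbelianGroup.of (E.sum F) - (FreeAbelianGroup.of E + FreeAbelianGroup.of F))

/-- the subgroup of relations -/
def relGrp (X : Type) [TopologicalSpace X] : AddSubgroup (FreeAbelianGroup (Fam X)) :=
  AddSubgroup.closure {z | Rel X z}

/-- The group `K⁰(X)`. -/
def K0 (X : Type) [TopologicalSpace X] : Type 1 := FreeAbelianGroup (Fam X) ⧸ relGrp X

instance (X : Type) [TopologicalSpace X] : AddCommGroup (K0 X) :=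
  inferInstanceAs (AddCommGroup (FreeAbelianGroup (Fam X) ⧸ relGrp X))

/-- the class of a family -/
def cls (E : Fam X) : K0 X := QuotientAddGroup.mk (FreeAbelianGroup.of E)

theorem cls_eq_of_rel {E F : Fam X} (h : Rel X (FreeAbelianGroup.of E - FreeAbelianGroup.of F)) :
    cls E = cls F := by
  have h1 : FreeAbelianGroup.of E - FreeAbelianGroup.of F ∈ relGrp X :=
    AddSubgroup.subset_closure h
  have h2 := (QuotientAddGroup.eq (s := relGrp X) (a := FreeAbelianGroup.of F)
    (b := FreeAbelianGroup.of E)).2 (by rwa [neg_add_eq_sub])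
  exact h2.symm

theorem cls_mvn {E F : Fam X} (h : MvN E F) : cls E = cls F := cls_eq_of_rel (Rel.mvn E F h)

theorem cls_hmt (H : Fam (unitInterval × X)) : cls (H.map (in0 X)) = cls (H.map (in1 X)) :=
  cls_eq_of_rel (Rel.hmt H)

theorem cls_sum (E F : Fam X) : cls (E.sum F) = cls E + cls F := by
  have h1 : FreeAbelianGroup.of (E.sum F) - (FreeAbelianGroup.of E + FreeAbelianGroup.of F) ∈
      relGrp X := AddSubgroup.subset_closure (Rel.sum E F)
  have h2 := (QuotientAddGroup.eq (s := relGrp X)
    (a := FreeAbelianGroup.of E + FreeAbelianGroup.of F)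
    (b := FreeAbelianGroup.of (E.sum F))).2 (by rwa [neg_add_eq_sub])
  exact h2.symm

/-- homomorphisms out of `K⁰(X)` -/
def K0.lift {A : Type*} [AddCommGroup A] (φ : Fam X → A) (h1 : ∀ E F, MvN E F → φ E = φ F)
    (h2 : ∀ H : Fam (unitInterval × X), φ (H.map (in0 X)) = φ (H.map (in1 X)))
    (h3 : ∀ E F : Fam X, φ (E.sum F) = φ E + φ F) : K0 X →+ A :=
  QuotientAddGroup.lift (relGrp X) (FreeAbelianGroup.lift φ) (by
    intro z hz
    rw [AddMonoidHom.mem_ker]
    induction hz using AddSubgroup.closure_induction with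
    | mem z hz =>
      rcases hz with ⟨E, F, h⟩ | ⟨H⟩ | ⟨E, F⟩
      · rw [map_sub, FreeAbelianGroup.lift_apply_of, FreeAbelianGroup.lift_apply_of, h1 E F h, sub_self]
      · rw [map_sub, FreeAbelianGroup.lift_apply_of, FreeAbelianGroup.lift_apply_of, h2 H, sub_self]
      · rw [map_sub, map_add, FreeAbelianGroup.lift_apply_of, FreeAbelianGroup.lift_apply_of,
          FreeAbelianGroup.lift_apply_of, h3 E F, sub_self]
    | zero => exact map_zero _
    | add a b _ _ ha hb => rw [map_add, ha, hb, add_zero]
    | neg a _ ha => rw [map_neg, ha, neg_zero])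

theorem K0.lift_cls {A : Type*} [AddCommGroup A] (φ : Fam X → A)
    (h1 : ∀ E F, MvN E F → φ E = φ F)
    (h2 : ∀ H : Fam (unitInterval × X), φ (H.map (in0 X)) = φ (H.map (in1 X)))
    (h3 : ∀ E F : Fam X, φ (E.sum F) = φ E + φ F) (E : Fam X) :
    K0.lift φ h1 h2 h3 (cls E) = φ E := FreeAbelianGroup.lift_apply_of _ _

theorem K0.induction {P : K0 X → Prop} (h1 : ∀ E, P (cls E)) (h2 : ∀ x y, P x → P y → P (x + y))
    (h3 : ∀ x, P x → P (-x)) (h0 : P 0) (x : K0 X) : P x := by
  obtain ⟨z, rfl⟩ := QuotientAddGroup.mk_surjective (s := relGrp X) x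
  induction z using FreeAbelianGroup.induction_on with
  | zero => exact h0
  | of E => exact h1 E
  | neg E h => exact h3 _ h
  | add a b ha hb => exact h2 _ _ ha hb

/-- pull-back -/
def K0.map (f : C(X, Y)) : K0 Y →+ K0 X :=
  K0.lift (fun E => cls (E.map f))
    (fun E F ⟨A, B, hA, hB, h1, h2⟩ => cls_mvn ⟨fun x => A (f x), fun x => B (f x),
      hA.comp f.continuous, hB.comp f.continuous, fun x => h1 (f x), fun x => h2 (f x)⟩)
    (fun H => cls_hmt (H.map ⟨fun z : unitInterval × X => (z.1, f z.2), by fun_prop⟩))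
    (fun E F => cls_sum (E.map f) (F.map f))

theorem K0.map_cls (f : C(X, Y)) (E : Fam Y) : K0.map f (cls E) = cls (E.map f) :=
  K0.lift_cls _ _ _ _ _

theorem K0.map_map (f : C(X, Y)) (g : C(Y, Z)) (z : K0 Z) :
    K0.map f (K0.map g z) = K0.map (g.comp f) z := by
  refine K0.induction (P := fun z => K0.map f (K0.map g z) = K0.map (g.comp f) z)
    (fun E => ?_) (fun x y hx hy => ?_) (fun x hx => ?_) ?_ z
  · rw [K0.map_cls, K0.map_cls, K0.map_cls]
    rfl
  · rw [map_add, map_add, map_add, hx, hy]
  · rw [map_neg, map_neg, map_neg, hx]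
  · rw [map_zero, map_zero, map_zero]

/-! ## The projective line -/

/-- the projective line: projections of rank one in `ℂ²` -/
def P1 : Type := {p : Matrix Bool Bool ℂ // pᴴ = p ∧ p * p = p ∧ p.trace = ((1 : ℕ) : ℂ)}

instance : TopologicalSpace P1 := instTopologicalSpaceSubtype

/-- the tautological line bundle -/
def Fam.taut : Fam P1 where
  S := Bool
  n := 1
  Q p := p.1
  cont := continuous_subtype_val
  idem p := p.2.2.1
  tr p := p.2.2.2

/-- the external product with the tautological line bundle -/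
def Fam.tau (E : Fam X) : Fam (X × P1) where
  S := E.S × Bool
  n := E.n
  Q x := kroneckerMap (· * ·) (E.Q x.1) x.2.1
  cont := by
    refine continuous_matrix fun i j => ?_
    have h1 : Continuous fun x : X × P1 => E.Q x.1 i.1 j.1 :=
      (E.cont.comp continuous_fst).matrix_elem _ _
    have h2 : Continuous fun x : X × P1 => x.2.1 i.2 j.2 :=
      (continuous_subtype_val.comp continuous_snd).matrix_elem _ _
    exact h1.mul h2
  idem x := by
    have h := Matrix.mul_kronecker_mul (E.Q x.1) (E.Q x.1) x.2.1 x.2.1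
    rw [E.idem, x.2.2.2.1] at h
    exact h.symm
  tr x := by
    have h := Matrix.trace_kronecker (E.Q x.1) x.2.1
    refine h.trans ?_
    have h2 : x.2.1.trace = ((1 : ℕ) : ℂ) := x.2.2.2.2
    rw [E.tr, h2, Nat.cast_one, mul_one]

theorem k1_tau_cont {S T : Type} {A : X → Matrix S T ℂ} (hA : Continuous A) :
    Continuous fun y : X × P1 => kroneckerMap (· * ·) (A y.1) y.2.1 := by
  refine continuous_matrix fun i j => ?_
  have h1 : Continuous fun x : X × P1 => A x.1 i.1 j.1 :=
    (hA.comp continuous_fst).matrix_elem _ _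
  have h2 : Continuous fun x : X × P1 => x.2.1 i.2 j.2 :=
    (continuous_subtype_val.comp continuous_snd).matrix_elem _ _
  exact h1.mul h2

/-- reindexing does not change the class -/
theorem k1_reindex (E F : Fam X) (f : F.S ≃ E.S) (h : ∀ y, (E.Q y).submatrix f f = F.Q y) :
    cls F = cls E := by
  refine cls_mvn ⟨fun y => (E.Q y).submatrix id f, fun y => (E.Q y).submatrix f id,
    E.cont.matrix_submatrix _ _, E.cont.matrix_submatrix _ _, ?_, ?_⟩
  · intro y
    rw [← h y, ← E.idem y]
    ext i j
    simp only [Matrix.mul_apply, Matrix.submatrix_apply, id]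
  · intro y
    rw [Matrix.submatrix_mul_equiv, E.idem y]
    rfl

/-- (K1) the external product with the tautological bundle on K-theory -/
theorem Fam.tau_aux : (∀ E F : Fam X, MvN E F → cls E.tau = cls F.tau) ∧
    (∀ H : Fam (unitInterval × X), cls (H.map (in0 X)).tau = cls (H.map (in1 X)).tau) ∧
    ∀ E F : Fam X, cls (E.sum F).tau = cls E.tau + cls F.tau := by
  refine ⟨?_, ?_, ?_⟩
  · rintro E F ⟨A, B, hA, hB, h1, h2⟩
    refine cls_mvn ⟨fun y => kroneckerMap (· * ·) (A y.1) y.2.1,
      fun y => kroneckerMap (· * ·) (B y.1) y.2.1, k1_tau_cont hA, k1_tau_cont hB, ?_, ?_⟩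
    · intro y
      have h := Matrix.mul_kronecker_mul (B y.1) (A y.1) y.2.1 y.2.1
      rw [h1, y.2.2.2.1] at h
      exact h.symm
    · intro y
      have h := Matrix.mul_kronecker_mul (A y.1) (B y.1) y.2.1 y.2.1
      rw [h2, y.2.2.2.1] at h
      exact h.symm
  · intro H
    exact cls_hmt (H.tau.map ⟨fun z : unitInterval × (X × P1) => ((z.1, z.2.1), z.2.2),
      by fun_prop⟩)
  · intro E F
    rw [← cls_sum]
    refine k1_reindex (E.tau.sum F.tau) (E.sum F).tau (Equiv.sumProdDistrib E.S F.S Bool) ?_
    intro y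
    ext ⟨i, b⟩ ⟨j, b'⟩
    rcases i with i | i <;> rcases j with j | j
    · rfl
    · exact (zero_mul (y.2.1 b b')).symm
    · exact (zero_mul (y.2.1 b b')).symm
    · rfl

/-- the external product with the tautological bundle -/
def tau : K0 X →+ K0 (X × P1) :=
  K0.lift (fun E => cls E.tau) Fam.tau_aux.1 Fam.tau_aux.2.1 Fam.tau_aux.2.2

theorem tau_cls (E : Fam X) : tau (cls E) = cls E.tau := K0.lift_cls _ _ _ _ _

/-- the pull-back from the base -/
def pib : K0 X →+ K0 (X × P1) := K0.map ⟨Prod.fst, continuous_fst⟩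

/-- the classes that come from the base -/
def MM (X : Type) [TopologicalSpace X] : AddSubgroup (K0 (X × P1)) :=
  (pib (X := X)).range ⊔ (tau (X := X)).range

/-! ## Clutching -/

/-- A clutching function: a family of invertible matrices over `X × S¹` that commute with the
idempotents `e`. -/
structure Clu (e : Fam X) where
  G : X × Circle → Matrix e.S e.S ℂ
  cont : Continuous G
  unit : ∀ y, IsUnit (G y)
  comm : ∀ x w, e.Q x * G (x, w) = G (x, w) * e.Q x

/-- (K2) inverses are continuous -/
theorem continuous_inv_mat {S : Type} [Fintype S] [DecidableEq S] {f : X → Matrix S S ℂ}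
    (hf : Continuous f) (h : ∀ x, IsUnit (f x)) : Continuous fun x => (f x)⁻¹ := by
  have h1 : (fun x => (f x)⁻¹) = fun x => ((f x).det)⁻¹ • (f x).adjugate := by
    funext x
    rw [Matrix.inv_def, Ring.inverse_eq_inv']
  rw [h1]
  refine Continuous.smul (Continuous.inv₀ hf.matrix_det fun x => ?_) hf.matrix_adjugate
  exact ((Matrix.isUnit_iff_isUnit_det _).1 (h x)).ne_zero

/-- the phase of a point of the projective line -/
def phase (p : P1) : Circle :=
  if h : p.1 true false = 0 then 1 else
    ⟨p.1 true false / (‖p.1 true false‖ : ℂ), by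
      have h2 : ‖p.1 true false / (‖p.1 true false‖ : ℂ)‖ = 1 := by
        rw [norm_div, Complex.norm_real, norm_norm]
        exact div_self (norm_ne_zero_iff.2 h)
      exact mem_sphere_zero_iff_norm.2 h2⟩

/-- the matrices of the bundle with clutching function `G` -/
def Clu.mat {e : Fam X} (c : Clu e) (y : X × P1) : Matrix (e.S ⊕ e.S) (e.S ⊕ e.S) ℂ :=
  fromBlocks (y.2.1 false false • e.Q y.1)
    ((‖y.2.1 true false‖ : ℂ) • (e.Q y.1 * (c.G (y.1, phase y.2))⁻¹))
    ((‖y.2.1 true false‖ : ℂ) • (c.G (y.1, phase y.2) * e.Q y.1))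
    (y.2.1 true true • e.Q y.1)

theorem k3_cont_entry (i j : Bool) : Continuous fun p : P1 => p.1 i j :=
  continuous_subtype_val.matrix_elem _ _

theorem k3_phase_cont {p0 : P1} (h : p0.1 true false ≠ 0) : ContinuousAt phase p0 := by
  have hind : Topology.IsInducing (fun w : Circle => (w : ℂ)) := ⟨rfl⟩
  rw [hind.continuousAt_iff]
  have hc : ContinuousAt (fun p : P1 => p.1 true false / (‖p.1 true false‖ : ℂ)) p0 := by
    have h1 := (k3_cont_entry true false).continuousAt (x := p0)
    refine h1.div ?_ ?_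
    · exact (Complex.continuous_ofReal.comp (continuous_norm.comp
        (k3_cont_entry true false))).continuousAt
    · exact_mod_cast norm_ne_zero_iff.2 h
  refine hc.congr ?_
  have hU : IsOpen {p : P1 | p.1 true false ≠ 0} :=
    isOpen_ne_fun (k3_cont_entry true false) continuous_const
  filter_upwards [hU.mem_nhds h] with p hp
  have hp' : ¬ p.1 true false = 0 := hp
  have e := congrArg (fun w : Circle => (w : ℂ)) (dif_neg hp' : phase p = _)
  exact e.symm

theorem k3_phase_mul {m : X × Circle → ℂ} (hm : Continuous m) :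
    Continuous fun y : X × P1 => (‖y.2.1 true false‖ : ℂ) * m (y.1, phase y.2) := by
  rw [continuous_iff_continuousAt]
  rintro ⟨x0, p0⟩
  have hn : Continuous fun y : X × P1 => (‖y.2.1 true false‖ : ℂ) :=
    Complex.continuous_ofReal.comp (continuous_norm.comp
        ((k3_cont_entry true false).comp continuous_snd))
  by_cases h : p0.1 true false = 0
  · let M : C(X, C(Circle, ℂ)) := ContinuousMap.curry ⟨m, hm⟩
    have h0 : ((‖(x0, p0).2.1 true false‖ : ℝ) : ℂ) * m ((x0, p0).1, phase (x0, p0).2) = 0 := by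
      simp only [h, norm_zero, Complex.ofReal_zero, zero_mul]
    rw [ContinuousAt, h0]
    have hg : Continuous fun y : X × P1 => ‖y.2.1 true false‖ * ‖M y.1‖ :=
      (continuous_norm.comp ((k3_cont_entry true false).comp continuous_snd)).mul
        (continuous_norm.comp (M.continuous.comp continuous_fst))
    have hg0 := hg.tendsto (x0, p0)
    simp only [h, norm_zero, zero_mul] at hg0
    refine squeeze_zero_norm (fun y => ?_) hg0
    rw [norm_mul, Complex.norm_real, norm_norm]
    refine mul_le_mul_of_nonneg_left ?_ (norm_nonneg _)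
    exact (M y.1).norm_coe_le_norm (phase y.2)
  · refine hn.continuousAt.mul ?_
    have h1 : ContinuousAt (fun y : X × P1 => (y.1, phase y.2)) (x0, p0) :=
      continuousAt_fst.prodMk (ContinuousAt.comp (f := fun y : X × P1 => y.2)
        (g := phase) (x := (x0, p0)) (k3_phase_cont h) continuousAt_snd)
    exact ContinuousAt.comp (f := fun y : X × P1 => (y.1, phase y.2)) (g := m) hm.continuousAt h1

theorem k3_facts (p : P1) :
    p.1 false false * p.1 false false + (‖p.1 true false‖ : ℂ) * (‖p.1 true false‖ : ℂ) =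
      p.1 false false ∧
    p.1 false false + p.1 true true = 1 ∧
    (‖p.1 true false‖ : ℂ) * (‖p.1 true false‖ : ℂ) + p.1 true true * p.1 true true =
      p.1 true true := by
  obtain ⟨p, h1, h2, h3⟩ := p
  have hs : p false true = star (p true false) := by
    conv_lhs => rw [← h1]
    rfl
  have hb : (‖p true false‖ : ℂ) * (‖p true false‖ : ℂ) = p true false * p false true := by
    rw [hs, ← sq]
    exact (Complex.mul_conj' _).symm
  have e1 := congrFun (congrFun h2 false) false
  have e2 := congrFun (congrFun h2 true) true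
  rw [Matrix.mul_apply, Fintype.sum_bool] at e1 e2
  have e3 : p true true + p false false = 1 := by
    rw [Matrix.trace, Fintype.sum_bool] at h3
    simpa using h3
  refine ⟨?_, ?_, ?_⟩
  · change p false false * p false false + (‖p true false‖ : ℂ) * (‖p true false‖ : ℂ) = _
    rw [hb]
    linear_combination e1
  · rw [← e3]; exact add_comm _ _
  · change (‖p true false‖ : ℂ) * (‖p true false‖ : ℂ) + p true true * p true true = _
    rw [hb]
    linear_combination e2

/-- (K3) -/
theorem Clu.mat_aux {e : Fam X} (c : Clu e) : Continuous c.mat ∧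
    (∀ y, c.mat y * c.mat y = c.mat y) ∧ ∀ y, (c.mat y).trace = e.n := by
  have hQ : Continuous fun y : X × Circle => e.Q y.1 := e.cont.comp continuous_fst
  have hGi : Continuous fun y : X × Circle => (c.G y)⁻¹ := continuous_inv_mat c.cont c.unit
  refine ⟨?_, ?_, ?_⟩
  · refine Continuous.matrix_fromBlocks ?_ ?_ ?_ ?_
    · exact ((k3_cont_entry false false).comp continuous_snd).smul (e.cont.comp continuous_fst)
    · refine continuous_matrix fun i j => ?_
      exact k3_phase_mul (m := fun z => (e.Q z.1 * (c.G z)⁻¹) i j)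
        ((hQ.matrix_mul hGi).matrix_elem i j)
    · refine continuous_matrix fun i j => ?_
      exact k3_phase_mul (m := fun z => (c.G z * e.Q z.1) i j)
        ((c.cont.matrix_mul hQ).matrix_elem i j)
    · exact ((k3_cont_entry true true).comp continuous_snd).smul (e.cont.comp continuous_fst)
  · intro y
    obtain ⟨f1, f2, f3⟩ := k3_facts y.2
    have hu : IsUnit (c.G (y.1, phase y.2)).det := (Matrix.isUnit_iff_isUnit_det _).1 (c.unit _)
    have hc := c.comm y.1 (phase y.2)
    rw [Clu.mat, fromBlocks_multiply]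
    generalize c.G (y.1, phase y.2) = G at hu hc
    generalize hE : e.Q y.1 = E at hc
    have hEE : E * E = E := by rw [← hE]; exact e.idem _
    generalize y.2.1 false false = a at f1 f2
    generalize y.2.1 true true = d at f2 f3
    generalize (‖y.2.1 true false‖ : ℂ) = b at f1 f3
    have hGG : G⁻¹ * G = 1 := Matrix.nonsing_inv_mul _ hu
    have hGG' : G * G⁻¹ = 1 := Matrix.mul_nonsing_inv _ hu
    have hci : G⁻¹ * E = E * G⁻¹ := by
      calc G⁻¹ * E = G⁻¹ * E * (G * G⁻¹) := by rw [hGG', Matrix.mul_one]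
        _ = G⁻¹ * (E * G) * G⁻¹ := by simp only [Matrix.mul_assoc]
        _ = G⁻¹ * (G * E) * G⁻¹ := by rw [hc]
        _ = (G⁻¹ * G) * E * G⁻¹ := by simp only [Matrix.mul_assoc]
        _ = E * G⁻¹ := by rw [hGG, Matrix.one_mul]
    congr 1
    · simp only [Matrix.smul_mul, Matrix.mul_smul, smul_smul]
      have : E * G⁻¹ * (G * E) = E := by
        rw [Matrix.mul_assoc, ← Matrix.mul_assoc G⁻¹, hGG, Matrix.one_mul, hEE]
      rw [this, hEE, ← add_smul, f1]
    · simp only [Matrix.smul_mul, Matrix.mul_smul, smul_smul]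
      have e1 : E * (E * G⁻¹) = E * G⁻¹ := by rw [← Matrix.mul_assoc, hEE]
      have e2 : E * G⁻¹ * E = E * G⁻¹ := by rw [Matrix.mul_assoc, hci, e1]
      rw [e1, e2, ← add_smul, mul_comm d b, ← mul_add, f2, mul_one]
    · simp only [Matrix.smul_mul, Matrix.mul_smul, smul_smul]
      have e1 : G * E * E = G * E := by rw [Matrix.mul_assoc, hEE]
      have e2 : E * (G * E) = G * E := by rw [← Matrix.mul_assoc, hc, e1]
      rw [e1, e2, ← add_smul, mul_comm a b, ← mul_add, f2, mul_one]
    · simp only [Matrix.smul_mul, Matrix.mul_smul, smul_smul]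
      have : G * E * (E * G⁻¹) = E := by
        rw [Matrix.mul_assoc, ← Matrix.mul_assoc E, hEE, ← hci, ← Matrix.mul_assoc, hGG',
          Matrix.one_mul]
      rw [this, hEE, ← add_smul, f3]
  · intro y
    obtain ⟨f1, f2, f3⟩ := k3_facts y.2
    have h : (c.mat y).trace = (y.2.1 false false • e.Q y.1).trace +
        (y.2.1 true true • e.Q y.1).trace := by
      simp only [Clu.mat, Matrix.trace, Matrix.diag, Fintype.sum_sum_type, fromBlocks_apply₁₁,
        fromBlocks_apply₂₂]
    rw [h, Matrix.trace_smul, Matrix.trace_smul, ← add_smul, f2, one_smul, e.tr]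

/-- the bundle with clutching function `G` -/
def Clu.fam {e : Fam X} (c : Clu e) : Fam (X × P1) where
  S := e.S ⊕ e.S
  n := e.n
  Q := c.mat
  cont := c.mat_aux.1
  idem := c.mat_aux.2.1
  tr := c.mat_aux.2.2

/-- the reduced class of a clutching function -/
def Clu.kap {e : Fam X} (c : Clu e) : K0 (X × P1) := cls c.fam - pib (cls e)

end Pool.Agent.Helper1.Stab.KT
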