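import Mathlib

/-! Spectral splitting of the pencil `1 + (w - 1) a`, `|w| = 1`. -/

open Matrix

noncomputable section

namespace Pool.Agent.Helper1.Stab.KT

variable {X : Type} [TopologicalSpace X] {S : Type} [Fintype S] [DecidableEq S]

/-- the pencil -/
def pen (a : Matrix S S ℂ) (w : ℂ) : Matrix S S ℂ := 1 + (w - 1) • a

/-- the primitive root of unity `exp (2 π i j / N)` -/
def rt (N j : ℕ) : ℂ := Complex.exp (2 * Real.pi * Complex.I * j / N)

/-- the averages `q_N = N⁻¹ ∑_{ζ^N = 1} ζ a (1 + (ζ - 1) a)⁻¹` -/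
def qN (a : Matrix S S ℂ) (N : ℕ) : Matrix S S ℂ :=
  (N : ℂ)⁻¹ • ∑ j ∈ Finset.range N, (rt N j • a) * (pen a (rt N j))⁻¹

theorem rt_eq_pow (N j : ℕ) : rt N j = Complex.exp (2 * Real.pi * Complex.I / N) ^ j := by
  rw [← Complex.exp_nat_mul]
  unfold rt
  congr 1
  ring

theorem rt_inj {N j k : ℕ} (hN : 0 < N) (hj : j < N) (hk : k < N) (h : rt N j = rt N k) :
    j = k := by
  rw [rt_eq_pow, rt_eq_pow] at h
  exact (Complex.isPrimitiveRoot_exp N hN.ne').pow_inj hj hk h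

theorem rt_ne_zero (N j : ℕ) : rt N j ≠ 0 := Complex.exp_ne_zero _

theorem norm_rt (N j : ℕ) : ‖rt N j‖ = 1 := by
  have h : rt N j = Complex.exp (((2 * Real.pi * j / N : ℝ) : ℂ) * Complex.I) := by
    unfold rt
    congr 1
    push_cast
    ring
  rw [h]
  exact Complex.norm_exp_ofReal_mul_I _

/-- the roots of unity as a finite set -/
theorem rt_image {N : ℕ} (hN : 0 < N) (ξ : ℂ) :
    ξ ∈ (Finset.range N).image (rt N) ↔ ξ ^ N = 1 := by
  have hp := Complex.isPrimitiveRoot_exp N hN.ne'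
  rw [Finset.mem_image]
  constructor
  · rintro ⟨j, _, rfl⟩
    rw [rt_eq_pow, ← pow_mul, mul_comm j N, pow_mul, hp.pow_eq_one, one_pow]
  · intro h
    haveI : NeZero N := ⟨hN.ne'⟩
    obtain ⟨i, hi, hi'⟩ := hp.eq_pow_of_pow_eq_one h
    exact ⟨i, Finset.mem_range.2 hi, by rw [rt_eq_pow]; exact hi'⟩

theorem sum_rt {N j : ℕ} (hN : 0 < N) (hj : j ∈ Finset.range N) :
    ∑ k ∈ (Finset.range N).erase j, rt N k / (rt N k - rt N j) = ((N : ℂ) - 1) / 2 := by
  classical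
  set R := (Finset.range N).image (rt N) with hR
  set ζ := rt N j with hζ
  have hζ0 : ζ ≠ 0 := rt_ne_zero N j
  have hζR : ζ ^ N = 1 := (rt_image hN ζ).1 (Finset.mem_image_of_mem _ hj)
  have hinj : Set.InjOn (rt N) (Finset.range N : Set ℕ) := fun a ha b hb h =>
    rt_inj hN (Finset.mem_range.1 ha) (Finset.mem_range.1 hb) h
  have h1 : ∑ k ∈ (Finset.range N).erase j, rt N k / (rt N k - ζ) =
      ∑ ξ ∈ R.erase ζ, ξ / (ξ - ζ) := by
    have h2 : R.erase ζ = ((Finset.range N).erase j).image (rt N) := by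
      ext ξ
      simp only [hR, Finset.mem_erase, Finset.mem_image]
      constructor
      · rintro ⟨h, k, hk, rfl⟩
        exact ⟨k, ⟨fun h' => h (by rw [h', hζ]), hk⟩, rfl⟩
      · rintro ⟨k, ⟨h, hk⟩, rfl⟩
        exact ⟨fun h' => h (hinj hk hj h'), k, hk, rfl⟩
    rw [h2, Finset.sum_image]
    intro a ha b hb h
    exact hinj (Finset.mem_of_mem_erase ha) (Finset.mem_of_mem_erase hb) h
  have hcard : R.card = N := by
    rw [hR, Finset.card_image_of_injOn hinj, Finset.card_range]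
  have hζmem : ζ ∈ R := Finset.mem_image_of_mem _ hj
  have h0 : ∀ ξ ∈ R.erase ζ, ξ ≠ 0 := by
    intro ξ hξ h0
    have := (rt_image hN ξ).1 (Finset.mem_of_mem_erase hξ)
    rw [h0, zero_pow hN.ne'] at this
    exact zero_ne_one this
  have hmap : ∀ ξ ∈ R.erase ζ, ζ ^ 2 / ξ ∈ R.erase ζ := by
    intro ξ hξ
    have hξ0 := h0 ξ hξ
    rw [Finset.mem_erase] at hξ ⊢
    refine ⟨fun h => hξ.1 ?_, ?_⟩
    · rw [div_eq_iff hξ0, sq] at h
      exact (mul_left_cancel₀ hζ0 h).symm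
    · rw [hR, rt_image hN]
      have h2 := (rt_image hN ξ).1 hξ.2
      rw [div_pow, h2, ← pow_mul, mul_comm 2 N, pow_mul, hζR, one_pow, div_one]
  have h3 : ∑ ξ ∈ R.erase ζ, ξ / (ξ - ζ) = ∑ ξ ∈ R.erase ζ, ζ / (ζ - ξ) := by
    refine Finset.sum_nbij' (fun ξ => ζ ^ 2 / ξ) (fun ξ => ζ ^ 2 / ξ) hmap hmap ?_ ?_ ?_
    · intro ξ hξ
      have := h0 ξ hξ
      field_simp
    · intro ξ hξ
      have := h0 ξ hξ
      field_simp
    · intro ξ hξ
      have hξ0 := h0 ξ hξ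
      have hne : ξ - ζ ≠ 0 := sub_ne_zero.2 (Finset.ne_of_mem_erase hξ)
      have h4 : ζ - ζ ^ 2 / ξ = ζ * (ξ - ζ) / ξ := by
        field_simp
      rw [h4]
      field_simp
  have h5 : ∑ ξ ∈ R.erase ζ, ξ / (ξ - ζ) + ∑ ξ ∈ R.erase ζ, ξ / (ξ - ζ) = (N : ℂ) - 1 := by
    nth_rewrite 2 [h3]
    rw [← Finset.sum_add_distrib]
    have h6 : ∀ ξ ∈ R.erase ζ, ξ / (ξ - ζ) + ζ / (ζ - ξ) = 1 := by
      intro ξ hξ
      have hne : ξ - ζ ≠ 0 := sub_ne_zero.2 (Finset.ne_of_mem_erase hξ)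
      rw [← neg_sub ξ ζ, div_neg, ← sub_eq_add_neg, ← sub_div, div_self hne]
    rw [Finset.sum_congr rfl h6, Finset.sum_const, Finset.card_erase_of_mem hζmem, hcard,
      nsmul_eq_mul, mul_one, Nat.cast_sub hN, Nat.cast_one]
  rw [h1]
  linear_combination h5 / 2

theorem pen_comm (a : Matrix S S ℂ) (w : ℂ) : a * pen a w = pen a w * a := by
  unfold pen
  rw [mul_add, add_mul, mul_one, one_mul, mul_smul_comm, smul_mul_assoc]

theorem pen_inv_comm (a : Matrix S S ℂ) (w : ℂ) (h : IsUnit (pen a w)) :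
    a * (pen a w)⁻¹ = (pen a w)⁻¹ * a := by
  have hd := (Matrix.isUnit_iff_isUnit_det _).1 h
  calc a * (pen a w)⁻¹ = ((pen a w)⁻¹ * pen a w) * (a * (pen a w)⁻¹) := by
        rw [Matrix.nonsing_inv_mul _ hd, Matrix.one_mul]
    _ = (pen a w)⁻¹ * (a * pen a w) * (pen a w)⁻¹ := by
        rw [pen_comm]
        simp only [Matrix.mul_assoc]
    _ = (pen a w)⁻¹ * a := by
        rw [Matrix.mul_assoc, Matrix.mul_assoc, Matrix.mul_nonsing_inv _ hd, Matrix.mul_one]

/-- the resolvent identity -/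
theorem pen_res (a : Matrix S S ℂ) {w w' : ℂ} (h : IsUnit (pen a w)) (h' : IsUnit (pen a w')) :
    (w' - w) • ((pen a w)⁻¹ * a * (pen a w')⁻¹) = (pen a w)⁻¹ - (pen a w')⁻¹ := by
  have hd := (Matrix.isUnit_iff_isUnit_det _).1 h
  have hd' := (Matrix.isUnit_iff_isUnit_det _).1 h'
  have h1 : (w' - w) • a = pen a w' - pen a w := by
    unfold pen
    rw [add_sub_add_left_eq_sub, ← sub_smul]
    congr 1
    ring
  calc (w' - w) • ((pen a w)⁻¹ * a * (pen a w')⁻¹)
      = (pen a w)⁻¹ * ((w' - w) • a) * (pen a w')⁻¹ := by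
        rw [Matrix.mul_smul, Matrix.smul_mul]
    _ = (pen a w)⁻¹ * (pen a w' - pen a w) * (pen a w')⁻¹ := by rw [h1]
    _ = (pen a w)⁻¹ - (pen a w')⁻¹ := by
        rw [Matrix.mul_sub, Matrix.sub_mul, Matrix.nonsing_inv_mul _ hd, Matrix.one_mul,
          Matrix.mul_assoc, Matrix.mul_nonsing_inv _ hd', Matrix.mul_one]

theorem qN_cross (a : Matrix S S ℂ) {w w' : ℂ} (hne : w ≠ w') (h : IsUnit (pen a w))
    (h' : IsUnit (pen a w')) :
    ((w • a) * (pen a w)⁻¹) * ((w' • a) * (pen a w')⁻¹) =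
      (w' / (w' - w)) • ((w • a) * (pen a w)⁻¹) + (w / (w - w')) • ((w' • a) * (pen a w')⁻¹) := by
  have hs : w' - w ≠ 0 := sub_ne_zero.2 hne.symm
  have h1 : (pen a w)⁻¹ * a * (pen a w')⁻¹ = (w' - w)⁻¹ • ((pen a w)⁻¹ - (pen a w')⁻¹) := by
    rw [← pen_res a h h', smul_smul, inv_mul_cancel₀ hs, one_smul]
  calc ((w • a) * (pen a w)⁻¹) * ((w' • a) * (pen a w')⁻¹)
      = (w * w') • (a * ((pen a w)⁻¹ * a * (pen a w')⁻¹)) := by
        rw [Matrix.smul_mul, Matrix.smul_mul, Matrix.smul_mul, Matrix.mul_smul, smul_smul]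
        simp only [Matrix.mul_assoc]
    _ = (w * w') • (a * ((w' - w)⁻¹ • ((pen a w)⁻¹ - (pen a w')⁻¹))) := by rw [h1]
    _ = _ := by
        rw [Matrix.mul_smul, Matrix.mul_sub, smul_smul, smul_sub, sub_eq_add_neg, ← neg_smul,
          Matrix.smul_mul, Matrix.smul_mul, smul_smul, smul_smul]
        congr 2
        · field_simp
        · rw [← neg_sub w' w, div_neg]
          field_simp

/-- (Q1) `q_N² = (1 - 1/N) q_N + N⁻² ∑ (ζ a (pen ζ)⁻¹)²`.
Proof. Put `r(ζ) = (pen a ζ)⁻¹` (commutes with `a`). From `pen ζ' - pen ζ = (ζ' - ζ) a` we get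
`r(ζ) - r(ζ') = (ζ' - ζ) a r(ζ) r(ζ')`. In `q_N² = N⁻² ∑_{ζ, ζ'} ζ ζ' a² r(ζ) r(ζ')` the terms with
`ζ ≠ ζ'` are `ζ ζ' a (r(ζ) - r(ζ')) / (ζ' - ζ)`; by symmetry their sum is
`2 ∑_ζ ζ a r(ζ) ∑_{ζ' ≠ ζ} ζ' / (ζ' - ζ)` and `∑_{ζ' ≠ ζ} ζ' / (ζ' - ζ) = ∑_{η ≠ 1} η / (η - 1) =
∑_{η ≠ 1} 1 / (1 - η) = (N - 1) / 2` (pair `η` with `η⁻¹`: `1/(1-η) + 1/(1-η⁻¹) = 1`). -/
theorem qN_sq (a : Matrix S S ℂ) (N : ℕ) (hN : 0 < N)
    (h : ∀ w : ℂ, ‖w‖ = 1 → IsUnit (pen a w)) :
    qN a N * qN a N = (1 - (N : ℂ)⁻¹) • qN a N + ((N : ℂ)⁻¹ * (N : ℂ)⁻¹) •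
      ∑ j ∈ Finset.range N, ((rt N j • a) * (pen a (rt N j))⁻¹) *
        ((rt N j • a) * (pen a (rt N j))⁻¹) := by
  set F : ℕ → Matrix S S ℂ := fun j => (rt N j • a) * (pen a (rt N j))⁻¹ with hF
  have hu : ∀ j, IsUnit (pen a (rt N j)) := fun j => h _ (norm_rt N j)
  have hq : qN a N = (N : ℂ)⁻¹ • ∑ j ∈ Finset.range N, F j := rfl
  have hsum : (∑ j ∈ Finset.range N, F j) * (∑ k ∈ Finset.range N, F k) =
      ((N : ℂ) - 1) • ∑ j ∈ Finset.range N, F j + ∑ j ∈ Finset.range N, F j * F j := by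
    have h1 : ∀ j ∈ Finset.range N, ∑ k ∈ Finset.range N, F j * F k =
        F j * F j + (((N : ℂ) - 1) / 2) • F j +
          ∑ k ∈ (Finset.range N).erase j, (rt N j / (rt N j - rt N k)) • F k := by
      intro j hj
      rw [← Finset.add_sum_erase _ _ hj, add_assoc]
      congr 1
      have h2 : ∀ k ∈ (Finset.range N).erase j, F j * F k =
          (rt N k / (rt N k - rt N j)) • F j + (rt N j / (rt N j - rt N k)) • F k := by
        intro k hk
        refine qN_cross a (fun he => (Finset.ne_of_mem_erase hk) ?_) (hu j) (hu k)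
        exact (rt_inj hN (Finset.mem_range.1 hj)
          (Finset.mem_range.1 (Finset.mem_of_mem_erase hk)) he).symm
      rw [Finset.sum_congr rfl h2, Finset.sum_add_distrib, ← Finset.sum_smul, sum_rt hN hj]
    rw [Finset.sum_mul_sum, Finset.sum_congr rfl h1, Finset.sum_add_distrib,
      Finset.sum_add_distrib]
    have h3 : ∑ j ∈ Finset.range N, ∑ k ∈ (Finset.range N).erase j,
        (rt N j / (rt N j - rt N k)) • F k = ∑ k ∈ Finset.range N, (((N : ℂ) - 1) / 2) • F k := by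
      rw [Finset.sum_comm' (s' := fun k => (Finset.range N).erase k) (t' := Finset.range N)]
      · refine Finset.sum_congr rfl fun k hk => ?_
        rw [← Finset.sum_smul, sum_rt hN hk]
      · intro j k
        simp only [Finset.mem_erase, ne_eq]
        tauto
    rw [h3, ← Finset.smul_sum]
    have h4 : ((N : ℂ) - 1) • ∑ j ∈ Finset.range N, F j =
        (((N : ℂ) - 1) / 2) • ∑ j ∈ Finset.range N, F j +
          (((N : ℂ) - 1) / 2) • ∑ j ∈ Finset.range N, F j := by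
      rw [← add_smul]
      congr 1
      ring
    rw [h4]
    abel
  have hN0 : (N : ℂ) ≠ 0 := by exact_mod_cast hN.ne'
  rw [hq, Matrix.smul_mul, Matrix.mul_smul, smul_smul, hsum, smul_add, smul_smul, smul_smul]
  congr 2
  field_simp

/-- inverses of continuous families are continuous -/
theorem pen_inv_cont {Y : Type} [TopologicalSpace Y] {f : Y → Matrix S S ℂ}
    (hf : Continuous f) (h : ∀ x, IsUnit (f x)) : Continuous fun x => (f x)⁻¹ := by
  have h1 : (fun x => (f x)⁻¹) = fun x => ((f x).det)⁻¹ • (f x).adjugate := by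
    funext x
    rw [Matrix.inv_def, Ring.inverse_eq_inv']
  rw [h1]
  refine Continuous.smul (Continuous.inv₀ hf.matrix_det fun x => ?_) hf.matrix_adjugate
  exact ((Matrix.isUnit_iff_isUnit_det _).1 (h x)).ne_zero

/-- Riemann sums -/
theorem riemann_lim (g : ℝ → ℂ) (hg : Continuous g) :
    Filter.Tendsto (fun N : ℕ => (N : ℂ)⁻¹ * ∑ j ∈ Finset.range N, g (2 * Real.pi * j / N))
      Filter.atTop (nhds ((2 * Real.pi : ℂ)⁻¹ * ∫ θ in (0 : ℝ)..(2 * Real.pi), g θ)) := by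
  have hpi : (0 : ℝ) < 2 * Real.pi := by positivity
  rw [Metric.tendsto_atTop]
  intro ε hε
  have hu : UniformContinuousOn g (Set.Icc 0 (2 * Real.pi)) :=
    isCompact_Icc.uniformContinuousOn_of_continuous hg.continuousOn
  rw [Metric.uniformContinuousOn_iff] at hu
  obtain ⟨δ, hδ, hu⟩ := hu (ε / 2) (by positivity)
  obtain ⟨N₀, hN₀⟩ := exists_nat_gt (2 * Real.pi / δ)
  refine ⟨N₀ + 1, fun N hN => ?_⟩
  have hN1 : (N₀ : ℝ) + 1 ≤ N := by exact_mod_cast hN
  have hNpos : (0 : ℝ) < N := by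
    have : (0 : ℝ) ≤ N₀ := Nat.cast_nonneg _
    linarith
  have hNC : (N : ℂ) ≠ 0 := by exact_mod_cast hNpos.ne'
  have hstep : 2 * Real.pi / N < δ := by
    rw [div_lt_iff₀ hNpos]
    rw [div_lt_iff₀ hδ] at hN₀
    nlinarith
  have hint : ∀ a b : ℝ, IntervalIntegrable g MeasureTheory.volume a b :=
    fun a b => hg.intervalIntegrable a b
  have h1 : ∑ j ∈ Finset.range N, ∫ θ in (2 * Real.pi * (j : ℕ) / N)..(2 * Real.pi * ((j + 1 : ℕ) : ℝ) / N),
        (g (2 * Real.pi * j / N) - g θ)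
      = (2 * Real.pi / N : ℂ) * ∑ j ∈ Finset.range N, g (2 * Real.pi * j / N)
        - ∫ θ in (0 : ℝ)..(2 * Real.pi), g θ := by
    have h2 := intervalIntegral.sum_integral_adjacent_intervals (f := g) (μ := MeasureTheory.volume)
      (a := fun j : ℕ => 2 * Real.pi * (j : ℝ) / N) (n := N) (fun k _ => hint _ _)
    have h3 : 2 * Real.pi * ((0 : ℕ) : ℝ) / N = 0 := by simp
    have h4 : 2 * Real.pi * (N : ℝ) / N = 2 * Real.pi := by field_simp
    simp only [h3, h4] at h2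
    rw [← h2, Finset.mul_sum, ← Finset.sum_sub_distrib]
    refine Finset.sum_congr rfl fun j _ => ?_
    rw [intervalIntegral.integral_sub intervalIntegrable_const (hint _ _),
      intervalIntegral.integral_const]
    congr 1
    rw [Complex.real_smul]
    congr 1
    push_cast
    ring
  have h5 : (N : ℂ)⁻¹ * ∑ j ∈ Finset.range N, g (2 * Real.pi * j / N)
      - (2 * Real.pi : ℂ)⁻¹ * ∫ θ in (0 : ℝ)..(2 * Real.pi), g θ
      = (2 * Real.pi : ℂ)⁻¹ * ∑ j ∈ Finset.range N,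
        ∫ θ in (2 * Real.pi * (j : ℕ) / N)..(2 * Real.pi * ((j + 1 : ℕ) : ℝ) / N),
        (g (2 * Real.pi * j / N) - g θ) := by
    rw [h1, mul_sub]
    congr 1
    have hp : (Real.pi : ℂ) ≠ 0 := by exact_mod_cast Real.pi_ne_zero
    field_simp
  rw [dist_eq_norm, h5, norm_mul]
  have h6 : ‖(2 * Real.pi : ℂ)⁻¹‖ = (2 * Real.pi)⁻¹ := by
    rw [norm_inv]
    congr 1
    have : (2 * Real.pi : ℂ) = ((2 * Real.pi : ℝ) : ℂ) := by push_cast; rfl
    rw [this, Complex.norm_real, Real.norm_eq_abs, abs_of_pos hpi]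
  have h7 : ‖∑ j ∈ Finset.range N,
      ∫ θ in (2 * Real.pi * (j : ℕ) / N)..(2 * Real.pi * ((j + 1 : ℕ) : ℝ) / N),
        (g (2 * Real.pi * j / N) - g θ)‖ ≤ ∑ j ∈ Finset.range N, ε / 2 * (2 * Real.pi / N) := by
    refine norm_sum_le_of_le _ fun j hj => ?_
    have hj' : (j : ℝ) + 1 ≤ N := by exact_mod_cast Finset.mem_range.1 hj
    have hj0 : (0 : ℝ) ≤ j := Nat.cast_nonneg _
    have hd : 2 * Real.pi * ((j + 1 : ℕ) : ℝ) / N - 2 * Real.pi * (j : ℝ) / N = 2 * Real.pi / N := by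
      push_cast
      ring
    have hle : 2 * Real.pi * (j : ℝ) / N ≤ 2 * Real.pi * ((j + 1 : ℕ) : ℝ) / N := by
      have : 0 < 2 * Real.pi / N := by positivity
      linarith
    have hb : 2 * Real.pi * ((j + 1 : ℕ) : ℝ) / N ≤ 2 * Real.pi := by
      rw [div_le_iff₀ hNpos]
      push_cast
      exact mul_le_mul_of_nonneg_left hj' hpi.le
    have h0 : 0 ≤ 2 * Real.pi * (j : ℝ) / N := by positivity
    have h8 := intervalIntegral.norm_integral_le_of_norm_le_const
      (a := 2 * Real.pi * (j : ℝ) / N) (b := 2 * Real.pi * ((j + 1 : ℕ) : ℝ) / N)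
      (f := fun θ => g (2 * Real.pi * j / N) - g θ) (C := ε / 2) (by
        intro θ hθ
        rw [Set.uIoc_of_le hle] at hθ
        rw [← dist_eq_norm]
        refine (hu _ ⟨h0, hle.trans hb⟩ _ ⟨h0.trans hθ.1.le, hθ.2.trans hb⟩ ?_).le
        rw [Real.dist_eq, abs_sub_comm, abs_of_nonneg (by linarith [hθ.1])]
        linarith [hθ.2])
    rw [hd, abs_of_pos (by positivity)] at h8
    exact h8
  rw [Finset.sum_const, Finset.card_range, nsmul_eq_mul] at h7
  rw [h6]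
  calc (2 * Real.pi)⁻¹ * _ ≤ (2 * Real.pi)⁻¹ * ((N : ℝ) * (ε / 2 * (2 * Real.pi / N))) :=
        mul_le_mul_of_nonneg_left h7 (by positivity)
    _ = ε / 2 := by
        have := Real.pi_ne_zero
        field_simp
    _ < ε := by linarith

/-- (Q2) the averages converge uniformly to a continuous function.
Proof. `f (x, w) = w a(x) (pen (a x) w)⁻¹` is continuous on the compact space `X × S¹`. For every
`ε > 0` there is `N₀` such that for `N ≥ N₀` and all `x` the oscillation of `f (x, ·)` on arcs of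
length `2π/N` is `≤ ε` (entrywise); then `|q_N - q_{N M}| ≤ ε` for all `M > 0` (group the `N M`-th roots
of unity in `N` arcs), so `|q_N - q_M| ≤ 2 ε` for `N, M ≥ N₀`: uniform Cauchy sequence of continuous
functions. -/
theorem exists_lim [CompactSpace X] (a : X → Matrix S S ℂ) (ha : Continuous a)
    (h : ∀ (x : X) (w : ℂ), ‖w‖ = 1 → IsUnit (pen (a x) w)) :
    ∃ q : X → Matrix S S ℂ, Continuous q ∧
      ∀ x, Filter.Tendsto (fun N => qN (a x) N) Filter.atTop (nhds (q x)) := by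
  have hE : ∀ θ : ℝ, ‖Complex.exp (θ * Complex.I)‖ = 1 := fun θ => Complex.norm_exp_ofReal_mul_I θ
  have hf : Continuous (fun p : X × ℝ => (Complex.exp (p.2 * Complex.I) • a p.1) *
      (pen (a p.1) (Complex.exp (p.2 * Complex.I)))⁻¹) := by
    have h1 : Continuous (fun p : X × ℝ => Complex.exp (p.2 * Complex.I)) := by fun_prop
    have h2 : Continuous (fun p : X × ℝ => a p.1) := ha.comp continuous_fst
    have h3 : Continuous (fun p : X × ℝ => pen (a p.1) (Complex.exp (p.2 * Complex.I))) := by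
      unfold pen
      exact continuous_const.add ((h1.sub continuous_const).smul h2)
    exact (h1.smul h2).matrix_mul (pen_inv_cont h3 fun p => h _ _ (hE _))
  refine ⟨fun x => Matrix.of fun i j => (2 * Real.pi : ℂ)⁻¹ * ∫ θ in (0 : ℝ)..(2 * Real.pi),
    ((Complex.exp (θ * Complex.I) • a x) * (pen (a x) (Complex.exp (θ * Complex.I)))⁻¹) i j,
    ?_, ?_⟩
  · refine continuous_matrix fun i j => ?_
    simp only [Matrix.of_apply]
    refine continuous_const.mul ?_
    refine intervalIntegral.continuous_parametric_intervalIntegral_of_continuous'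
      (f := fun x θ => ((Complex.exp (θ * Complex.I) • a x) *
        (pen (a x) (Complex.exp (θ * Complex.I)))⁻¹) i j) ?_ 0 (2 * Real.pi)
    exact hf.matrix_elem i j
  · intro x
    refine tendsto_pi_nhds.2 fun i => tendsto_pi_nhds.2 fun j => ?_
    have hg : Continuous (fun θ : ℝ => ((Complex.exp (θ * Complex.I) • a x) *
        (pen (a x) (Complex.exp (θ * Complex.I)))⁻¹) i j) :=
      (hf.comp (continuous_const.prodMk continuous_id : Continuous fun θ : ℝ => (x, θ))).matrix_elem i j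
    have h1 := riemann_lim _ hg
    refine h1.congr fun N => ?_
    unfold qN
    rw [Matrix.smul_apply, Matrix.sum_apply, smul_eq_mul]
    congr 1
    refine Finset.sum_congr rfl fun k _ => ?_
    have h2 : rt N k = Complex.exp (((2 * Real.pi * k / N : ℝ) : ℂ) * Complex.I) := by
      unfold rt
      congr 1
      push_cast
      ring
    rw [h2]

/-- the average of `1 / (1 - y r ^ j)` over the powers of a primitive root of unity -/
theorem avg_prim {N : ℕ} (hN : 0 < N) {r : ℂ} (hr : IsPrimitiveRoot r N) {y : ℂ} (hy : ‖y‖ < 1) :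
    (N : ℂ)⁻¹ * ∑ j ∈ Finset.range N, (1 - y * r ^ j)⁻¹ = (1 - y ^ N)⁻¹ := by
  have hNC : (N : ℂ) ≠ 0 := by exact_mod_cast hN.ne'
  have hr1 : ‖r‖ = 1 := hr.norm'_eq_one hN.ne'
  have hne : ∀ j : ℕ, 1 - y * r ^ j ≠ 0 := by
    intro j h0
    have h1 : y * r ^ j = 1 := (sub_eq_zero.1 h0).symm
    have h2 := congrArg norm h1
    rw [norm_mul, norm_pow, hr1, one_pow, mul_one, norm_one] at h2
    linarith
  have hyN : 1 - y ^ N ≠ 0 := by
    intro h0
    have h1 : y ^ N = 1 := (sub_eq_zero.1 h0).symm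
    have h2 := congrArg norm h1
    rw [norm_pow, norm_one] at h2
    have h3 : ‖y‖ ^ N < 1 := pow_lt_one₀ (norm_nonneg y) hy hN.ne'
    linarith
  have h1 : ∀ j ∈ Finset.range N, (1 - y * r ^ j)⁻¹ =
      (1 - y ^ N)⁻¹ * ∑ k ∈ Finset.range N, y ^ k * (r ^ k) ^ j := by
    intro j _
    rw [eq_comm, inv_mul_eq_iff_eq_mul₀ hyN, eq_mul_inv_iff_mul_eq₀ (hne j)]
    have h2 : ∑ k ∈ Finset.range N, y ^ k * (r ^ k) ^ j =
        ∑ k ∈ Finset.range N, (y * r ^ j) ^ k := by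
      refine Finset.sum_congr rfl fun k _ => ?_
      rw [mul_pow, ← pow_mul, ← pow_mul, mul_comm k j]
    rw [h2, geom_sum_mul_neg, mul_pow, ← pow_mul, mul_comm j N, pow_mul, hr.pow_eq_one, one_pow,
      mul_one]
  rw [Finset.sum_congr rfl h1, ← Finset.mul_sum, Finset.sum_comm]
  have h3 : ∀ k ∈ Finset.range N, ∑ j ∈ Finset.range N, y ^ k * (r ^ k) ^ j =
      if k = 0 then (N : ℂ) else 0 := by
    intro k hk
    rw [← Finset.mul_sum]
    by_cases hk0 : k = 0
    · subst hk0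
      simp
    · rw [if_neg hk0]
      have h4 : r ^ k ≠ 1 := hr.pow_ne_one_of_pos_of_lt hk0 (Finset.mem_range.1 hk)
      have h5 : (∑ j ∈ Finset.range N, (r ^ k) ^ j) * (r ^ k - 1) = 0 := by
        rw [geom_sum_mul, ← pow_mul, mul_comm k N, pow_mul, hr.pow_eq_one, one_pow, sub_self]
      rcases mul_eq_zero.1 h5 with h6 | h6
      · rw [h6, mul_zero]
      · exact absurd (sub_eq_zero.1 h6) h4
  rw [Finset.sum_congr rfl h3, Finset.sum_ite_eq' (Finset.range N) 0 fun _ => (N : ℂ),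
    if_pos (Finset.mem_range.2 hN)]
  field_simp

/-- (Q3) the scalar case: for a complex number `z` with `Re z ≠ 1/2` the averages
`N⁻¹ ∑ ζ z / (1 + (ζ - 1) z)` converge to `1` if `Re z > 1/2` and to `0` if `Re z < 1/2`.
Proof. `Re z > 1/2` means `|z| > |1 - z|`. For `μ = (1 - z)/z`, `|μ| < 1`:
`ζ z / (1 - z + ζ z) = 1 / (1 + μ ζ⁻¹) = ∑_k (-μ)^k ζ^{-k}`, the average is
`∑_{N ∣ k} (-μ)^k = 1 / (1 - (-μ)^N) → 1`. For `|z| < |1 - z|`, `ν = z / (1 - z)`:
`ζ ν / (1 + ζ ν) = - ∑_{k ≥ 1} (-ν)^k ζ^k`, the average is `- ∑_{N ∣ k, k ≥ 1} (-ν)^k → 0`. (A finite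
algebraic proof: `∏_ζ` and partial fractions, or multiply out `(1 - (-μ)^N) = (1 + μ ζ⁻¹) ∑_{k<N}
(-μ ζ⁻¹)^k`.) -/
theorem qN_scalar (z : ℂ) (hz : z.re ≠ 1 / 2) :
    Filter.Tendsto (fun N : ℕ => (N : ℂ)⁻¹ * ∑ j ∈ Finset.range N,
      (rt N j * z) / (1 + (rt N j - 1) * z)) Filter.atTop
        (nhds (if 1 / 2 < z.re then 1 else 0)) := by
  have hrt : ∀ N : ℕ, 0 < N → ∃ r : ℂ, IsPrimitiveRoot r N ∧ ∀ j, rt N j = r ^ j := by
    intro N hN
    refine ⟨Complex.exp (2 * Real.pi * Complex.I / N), Complex.isPrimitiveRoot_exp N hN.ne',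
      fun j => ?_⟩
    rw [rt, ← Complex.exp_nat_mul]
    congr 1
    ring
  have hlim : ∀ y : ℂ, ‖y‖ < 1 →
      Filter.Tendsto (fun N : ℕ => (1 - y ^ N)⁻¹) Filter.atTop (nhds 1) := by
    intro y hy
    have h1 := (tendsto_pow_atTop_nhds_zero_of_norm_lt_one hy).const_sub 1
    have h2 := h1.inv₀ (by norm_num)
    simpa using h2
  have hsq : ‖1 - z‖ ^ 2 = ‖z‖ ^ 2 + (1 - 2 * z.re) := by
    rw [Complex.sq_norm, Complex.sq_norm, Complex.normSq_apply, Complex.normSq_apply]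
    simp only [Complex.sub_re, Complex.one_re, Complex.sub_im, Complex.one_im]
    ring
  by_cases h : 1 / 2 < z.re
  · rw [if_pos h]
    have hn : ‖1 - z‖ < ‖z‖ := by
      refine lt_of_pow_lt_pow_left₀ 2 (norm_nonneg z) ?_
      rw [hsq]
      linarith
    have hz0 : z ≠ 0 := by
      rintro rfl
      rw [norm_zero] at hn
      exact absurd hn (not_lt.2 (norm_nonneg _))
    have hy : ‖-((1 - z) / z)‖ < 1 := by
      rw [norm_neg, norm_div, div_lt_one (norm_pos_iff.2 hz0)]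
      exact hn
    refine (hlim _ hy).congr' ?_
    filter_upwards [Filter.eventually_gt_atTop 0] with N hN
    obtain ⟨r, hr, hj⟩ := hrt N hN
    rw [← avg_prim hN hr.inv hy]
    congr 1
    refine Finset.sum_congr rfl fun j _ => ?_
    have hr0 : r ≠ 0 := hr.ne_zero hN.ne'
    have hrj : r ^ j ≠ 0 := pow_ne_zero j hr0
    rw [hj, inv_eq_one_div, inv_pow]
    have e : 1 - -((1 - z) / z) * (r ^ j)⁻¹ = (1 + (r ^ j - 1) * z) / (r ^ j * z) := by
      field_simp
      ring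
    rw [e, one_div_div]
  · rw [if_neg h]
    have h' : z.re < 1 / 2 := lt_of_le_of_ne (not_lt.1 h) hz
    have hn : ‖z‖ < ‖1 - z‖ := by
      refine lt_of_pow_lt_pow_left₀ 2 (norm_nonneg _) ?_
      rw [hsq]
      linarith
    have hz0 : 1 - z ≠ 0 := by
      intro h0
      rw [h0, norm_zero] at hn
      exact absurd hn (not_lt.2 (norm_nonneg _))
    have hy : ‖-(z / (1 - z))‖ < 1 := by
      rw [norm_neg, norm_div, div_lt_one (norm_pos_iff.2 hz0)]
      exact hn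
    have h2 := (hlim _ hy).const_sub 1
    rw [sub_self] at h2
    refine h2.congr' ?_
    filter_upwards [Filter.eventually_gt_atTop 0] with N hN
    obtain ⟨r, hr, hj⟩ := hrt N hN
    have hNC : (N : ℂ) ≠ 0 := by exact_mod_cast hN.ne'
    rw [← avg_prim hN hr hy]
    have e1 : (1 : ℂ) = (N : ℂ)⁻¹ * ∑ j ∈ Finset.range N, (1 : ℂ) := by
      rw [Finset.sum_const, Finset.card_range, nsmul_eq_mul, mul_one, inv_mul_cancel₀ hNC]
    nth_rewrite 1 [e1]
    rw [← mul_sub, ← Finset.sum_sub_distrib]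
    congr 1
    refine Finset.sum_congr rfl fun j _ => ?_
    have hr1 : ‖r‖ = 1 := hr.norm'_eq_one hN.ne'
    have hne : 1 + (r ^ j - 1) * z ≠ 0 := by
      intro h0
      have h3 : r ^ j * z = -(1 - z) := by linear_combination h0
      have h4 := congrArg norm h3
      rw [norm_mul, norm_pow, hr1, one_pow, one_mul, norm_neg] at h4
      linarith
    rw [hj]
    have e : 1 - -(z / (1 - z)) * r ^ j = (1 + (r ^ j - 1) * z) / (1 - z) := by
      field_simp
      ring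
    rw [e, inv_div, eq_div_iff hne, sub_mul, div_mul_cancel₀ _ hne]
    ring

/-- the function whose averages are taken is continuous along the circle -/
theorem pen_fun_cont (A : Matrix S S ℂ) (h : ∀ w : ℂ, ‖w‖ = 1 → IsUnit (pen A w)) :
    Continuous (fun θ : ℝ => (Complex.exp (θ * Complex.I) • A) *
      (pen A (Complex.exp (θ * Complex.I)))⁻¹) := by
  have h1 : Continuous (fun θ : ℝ => Complex.exp (θ * Complex.I)) := by fun_prop
  have h3 : Continuous (fun θ : ℝ => pen A (Complex.exp (θ * Complex.I))) := by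
    unfold pen
    exact continuous_const.add ((h1.sub continuous_const).smul continuous_const)
  exact (h1.smul continuous_const).matrix_mul
    (pen_inv_cont h3 fun θ => h _ (Complex.norm_exp_ofReal_mul_I θ))

theorem rt_eq (N k : ℕ) :
    rt N k = Complex.exp (((2 * Real.pi * k / N : ℝ) : ℂ) * Complex.I) := by
  unfold rt
  congr 1
  push_cast
  ring

theorem rt_norm (N k : ℕ) : ‖rt N k‖ = 1 := by
  rw [rt_eq]
  exact Complex.norm_exp_ofReal_mul_I _

/-- the second term of `qN_sq` tends to zero -/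
theorem qN_err (A : Matrix S S ℂ) (h : ∀ w : ℂ, ‖w‖ = 1 → IsUnit (pen A w)) :
    Filter.Tendsto (fun N : ℕ => ((N : ℂ)⁻¹ * (N : ℂ)⁻¹) •
      ∑ j ∈ Finset.range N, ((rt N j • A) * (pen A (rt N j))⁻¹) *
        ((rt N j • A) * (pen A (rt N j))⁻¹)) Filter.atTop (nhds 0) := by
  refine tendsto_pi_nhds.2 fun i => tendsto_pi_nhds.2 fun j => ?_
  have hc := pen_fun_cont A h
  have hg : Continuous (fun θ : ℝ => (((Complex.exp (θ * Complex.I) • A) *
      (pen A (Complex.exp (θ * Complex.I)))⁻¹) * ((Complex.exp (θ * Complex.I) • A) *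
      (pen A (Complex.exp (θ * Complex.I)))⁻¹)) i j) := (hc.matrix_mul hc).matrix_elem i j
  have h1 := riemann_lim _ hg
  have h2 : Filter.Tendsto (fun N : ℕ => ((N : ℂ))⁻¹) Filter.atTop (nhds 0) := by
    exact tendsto_inv_atTop_nhds_zero_nat (𝕜 := ℂ)
  have h3 := h2.mul h1
  rw [zero_mul] at h3
  refine h3.congr fun N => ?_
  rw [Matrix.smul_apply, Matrix.sum_apply, smul_eq_mul, mul_assoc]
  congr 2
  refine Finset.sum_congr rfl fun k _ => ?_
  rw [rt_eq]

/-- the limit is idempotent -/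
theorem lim_idem (A q : Matrix S S ℂ) (h : ∀ w : ℂ, ‖w‖ = 1 → IsUnit (pen A w))
    (hq : Filter.Tendsto (fun N => qN A N) Filter.atTop (nhds q)) : q * q = q := by
  have h1 : Filter.Tendsto (fun N => qN A N * qN A N) Filter.atTop (nhds (q * q)) :=
    hq.mul hq
  have h3 : Filter.Tendsto (fun N : ℕ => (1 - (N : ℂ)⁻¹)) Filter.atTop (nhds (1 - 0 : ℂ)) :=
    tendsto_const_nhds.sub (tendsto_inv_atTop_nhds_zero_nat (𝕜 := ℂ))
  have h4 : Filter.Tendsto (fun N : ℕ => (1 - (N : ℂ)⁻¹) • qN A N) Filter.atTop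
      (nhds ((1 - 0 : ℂ) • q)) := by
    have hm : Continuous (fun p : ℂ × Matrix S S ℂ => p.1 • p.2) :=
      continuous_fst.smul continuous_snd
    exact (hm.tendsto ((1 - 0 : ℂ), q)).comp (h3.prodMk_nhds hq)
  have h5 := qN_err A h
  have h2 : Filter.Tendsto (fun N : ℕ => (1 - (N : ℂ)⁻¹) • qN A N + ((N : ℂ)⁻¹ * (N : ℂ)⁻¹) •
      ∑ j ∈ Finset.range N, ((rt N j • A) * (pen A (rt N j))⁻¹) *
        ((rt N j • A) * (pen A (rt N j))⁻¹)) Filter.atTop (nhds ((1 - 0 : ℂ) • q + 0)) :=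
    h4.add h5
  rw [sub_zero, one_smul, add_zero] at h2
  refine tendsto_nhds_unique h1 (h2.congr' ?_)
  filter_upwards [Filter.eventually_gt_atTop 0] with N hN
  exact (qN_sq A N hN h).symm

/-- what commutes with `A` commutes with the averages -/
theorem qN_comm (A b : Matrix S S ℂ) (h : ∀ w : ℂ, ‖w‖ = 1 → IsUnit (pen A w))
    (hb : b * A = A * b) (N : ℕ) : b * qN A N = qN A N * b := by
  unfold qN
  rw [Matrix.mul_smul, Matrix.smul_mul, Finset.mul_sum, Finset.sum_mul]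
  congr 1
  refine Finset.sum_congr rfl fun k _ => ?_
  have h1 : b * pen A (rt N k) = pen A (rt N k) * b := by
    unfold pen
    rw [mul_add, add_mul, Matrix.mul_smul, Matrix.smul_mul, hb, mul_one, one_mul]
  have hu := h (rt N k) (rt_norm N k)
  have hd : IsUnit (pen A (rt N k)).det := (Matrix.isUnit_iff_isUnit_det _).1 hu
  have h2 : b * (pen A (rt N k))⁻¹ = (pen A (rt N k))⁻¹ * b := by
    calc b * (pen A (rt N k))⁻¹
        = ((pen A (rt N k))⁻¹ * pen A (rt N k)) * b * (pen A (rt N k))⁻¹ := by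
          rw [Matrix.nonsing_inv_mul _ hd, one_mul]
      _ = (pen A (rt N k))⁻¹ * (b * pen A (rt N k)) * (pen A (rt N k))⁻¹ := by
          rw [h1]; simp only [mul_assoc]
      _ = (pen A (rt N k))⁻¹ * b * (pen A (rt N k) * (pen A (rt N k))⁻¹) := by
          simp only [mul_assoc]
      _ = (pen A (rt N k))⁻¹ * b := by rw [Matrix.mul_nonsing_inv _ hd, mul_one]
  rw [Matrix.smul_mul, Matrix.smul_mul, Matrix.mul_smul, ← mul_assoc, hb, mul_assoc, h2, ← mul_assoc]

theorem lim_comm (A q b : Matrix S S ℂ) (h : ∀ w : ℂ, ‖w‖ = 1 → IsUnit (pen A w))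
    (hq : Filter.Tendsto (fun N => qN A N) Filter.atTop (nhds q)) (hb : b * A = A * b) :
    b * q = q * b := by
  have h1 : Filter.Tendsto (fun N => b * qN A N) Filter.atTop (nhds (b * q)) := by
    have hm : Continuous (fun p : Matrix S S ℂ => b * p) := continuous_const.matrix_mul continuous_id
    exact (hm.tendsto q).comp hq
  have h2 : Filter.Tendsto (fun N => qN A N * b) Filter.atTop (nhds (q * b)) := by
    have hm : Continuous (fun p : Matrix S S ℂ => p * b) := continuous_id.matrix_mul continuous_const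
    exact (hm.tendsto q).comp hq
  exact tendsto_nhds_unique h1 (h2.congr fun N => (qN_comm A b h hb N).symm)

/-- on an eigenvector the average is a scalar -/
theorem qN_mulVec (A : Matrix S S ℂ) (h : ∀ w : ℂ, ‖w‖ = 1 → IsUnit (pen A w)) (v : S → ℂ)
    (hv : v ≠ 0) (z : ℂ) (hz : A *ᵥ v = z • v) (N : ℕ) :
    qN A N *ᵥ v = ((N : ℂ)⁻¹ * ∑ j ∈ Finset.range N,
      (rt N j * z) / (1 + (rt N j - 1) * z)) • v := by
  unfold qN
  rw [Matrix.smul_mulVec, Matrix.sum_mulVec, mul_smul, Finset.sum_smul]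
  congr 1
  refine Finset.sum_congr rfl fun k _ => ?_
  have hu := h (rt N k) (rt_norm N k)
  have hd : IsUnit (pen A (rt N k)).det := (Matrix.isUnit_iff_isUnit_det _).1 hu
  have h1 : pen A (rt N k) *ᵥ v = (1 + (rt N k - 1) * z) • v := by
    unfold pen
    rw [Matrix.add_mulVec, Matrix.one_mulVec, Matrix.smul_mulVec, hz, add_smul, one_smul, smul_smul]
  have hne : (1 + (rt N k - 1) * z) ≠ 0 := by
    intro h0
    apply hv
    rw [h0, zero_smul] at h1
    have h2 : (pen A (rt N k))⁻¹ *ᵥ (pen A (rt N k) *ᵥ v) = v := by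
      rw [Matrix.mulVec_mulVec, Matrix.nonsing_inv_mul _ hd, Matrix.one_mulVec]
    rw [← h2, h1, Matrix.mulVec_zero]
  have h3 : (pen A (rt N k))⁻¹ *ᵥ v = (1 + (rt N k - 1) * z)⁻¹ • v := by
    have h2 : (pen A (rt N k))⁻¹ *ᵥ (pen A (rt N k) *ᵥ v) = v := by
      rw [Matrix.mulVec_mulVec, Matrix.nonsing_inv_mul _ hd, Matrix.one_mulVec]
    rw [h1, Matrix.mulVec_smul] at h2
    calc (pen A (rt N k))⁻¹ *ᵥ v
        = (1 + (rt N k - 1) * z)⁻¹ • ((1 + (rt N k - 1) * z) • ((pen A (rt N k))⁻¹ *ᵥ v)) := by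
          rw [smul_smul, inv_mul_cancel₀ hne, one_smul]
      _ = _ := by rw [h2]
  rw [← Matrix.mulVec_mulVec, h3, Matrix.mulVec_smul, Matrix.smul_mulVec, hz, smul_smul, smul_smul]
  congr 1
  field_simp

theorem re_inv_one_sub {w : ℂ} (hw : ‖w‖ = 1) (hw1 : w ≠ 1) : ((1 - w)⁻¹).re = 1 / 2 := by
  have h1 : w.re * w.re + w.im * w.im = 1 := by
    have h2 := Complex.sq_norm w
    rw [hw, Complex.normSq_apply] at h2
    linarith
  have h3 : Complex.normSq (1 - w) = 2 * (1 - w.re) := by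
    rw [Complex.normSq_apply]
    simp only [Complex.sub_re, Complex.one_re, Complex.sub_im, Complex.one_im]
    nlinarith
  have h4 : Complex.normSq (1 - w) ≠ 0 := by
    rw [Ne, Complex.normSq_eq_zero, sub_eq_zero]
    exact fun h => hw1 h.symm
  rw [Complex.inv_re, h3]
  rw [h3] at h4
  have h5 : (1 - w.re) ≠ 0 := fun h => h4 (by rw [h, mul_zero])
  simp only [Complex.sub_re, Complex.one_re]
  field_simp

/-- eigenvalues have real part different from `1/2` -/
theorem eig_re (A : Matrix S S ℂ) (h : ∀ w : ℂ, ‖w‖ = 1 → IsUnit (pen A w)) (v : S → ℂ)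
    (hv : v ≠ 0) (z : ℂ) (hz : A *ᵥ v = z • v) : z.re ≠ 1 / 2 := by
  intro hre
  have hz0 : z ≠ 0 := by
    intro h0; rw [h0, Complex.zero_re] at hre; norm_num at hre
  have hn : ‖1 - z⁻¹‖ = 1 := by
    have h1 : 1 - z⁻¹ = (z - 1) / z := by field_simp
    rw [h1, norm_div, div_eq_one_iff_eq (by simpa using hz0)]
    have h2 : ‖z - 1‖ ^ 2 = ‖z‖ ^ 2 := by
      rw [Complex.sq_norm, Complex.sq_norm, Complex.normSq_apply, Complex.normSq_apply]
      simp only [Complex.sub_re, Complex.one_re, Complex.sub_im, Complex.one_im]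
      rw [hre]; ring
    exact (sq_eq_sq₀ (norm_nonneg _) (norm_nonneg _)).1 h2
  have hu := h _ hn
  have hd := (Matrix.isUnit_iff_isUnit_det _).1 hu
  apply hv
  have h1 : pen A (1 - z⁻¹) *ᵥ v = 0 := by
    unfold pen
    rw [Matrix.add_mulVec, Matrix.one_mulVec, Matrix.smul_mulVec, hz, smul_smul]
    have h2 : (1 - z⁻¹ - 1) * z = -1 := by field_simp; ring
    rw [h2, neg_smul, one_smul, add_neg_cancel]
  have h2 : (pen A (1 - z⁻¹))⁻¹ *ᵥ (pen A (1 - z⁻¹) *ᵥ v) = v := by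
    rw [Matrix.mulVec_mulVec, Matrix.nonsing_inv_mul _ hd, Matrix.one_mulVec]
  rw [← h2, h1, Matrix.mulVec_zero]

/-- the eigenvalue of `q` on an eigenvector of `A` -/
theorem lim_eig (A q : Matrix S S ℂ) (h : ∀ w : ℂ, ‖w‖ = 1 → IsUnit (pen A w))
    (hq : Filter.Tendsto (fun N => qN A N) Filter.atTop (nhds q)) (v : S → ℂ) (hv : v ≠ 0)
    (z κ : ℂ) (hz : A *ᵥ v = z • v) (hκ : q *ᵥ v = κ • v) :
    κ = if 1 / 2 < z.re then 1 else 0 := by
  have hre := eig_re A h v hv z hz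
  have h1 := qN_scalar z hre
  obtain ⟨i, hi⟩ : ∃ i, v i ≠ 0 := by
    by_contra hc
    push Not at hc
    exact hv (funext hc)
  have h2 : Filter.Tendsto (fun N => (qN A N *ᵥ v) i) Filter.atTop (nhds ((q *ᵥ v) i)) := by
    have hm : Continuous (fun p : Matrix S S ℂ => (p *ᵥ v) i) :=
      (continuous_apply i).comp (continuous_id.matrix_mulVec continuous_const)
    exact (hm.tendsto q).comp hq
  have h3 : Filter.Tendsto (fun N => (qN A N *ᵥ v) i) Filter.atTop
      (nhds ((if 1 / 2 < z.re then 1 else 0) * v i)) := by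
    refine (h1.mul_const (v i)).congr fun N => ?_
    rw [qN_mulVec A h v hv z hz N, Pi.smul_apply, smul_eq_mul]
  have h4 := tendsto_nhds_unique h2 h3
  rw [hκ, Pi.smul_apply, smul_eq_mul] at h4
  exact mul_right_cancel₀ hi h4

theorem spec_unit (A q : Matrix S S ℂ) (h : ∀ w : ℂ, ‖w‖ = 1 → IsUnit (pen A w))
    (hq : Filter.Tendsto (fun N => qN A N) Filter.atTop (nhds q)) (w : ℂ) (t : ℝ)
    (hw : ‖w‖ = 1) (ht0 : 0 ≤ t) (ht1 : t ≤ 1) :
    IsUnit (pen (((1 - t : ℝ) : ℂ) • A + ((t : ℝ) : ℂ) • q) w) := by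
  by_contra hnu
  have hqq := lim_idem A q h hq
  have hcom : A * q = q * A := lim_comm A q A h hq rfl
  set M := pen (((1 - t : ℝ) : ℂ) • A + ((t : ℝ) : ℂ) • q) w with hM
  have hdet : M.det = 0 := by
    by_contra hd
    exact hnu ((Matrix.isUnit_iff_isUnit_det _).2 (isUnit_iff_ne_zero.2 hd))
  obtain ⟨v, hv, hMv⟩ := Matrix.exists_mulVec_eq_zero_iff.2 hdet
  have hMq : M * q = q * M := by
    rw [hM]
    unfold pen
    simp only [add_mul, mul_add, one_mul, mul_one, Matrix.smul_mul, Matrix.mul_smul, hcom]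
  -- an eigenvector of q
  obtain ⟨κ, u, hu, hκ, hqu, hMu⟩ : ∃ (κ : ℂ) (u : S → ℂ), u ≠ 0 ∧ (κ = 0 ∨ κ = 1) ∧
      q *ᵥ u = κ • u ∧ M *ᵥ u = 0 := by
    by_cases h1 : q *ᵥ v = 0
    · exact ⟨0, v, hv, Or.inl rfl, by rw [h1, zero_smul], hMv⟩
    · refine ⟨1, q *ᵥ v, h1, Or.inr rfl, ?_, ?_⟩
      · rw [Matrix.mulVec_mulVec, hqq, one_smul]
      · rw [Matrix.mulVec_mulVec, hMq, ← Matrix.mulVec_mulVec, hMv, Matrix.mulVec_zero]
  have hMu2 : u + (w - 1) • (((1 - t : ℝ) : ℂ) • (A *ᵥ u) + (((t : ℝ) : ℂ) * κ) • u) = 0 := by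
    rw [hM] at hMu
    unfold pen at hMu
    rw [Matrix.add_mulVec, Matrix.one_mulVec, Matrix.smul_mulVec, Matrix.add_mulVec,
      Matrix.smul_mulVec, Matrix.smul_mulVec, hqu, smul_smul] at hMu
    exact hMu
  have hw1 : w ≠ 1 := by
    intro h1
    rw [h1, sub_self, zero_smul, add_zero] at hMu2
    exact hu hMu2
  have hw1' : (1 - w) ≠ 0 := sub_ne_zero.2 (fun h => hw1 h.symm)
  have hs := re_inv_one_sub hw hw1
  set s := (1 - w)⁻¹ with hsdef
  have h1 : ((1 - t : ℝ) : ℂ) • (A *ᵥ u) + (((t : ℝ) : ℂ) * κ) • u = s • u := by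
    have h2 : (1 - w) • (((1 - t : ℝ) : ℂ) • (A *ᵥ u) + (((t : ℝ) : ℂ) * κ) • u) = u := by
      have h3 : (1 - w) • (((1 - t : ℝ) : ℂ) • (A *ᵥ u) + (((t : ℝ) : ℂ) * κ) • u) =
          -((w - 1) • (((1 - t : ℝ) : ℂ) • (A *ᵥ u) + (((t : ℝ) : ℂ) * κ) • u)) := by
        rw [← neg_smul]; congr 1; ring
      rw [h3]
      exact neg_eq_of_add_eq_zero_left hMu2
    calc ((1 - t : ℝ) : ℂ) • (A *ᵥ u) + (((t : ℝ) : ℂ) * κ) • u
        = s • ((1 - w) • (((1 - t : ℝ) : ℂ) • (A *ᵥ u) + (((t : ℝ) : ℂ) * κ) • u)) := by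
          rw [smul_smul, hsdef, inv_mul_cancel₀ hw1', one_smul]
      _ = s • u := by rw [h2]
  have hκre : κ.re = 0 ∨ κ.re = 1 := by
    rcases hκ with h | h
    · left; rw [h, Complex.zero_re]
    · right; rw [h, Complex.one_re]
  obtain ⟨i, hi⟩ : ∃ i, u i ≠ 0 := by
    by_contra hc
    push Not at hc
    exact hu (funext hc)
  rcases eq_or_lt_of_le ht1 with ht | ht
  · -- t = 1
    rw [ht] at h1
    have h2 : κ = s := by
      have h3 := congrFun h1 i
      simp only [sub_self, Complex.ofReal_zero, zero_smul, zero_add, Complex.ofReal_one, one_mul,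
        Pi.smul_apply, smul_eq_mul] at h3
      exact mul_right_cancel₀ hi h3
    rw [← h2] at hs
    rcases hκre with h | h <;> rw [h] at hs <;> norm_num at hs
  · have htC : ((1 - t : ℝ) : ℂ) ≠ 0 := by
      have : (1 - t : ℝ) ≠ 0 := by linarith
      exact_mod_cast this
    set z := (((1 - t : ℝ) : ℂ))⁻¹ * (s - ((t : ℝ) : ℂ) * κ) with hz
    have hAu : A *ᵥ u = z • u := by
      have h2 : ((1 - t : ℝ) : ℂ) • (A *ᵥ u) = (s - ((t : ℝ) : ℂ) * κ) • u := by
        rw [sub_smul, ← h1, add_sub_cancel_right]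
      rw [hz, mul_smul, ← h2, smul_smul, inv_mul_cancel₀ htC, one_smul]
    have hκ2 := lim_eig A q h hq u hu z κ hAu hqu
    have hre := eig_re A h u hu z hAu
    have h3 : (1 - t) * z.re + t * κ.re = 1 / 2 := by
      have h4 : ((1 - t : ℝ) : ℂ) * z + ((t : ℝ) : ℂ) * κ = s := by
        rw [hz, ← mul_assoc, mul_inv_cancel₀ htC, one_mul, sub_add_cancel]
      have h5 := congrArg Complex.re h4
      rw [Complex.add_re, Complex.re_ofReal_mul, Complex.re_ofReal_mul, hs] at h5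
      exact h5
    by_cases hlt : 1 / 2 < z.re
    · rw [if_pos hlt] at hκ2
      rw [hκ2, Complex.one_re] at h3
      nlinarith
    · rw [if_neg hlt] at hκ2
      rw [hκ2, Complex.zero_re] at h3
      have hlt2 : z.re < 1 / 2 := lt_of_le_of_ne (not_lt.1 hlt) hre
      nlinarith

/-- (Q4) Splitting of the pencil.
Proof. `q` from `exists_lim`. `q² = q` by `qN_sq` and the boundedness of `f` (`N⁻² ∑ = O(1/N)`); `q`
commutes with everything that commutes with `a` (so do the `q_N`). For the last claim suppose that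
`v ≠ 0` and `(pen ((1-t) a + t q) w) v = 0`. The matrix commutes with `q`, so one of `q v`,
`(1 - q) v` is a nonzero solution; call it `v` again, `q v = κ v`, `κ ∈ {0, 1}`. If `w = 1` then `v = 0`.
So `w ≠ 1`; `v + (w - 1)((1-t) a v + t κ v) = 0`; if `t = 1` then `(1 + (w - 1) κ) v = 0`, impossible
(`κ = 0` or `w v = 0`). So `a v = z v` with `(1 - t) z + t κ = - 1 / (w - 1) = 1 / (1 - w)`, which has
real part `1/2`. Since `z` is an eigenvalue and `pen a w'` is invertible for `|w'| = 1`, `Re z ≠ 1/2`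
(else `z = 1 / (1 - w')` for a `w'` of modulus one). `q_N v` is the scalar of `qN_scalar` times `v`,
so `κ = 1` if `Re z > 1/2` and `κ = 0` if `Re z < 1/2`. Then `Re ((1 - t) z + t κ)` is `> 1/2` resp.
`< 1/2`, contradiction. -/
theorem exists_spec [CompactSpace X] (a : X → Matrix S S ℂ) (ha : Continuous a)
    (h : ∀ (x : X) (w : ℂ), ‖w‖ = 1 → IsUnit (pen (a x) w)) :
    ∃ q : X → Matrix S S ℂ, Continuous q ∧ (∀ x, q x * q x = q x) ∧
      (∀ (x : X) (b : Matrix S S ℂ), b * a x = a x * b → b * q x = q x * b) ∧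
      ∀ (x : X) (w : ℂ) (t : ℝ), ‖w‖ = 1 → 0 ≤ t → t ≤ 1 →
        IsUnit (pen (((1 - t : ℝ) : ℂ) • a x + ((t : ℝ) : ℂ) • q x) w) := by
  obtain ⟨q, hqc, hq⟩ := exists_lim a ha h
  exact ⟨q, hqc, fun x => lim_idem (a x) (q x) (h x) (hq x),
    fun x b hb => lim_comm (a x) (q x) b (h x) (hq x) hb,
    fun x w t hw h0 h1 => spec_unit (a x) (q x) (h x) (hq x) w t hw h0 h1⟩

end Pool.Agent.Helper1.Stab.KT
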