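import Pool.Agent.Helper1.Stab.K.Cut
import Pool.Agent.Helper1.Stab.K.Spec

/-! Surjectivity in Bott periodicity. -/

open Matrix

noncomputable section

namespace Pool.Agent.Helper1.Stab.KT

variable {X : Type} [TopologicalSpace X]

/-- the clutching function is a polynomial of degree `≤ d` in the phase -/
def Clu.IsPoly {e : Fam X} (c : Clu e) (d : ℕ) : Prop :=
  ∃ a : ℕ → X → Matrix e.S e.S ℂ, (∀ k, Continuous (a k)) ∧
    (∀ k x, e.Q x * a k x = a k x * e.Q x) ∧
    ∀ x w, c.G (x, w) = ∑ k ∈ Finset.range (d + 1), (w : ℂ) ^ k • a k x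

/-- finite Fourier sums in the phase -/
def lauS (a : ℤ →₀ C(X, ℂ)) (x : X) (w : Circle) : ℂ := a.sum fun k g => ((w ^ k : Circle) : ℂ) * g x

/-- monomials -/
def monoS (X : Type) [TopologicalSpace X] : Set C(X × Circle, ℂ) :=
  {f | ∃ (g : C(X, ℂ)) (k : ℤ), ∀ x w, f (x, w) = ((w ^ k : Circle) : ℂ) * g x}

theorem lauS_of_span (f : C(X × Circle, ℂ)) (hf : f ∈ Submodule.span ℂ (monoS X)) :
    ∃ a : ℤ →₀ C(X, ℂ), ∀ x w, f (x, w) = lauS a x w := by
  induction hf using Submodule.span_induction with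
  | mem f hf =>
    obtain ⟨g, k, h⟩ := hf
    refine ⟨Finsupp.single k g, fun x w => ?_⟩
    rw [h, lauS, Finsupp.sum_single_index]
    simp
  | zero => exact ⟨0, fun x w => by simp [lauS]⟩
  | add f g _ _ hf hg =>
    obtain ⟨a, ha⟩ := hf
    obtain ⟨b, hb⟩ := hg
    refine ⟨a + b, fun x w => ?_⟩
    rw [lauS, Finsupp.sum_add_index', ContinuousMap.add_apply, ha, hb]
    · rfl
    · intro k
      simp
    · intro k g g'
      simp [mul_add]
  | smul r f _ hf =>
    obtain ⟨a, ha⟩ := hf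
    refine ⟨r • a, fun x w => ?_⟩
    rw [lauS, Finsupp.sum_smul_index', ContinuousMap.smul_apply, ha, lauS, Finsupp.smul_sum]
    · refine Finsupp.sum_congr fun k _ => ?_
      simp only [ContinuousMap.smul_apply, smul_eq_mul]
      ring
    · intro k
      simp

theorem monoS_mul {f g : C(X × Circle, ℂ)} (hf : f ∈ Submodule.span ℂ (monoS X))
    (hg : g ∈ Submodule.span ℂ (monoS X)) : f * g ∈ Submodule.span ℂ (monoS X) := by
  have h := Submodule.mul_mem_mul hf hg
  rw [Submodule.span_mul_span] at h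
  refine Submodule.span_mono ?_ h
  rintro _ ⟨f, ⟨a, k, ha⟩, g, ⟨b, l, hb⟩, rfl⟩
  refine ⟨a * b, k + l, fun x w => ?_⟩
  change f (x, w) * g (x, w) = _
  rw [ha, hb, _root_.zpow_add, Circle.coe_mul, ContinuousMap.mul_apply]
  ring

theorem monoS_star {f : C(X × Circle, ℂ)} (hf : f ∈ Submodule.span ℂ (monoS X)) :
    star f ∈ Submodule.span ℂ (monoS X) := by
  induction hf using Submodule.span_induction with
  | mem f hf =>
    obtain ⟨a, k, ha⟩ := hf
    refine Submodule.subset_span ⟨star a, -k, fun x w => ?_⟩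
    rw [ContinuousMap.star_apply, ha, ContinuousMap.star_apply, star_mul', _root_.zpow_neg,
      Circle.coe_inv_eq_conj]
    rfl
  | zero => rw [star_zero]; exact zero_mem _
  | add f g _ _ hf hg => rw [star_add]; exact add_mem hf hg
  | smul r f _ hf => rw [star_smul]; exact Submodule.smul_mem _ _ hf

theorem lauS_dense [CompactSpace X] [T2Space X] (f : C(X × Circle, ℂ)) {δ : ℝ} (hδ : 0 < δ) :
    ∃ a : ℤ →₀ C(X, ℂ), ∀ x w, ‖lauS a x w - f (x, w)‖ < δ := by
  have h1 : ∀ g ∈ StarAlgebra.adjoin ℂ (monoS X), g ∈ Submodule.span ℂ (monoS X) := by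
    intro g hg
    induction hg using StarAlgebra.adjoin_induction with
    | mem x h => exact Submodule.subset_span h
    | algebraMap r =>
      rw [Algebra.algebraMap_eq_smul_one]
      refine Submodule.smul_mem _ _ (Submodule.subset_span ⟨1, 0, fun x w => ?_⟩)
      simp
    | add x y _ _ hx hy => exact add_mem hx hy
    | mul x y _ _ hx hy => exact monoS_mul hx hy
    | star x _ hx => exact monoS_star hx
  have h2 : (StarAlgebra.adjoin ℂ (monoS X)).SeparatesPoints := by
    rintro ⟨x, w⟩ ⟨x', w'⟩ hne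
    by_cases hw : w = w'
    · have hx : x ≠ x' := fun h => hne (by rw [h, hw])
      obtain ⟨g, g0, g1, -⟩ := exists_continuous_zero_one_of_isClosed
        (isClosed_singleton (x := x)) (isClosed_singleton (x := x')) (by simpa using hx)
      have hm : (⟨fun y : X × Circle => (g y.1 : ℂ), by fun_prop⟩ : C(X × Circle, ℂ)) ∈ monoS X :=
        ⟨⟨fun x => (g x : ℂ), by fun_prop⟩, 0, fun x w => by simp⟩
      refine ⟨_, ⟨_, StarAlgebra.subset_adjoin ℂ _ hm, rfl⟩, ?_⟩
      change (g x : ℂ) ≠ (g x' : ℂ)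
      rw [g0 rfl, g1 rfl]
      simp
    · have hm : (⟨fun y : X × Circle => (y.2 : ℂ), by fun_prop⟩ : C(X × Circle, ℂ)) ∈ monoS X :=
        ⟨1, 1, fun x w => by simp⟩
      refine ⟨_, ⟨_, StarAlgebra.subset_adjoin ℂ _ hm, rfl⟩, ?_⟩
      change (w : ℂ) ≠ (w' : ℂ)
      exact fun h => hw (Circle.ext h)
  have h3 := ContinuousMap.starSubalgebra_topologicalClosure_eq_top_of_separatesPoints _ h2
  have h4 : f ∈ (StarAlgebra.adjoin ℂ (monoS X)).topologicalClosure := by rw [h3]; trivial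
  have h5 : f ∈ closure ((StarAlgebra.adjoin ℂ (monoS X)) : Set C(X × Circle, ℂ)) := h4
  obtain ⟨g, hg, hd⟩ := Metric.mem_closure_iff.1 h5 δ hδ
  obtain ⟨a, ha⟩ := lauS_of_span g (h1 g hg)
  refine ⟨a, fun x w => ?_⟩
  rw [← ha, ← dist_eq_norm, dist_comm]
  exact (ContinuousMap.dist_apply_le_dist (x, w)).trans_lt hd

theorem Clu.eq_of {e : Fam X} {c c' : Clu e} (h : c.G = c'.G) : c = c' := by
  cases c; cases c'; cases h; rfl

theorem Clu.exists_nhd [CompactSpace X] {e : Fam X} (c : Clu e) :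
    ∃ δ > 0, ∀ (x : X) (w : Circle) (t : unitInterval) (D : Matrix e.S e.S ℂ),
      (∀ i j, ‖D i j‖ < δ) → IsUnit (c.G (x, w) +
        ((t : ℝ) : ℂ) • (e.Q x * D * e.Q x + (1 - e.Q x) * D * (1 - e.Q x))) := by
  have hG := c.cont
  have hQ := e.cont
  have hcont : Continuous fun z : ((X × Circle) × unitInterval) × Matrix e.S e.S ℂ =>
      (c.G z.1.1 + ((z.1.2 : ℝ) : ℂ) • (e.Q z.1.1.1 * z.2 * e.Q z.1.1.1 +
        (1 - e.Q z.1.1.1) * z.2 * (1 - e.Q z.1.1.1))).det := by
    refine Continuous.matrix_det ?_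
    fun_prop
  have hop := isOpen_compl_singleton.preimage hcont (t := ({0} : Set ℂ)ᶜ)
  obtain ⟨u, v, hu, hv, su, sv, huv⟩ := generalized_tube_lemma
    (isCompact_univ (X := (X × Circle) × unitInterval))
    (isCompact_singleton (x := (0 : Matrix e.S e.S ℂ))) hop (by
      rintro ⟨⟨⟨x, w⟩, t⟩, D⟩ ⟨-, hD⟩
      have hD : D = 0 := hD
      subst hD
      change Matrix.det _ ≠ 0
      have h := (Matrix.isUnit_iff_isUnit_det _).1 (c.unit (x, w))
      simpa using h.ne_zero)
  have h0 : (0 : e.S → e.S → ℂ) ∈ (v : Set (e.S → e.S → ℂ)) := sv rfl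
  obtain ⟨δ, hδ, hb⟩ := Metric.isOpen_iff.1 (show IsOpen (v : Set (e.S → e.S → ℂ)) from hv) _ h0
  have h1 : ∀ D : e.S → e.S → ℂ, (∀ i j, ‖D i j‖ < δ) → D ∈ Metric.ball (0 : e.S → e.S → ℂ) δ := by
    intro D hD
    rw [Metric.mem_ball, dist_pi_lt_iff hδ]
    intro i
    rw [dist_pi_lt_iff hδ]
    intro j
    rw [dist_eq_norm]
    simpa using hD i j
  refine ⟨δ, hδ, fun x w t D hD => ?_⟩
  have h2 := huv (Set.mk_mem_prod (su (Set.mem_univ ((x, w), t))) (hb (h1 D hD)))
  exact (Matrix.isUnit_iff_isUnit_det _).2 (isUnit_iff_ne_zero.2 h2)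

theorem lauS_range (a : ℤ →₀ C(X, ℂ)) (N : ℕ) (h : ∀ k ∈ a.support, k.natAbs ≤ N) (x : X)
    (w : Circle) : (w : ℂ) ^ N * lauS a x w =
      ∑ m ∈ Finset.range (2 * N + 1), (w : ℂ) ^ m * a ((m : ℤ) - N) x := by
  have h1 : lauS a x w = ∑ k ∈ Finset.Icc (-(N : ℤ)) N, ((w ^ k : Circle) : ℂ) * a k x := by
    rw [lauS, Finsupp.sum_of_support_subset _ (s := Finset.Icc (-(N : ℤ)) N)]
    · intro k hk
      have := h k hk
      rw [Finset.mem_Icc]
      omega
    · intro k _
      simp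
  rw [h1, Finset.mul_sum]
  refine Finset.sum_nbij' (fun k => (k + N).toNat) (fun m => (m : ℤ) - N) ?_ ?_ ?_ ?_ ?_
  · intro k hk
    rw [Finset.mem_Icc] at hk
    rw [Finset.mem_range]
    omega
  · intro m hm
    rw [Finset.mem_range] at hm
    rw [Finset.mem_Icc]
    omega
  · intro k hk
    rw [Finset.mem_Icc] at hk
    omega
  · intro m hm
    omega
  · intro k hk
    rw [Finset.mem_Icc] at hk
    have e1 : (((k + N).toNat : ℕ) : ℤ) = k + N := Int.toNat_of_nonneg (by omega)
    have e2 : (w : ℂ) ^ (k + N).toNat = (w : ℂ) ^ N * ((w ^ k : Circle) : ℂ) := by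
      rw [← zpow_natCast, e1, zpow_add₀ (Circle.coe_ne_zero w), Circle.coe_zpow, zpow_natCast,
        mul_comm]
    rw [e2, e1, add_sub_cancel_right, mul_assoc]

/-- (K14) approximation by Laurent polynomials.
Proof. The functions `∑_{|k| ≤ N} a_k(x) w^k` are dense in `C(X × S¹, ℂ)` (Stone-Weierstrass: they form
a star subalgebra that separates the points of `X × S¹`; if `X` is not Hausdorff replace the
separation of points of `X` by: use Fejér sums or the density in `C(S¹, C(X, ℂ))`; here `X` is assumed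
Hausdorff). Apply this to the entries of `G`: a Laurent polynomial `L` with matrix coefficients,
entrywise close to `G`; replace `L` by `e L e + (1 - e) L (1 - e)`, still a Laurent polynomial, close to
`G`, commuting with `e`. If `L` is close enough then `(1 - t) G + t L` is invertible for all
`t ∈ [0, 1]` (compactness of `X × S¹`), so `κ(G) = κ(L)` by `kap_hmt`. `w^N L = P` is a polynomial,
`κ(P) = κ(L) + N κ(w)` by `kap_mul`. -/
theorem Clu.exists_laurent [CompactSpace X] [T2Space X] {e : Fam X} (c : Clu e) :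
    ∃ (N d : ℕ) (c' : Clu e), c'.IsPoly d ∧ c.kap = c'.kap - N • (Clu.zz e).kap := by
  obtain ⟨δ, hδ, hu⟩ := c.exists_nhd
  have hG := c.cont
  have hQ := e.cont
  choose a ha using fun i j => lauS_dense
    (⟨fun y => c.G y i j, hG.matrix_elem i j⟩ : C(X × Circle, ℂ)) hδ
  let N : ℕ := Finset.univ.sup fun i => Finset.univ.sup fun j => (a i j).support.sup Int.natAbs
  have hN : ∀ i j, ∀ k ∈ (a i j).support, k.natAbs ≤ N := fun i j k hk =>
    ((Finset.le_sup (f := Int.natAbs) hk).trans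
      (Finset.le_sup (f := fun j => (a i j).support.sup Int.natAbs) (Finset.mem_univ j))).trans
      (Finset.le_sup (f := fun i => Finset.univ.sup fun j => (a i j).support.sup Int.natAbs)
        (Finset.mem_univ i))
  let cf : ℕ → X → Matrix e.S e.S ℂ := fun m x => fun i j => a i j ((m : ℤ) - N) x
  let L : X → Circle → Matrix e.S e.S ℂ := fun x w => fun i j => lauS (a i j) x w
  have hL : ∀ (x : X) (w : Circle), (w : ℂ) ^ N • L x w =
      ∑ m ∈ Finset.range (2 * N + 1), (w : ℂ) ^ m • cf m x := by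
    intro x w
    ext i j
    rw [Matrix.sum_apply]
    exact lauS_range (a i j) N (hN i j) x w
  have hcf : ∀ m, Continuous (cf m) := fun m =>
    continuous_matrix fun i j => (a i j ((m : ℤ) - N)).continuous
  have hLc : Continuous fun y : X × Circle => L y.1 y.2 := by
    have e1 : (fun y : X × Circle => L y.1 y.2) = fun y =>
        ((y.2 : ℂ) ^ N)⁻¹ • ∑ m ∈ Finset.range (2 * N + 1), (y.2 : ℂ) ^ m • cf m y.1 := by
      funext y
      rw [← hL, smul_smul, inv_mul_cancel₀ (pow_ne_zero _ (Circle.coe_ne_zero _)), one_smul]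
    rw [e1]
    refine Continuous.smul (Continuous.inv₀ (by fun_prop) fun y =>
      pow_ne_zero _ (Circle.coe_ne_zero _)) ?_
    exact continuous_finsetSum _ fun m _ => Continuous.smul
      (show Continuous fun y : X × Circle => (y.2 : ℂ) ^ m by fun_prop)
      ((hcf m).comp continuous_fst)
  let H : ℂ → X × Circle → Matrix e.S e.S ℂ := fun t y =>
    c.G y + t • (e.Q y.1 * (L y.1 y.2 - c.G y) * e.Q y.1
      + (1 - e.Q y.1) * (L y.1 y.2 - c.G y) * (1 - e.Q y.1))
  have hHu : ∀ (t : unitInterval) y, IsUnit (H ((t : ℝ) : ℂ) y) := fun t y =>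
    hu y.1 y.2 t _ fun i j => ha i j y.1 y.2
  have hHc : ∀ t x w, e.Q x * H t (x, w) = H t (x, w) * e.Q x := by
    intro t x w
    have h1 := c.comm x w
    have h2 := e.idem x
    have h3 : e.Q x * (e.Q x * (L x w - c.G (x, w)) * e.Q x
        + (1 - e.Q x) * (L x w - c.G (x, w)) * (1 - e.Q x)) =
        (e.Q x * (L x w - c.G (x, w)) * e.Q x
        + (1 - e.Q x) * (L x w - c.G (x, w)) * (1 - e.Q x)) * e.Q x := by
      have h4 : e.Q x * (1 - e.Q x) = 0 := by rw [mul_sub, mul_one, h2, sub_self]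
      have h5 : (1 - e.Q x) * e.Q x = 0 := by rw [sub_mul, one_mul, h2, sub_self]
      rw [mul_add, add_mul, ← mul_assoc, ← mul_assoc, h2, ← mul_assoc, ← mul_assoc, h4,
        mul_assoc _ (e.Q x) (e.Q x), h2, mul_assoc _ (1 - e.Q x) (e.Q x), h5]
      simp
    change e.Q x * (c.G (x, w) + t • _) = (c.G (x, w) + t • _) * e.Q x
    rw [mul_add, add_mul, h1, Matrix.mul_smul, Matrix.smul_mul, h3]
  have hHcont : Continuous fun z : ℂ × X × Circle => H z.1 z.2 := by
    have h1 : Continuous fun z : ℂ × X × Circle => L z.2.1 z.2.2 := hLc.comp continuous_snd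
    fun_prop
  let c1 : Clu e :=
    { G := H 1
      cont := hHcont.comp (by fun_prop : Continuous fun y : X × Circle => ((1 : ℂ), y))
      unit := fun y => by
        have := hHu 1 y
        simpa using this
      comm := hHc 1 }
  have k1 : c.kap = c1.kap := Clu.kap_hmt c c1 (fun z => H ((z.1 : ℝ) : ℂ) z.2)
    (hHcont.comp (by fun_prop : Continuous fun z : unitInterval × X × Circle =>
      (((z.1 : ℝ) : ℂ), z.2))) (fun y => hHu y.1 y.2) (fun t x w => hHc _ x w)
    (fun x w => by simp [H]) (fun x w => by simp [c1])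
  let cm : ℕ → Clu e := fun m =>
    { G := fun y => (y.2 : ℂ) ^ m • c1.G y
      cont := by
        have := c1.cont
        fun_prop
      unit := fun y => by
        have h1 := (Matrix.isUnit_iff_isUnit_det _).1 (c1.unit y)
        refine (Matrix.isUnit_iff_isUnit_det _).2 ?_
        rw [det_smul]
        exact ((IsUnit.mk0 _ (Circle.coe_ne_zero _)).pow _).pow _ |>.mul h1
      comm := fun x w => by
        rw [Matrix.mul_smul, Matrix.smul_mul, c1.comm] }
  have k2 : ∀ m, (cm m).kap = c1.kap + m • (Clu.zz e).kap := by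
    intro m
    induction m with
    | zero =>
      have : cm 0 = c1 := Clu.eq_of (funext fun y => by simp [cm])
      rw [this, zero_smul, add_zero]
    | succ m ih =>
      have : cm (m + 1) = (Clu.zz e).mul (cm m) := Clu.eq_of (funext fun y => by
        change (y.2 : ℂ) ^ (m + 1) • c1.G y = ((y.2 : ℂ) • 1) * ((y.2 : ℂ) ^ m • c1.G y)
        rw [Matrix.smul_mul, Matrix.one_mul, smul_smul, pow_succ'])
      rw [this, Clu.kap_mul, ih, succ_nsmul]
      abel
  refine ⟨N, 2 * N, cm N, ⟨fun m x => e.Q x * cf m x * e.Q x + (1 - e.Q x) * cf m x * (1 - e.Q x),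
    fun m => ?_, fun m x => ?_, fun x w => ?_⟩, ?_⟩
  · have := hcf m
    fun_prop
  · have h2 := e.idem x
    have h4 : e.Q x * (1 - e.Q x) = 0 := by rw [mul_sub, mul_one, h2, sub_self]
    have h5 : (1 - e.Q x) * e.Q x = 0 := by rw [sub_mul, one_mul, h2, sub_self]
    beta_reduce
    rw [mul_add, add_mul, ← mul_assoc, ← mul_assoc, h2, ← mul_assoc, ← mul_assoc, h4,
      mul_assoc _ (e.Q x) (e.Q x), h2, mul_assoc _ (1 - e.Q x) (e.Q x), h5]
    simp
  · have h2 := e.idem x
    have h6 : (1 - e.Q x) * (1 - e.Q x) = 1 - e.Q x := by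
      rw [mul_sub, mul_one, sub_mul, one_mul, h2, sub_self, sub_zero]
    have h1 := c.comm x w
    have h7 : e.Q x * c.G (x, w) * e.Q x + (1 - e.Q x) * c.G (x, w) * (1 - e.Q x) = c.G (x, w) := by
      have h8 : (1 - e.Q x) * c.G (x, w) = c.G (x, w) * (1 - e.Q x) := by
        rw [mul_sub, sub_mul, mul_one, one_mul, h1]
      rw [h1, h8, mul_assoc, mul_assoc, h2, h6, ← mul_add, add_sub_cancel, mul_one]
    have h8 : H 1 (x, w) = e.Q x * L x w * e.Q x + (1 - e.Q x) * L x w * (1 - e.Q x) := by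
      have h9 : e.Q x * (L x w - c.G (x, w)) * e.Q x
          + (1 - e.Q x) * (L x w - c.G (x, w)) * (1 - e.Q x) =
          (e.Q x * L x w * e.Q x + (1 - e.Q x) * L x w * (1 - e.Q x))
          - (e.Q x * c.G (x, w) * e.Q x + (1 - e.Q x) * c.G (x, w) * (1 - e.Q x)) := by
        rw [mul_sub (e.Q x), sub_mul _ _ (e.Q x), mul_sub (1 - e.Q x), sub_mul _ _ (1 - e.Q x)]
        abel
      change c.G (x, w) + (1 : ℂ) • (e.Q x * (L x w - c.G (x, w)) * e.Q x
          + (1 - e.Q x) * (L x w - c.G (x, w)) * (1 - e.Q x)) = _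
      rw [one_smul, h9, h7]
      abel
    change (w : ℂ) ^ N • H 1 (x, w) = _
    rw [h8, smul_add, ← Matrix.smul_mul, ← Matrix.mul_smul, ← Matrix.smul_mul, ← Matrix.mul_smul, hL]
    simp only [Finset.mul_sum, Finset.sum_mul, Matrix.mul_smul, Matrix.smul_mul, smul_add,
      Finset.sum_add_distrib]
  · rw [k1, k2, add_sub_cancel_right]

theorem blk_comm_upp {S : Type} [Fintype S] [DecidableEq S] (Q q : Matrix S S ℂ)
    (h : Q * q = q * Q) :
    fromBlocks Q 0 0 Q * fromBlocks 1 q 0 1 = fromBlocks 1 q 0 1 * fromBlocks Q 0 0 Q := by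
  rw [fromBlocks_multiply, fromBlocks_multiply, h]
  simp

theorem blk_comm_low {S : Type} [Fintype S] [DecidableEq S] (Q q : Matrix S S ℂ)
    (h : Q * q = q * Q) :
    fromBlocks Q 0 0 Q * fromBlocks 1 0 q 1 = fromBlocks 1 0 q 1 * fromBlocks Q 0 0 Q := by
  rw [fromBlocks_multiply, fromBlocks_multiply, h]
  simp

theorem blk_comm_coef {S : Type} [Fintype S] [DecidableEq S] (Q a b : Matrix S S ℂ) (r s : ℂ)
    (ha : Q * a = a * Q) (hb : Q * b = b * Q) :
    fromBlocks Q 0 0 Q * fromBlocks (r • a) b (s • 1) (r • 1) =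
      fromBlocks (r • a) b (s • 1) (r • 1) * fromBlocks Q 0 0 Q := by
  rw [fromBlocks_multiply, fromBlocks_multiply]
  simp only [Matrix.mul_smul, Matrix.smul_mul, Matrix.mul_one, Matrix.one_mul, Matrix.mul_zero,
    Matrix.zero_mul, smul_zero, add_zero, zero_add, ha, hb]

theorem blk_step {S : Type} [Fintype S] [DecidableEq S] (p q r a : Matrix S S ℂ) (w : ℂ)
    (hp : p = a + w • q) (hr : r = -(w • 1)) :
    fromBlocks 1 q 0 1 * fromBlocks p 0 0 1 * fromBlocks 1 0 r 1 = fromBlocks a q r 1 := by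
  have hqr : q * r = -(w • q) := by
    rw [hr, Matrix.mul_neg, Matrix.mul_smul, Matrix.mul_one]
  rw [fromBlocks_multiply, fromBlocks_multiply, hp]
  simp [hqr]

/-- upper unipotent clutching functions -/
def Clu.upp {e : Fam X} (q : X × Circle → Matrix e.S e.S ℂ) (hq : Continuous q)
    (hc : ∀ x w, e.Q x * q (x, w) = q (x, w) * e.Q x) : Clu (e.sum e) where
  G y := fromBlocks 1 (q y) 0 1
  cont := Continuous.matrix_fromBlocks continuous_const hq continuous_const continuous_const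
  unit y := by
    refine (Matrix.isUnit_iff_isUnit_det _).2 ?_
    have h2 : (fromBlocks (1 : Matrix e.S e.S ℂ) (q y) 0 (1 : Matrix e.S e.S ℂ)).det = 1 := by
      rw [det_fromBlocks_zero₂₁, det_one, mul_one]
    exact h2 ▸ isUnit_one
  comm x w := blk_comm_upp _ _ (hc x w)

/-- lower unipotent clutching functions -/
def Clu.low {e : Fam X} (q : X × Circle → Matrix e.S e.S ℂ) (hq : Continuous q)
    (hc : ∀ x w, e.Q x * q (x, w) = q (x, w) * e.Q x) : Clu (e.sum e) where
  G y := fromBlocks 1 0 (q y) 1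
  cont := Continuous.matrix_fromBlocks continuous_const continuous_const hq continuous_const
  unit y := by
    refine (Matrix.isUnit_iff_isUnit_det _).2 ?_
    have h2 : (fromBlocks (1 : Matrix e.S e.S ℂ) 0 (q y) (1 : Matrix e.S e.S ℂ)).det = 1 := by
      rw [det_fromBlocks_zero₁₂, det_one, mul_one]
    exact h2 ▸ isUnit_one
  comm x w := blk_comm_low _ _ (hc x w)

theorem Clu.kap_one (e : Fam X) : (Clu.one e).kap = 0 :=
  (Clu.one e).kap_const (fun _ => 1) fun _ _ => rfl

theorem Clu.kap_upp {e : Fam X} (q : X × Circle → Matrix e.S e.S ℂ) (hq : Continuous q)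
    (hc : ∀ x w, e.Q x * q (x, w) = q (x, w) * e.Q x) : (Clu.upp q hq hc).kap = 0 := by
  have hs : ∀ (t : unitInterval) x w, e.Q x * (((t : ℝ) : ℂ) • q (x, w)) =
      (((t : ℝ) : ℂ) • q (x, w)) * e.Q x := by
    intro t x w
    rw [Matrix.mul_smul, Matrix.smul_mul, hc]
  have hcont : Continuous fun z : unitInterval × X × Circle => ((z.1 : ℝ) : ℂ) • q z.2 := by
    fun_prop
  rw [← Clu.kap_one (e.sum e)]
  refine (Clu.kap_hmt (Clu.one (e.sum e)) (Clu.upp q hq hc)
    (fun z => fromBlocks 1 (((z.1 : ℝ) : ℂ) • q z.2) 0 1)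
    (Continuous.matrix_fromBlocks continuous_const hcont continuous_const continuous_const)
    (fun y => ?_) (fun t x w => ?_) (fun x w => ?_) (fun x w => ?_)).symm
  · exact (Clu.upp (fun y' => ((y.1 : ℝ) : ℂ) • q y') (by fun_prop) (hs y.1)).unit y.2
  · exact (Clu.upp (fun y' => ((t : ℝ) : ℂ) • q y') (by fun_prop) (hs t)).comm x w
  · change fromBlocks 1 (((0 : ℝ) : ℂ) • q (x, w)) 0 1 = (1 : Matrix (e.S ⊕ e.S) (e.S ⊕ e.S) ℂ)
    rw [Complex.ofReal_zero, zero_smul, fromBlocks_one]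
  · change fromBlocks 1 (((1 : ℝ) : ℂ) • q (x, w)) 0 1 =
      (fromBlocks 1 (q (x, w)) 0 1 : Matrix (e.S ⊕ e.S) (e.S ⊕ e.S) ℂ)
    rw [Complex.ofReal_one, one_smul]

theorem Clu.kap_low {e : Fam X} (q : X × Circle → Matrix e.S e.S ℂ) (hq : Continuous q)
    (hc : ∀ x w, e.Q x * q (x, w) = q (x, w) * e.Q x) : (Clu.low q hq hc).kap = 0 := by
  have hs : ∀ (t : unitInterval) x w, e.Q x * (((t : ℝ) : ℂ) • q (x, w)) =
      (((t : ℝ) : ℂ) • q (x, w)) * e.Q x := by
    intro t x w
    rw [Matrix.mul_smul, Matrix.smul_mul, hc]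
  have hcont : Continuous fun z : unitInterval × X × Circle => ((z.1 : ℝ) : ℂ) • q z.2 := by
    fun_prop
  rw [← Clu.kap_one (e.sum e)]
  refine (Clu.kap_hmt (Clu.one (e.sum e)) (Clu.low q hq hc)
    (fun z => fromBlocks 1 0 (((z.1 : ℝ) : ℂ) • q z.2) 1)
    (Continuous.matrix_fromBlocks continuous_const continuous_const hcont continuous_const)
    (fun y => ?_) (fun t x w => ?_) (fun x w => ?_) (fun x w => ?_)).symm
  · exact (Clu.low (fun y' => ((y.1 : ℝ) : ℂ) • q y') (by fun_prop) (hs y.1)).unit y.2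
  · exact (Clu.low (fun y' => ((t : ℝ) : ℂ) • q y') (by fun_prop) (hs t)).comm x w
  · change fromBlocks 1 0 (((0 : ℝ) : ℂ) • q (x, w)) 1 = (1 : Matrix (e.S ⊕ e.S) (e.S ⊕ e.S) ℂ)
    rw [Complex.ofReal_zero, zero_smul, fromBlocks_one]
  · change fromBlocks 1 0 (((1 : ℝ) : ℂ) • q (x, w)) 1 =
      (fromBlocks 1 0 (q (x, w)) 1 : Matrix (e.S ⊕ e.S) (e.S ⊕ e.S) ℂ)
    rw [Complex.ofReal_one, one_smul]

/-- (K15) lowering the degree.
Proof. `p = a₀ + w q`, `deg q ≤ d + 1`. On `e ⊕ e` the clutching function `diag(p, 1)` is equal to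
`[1, - q; 0, 1] [a₀, q; - w, 1] [1, 0; w, 1]`. Check: `[a₀, q; -w, 1] [1, 0; w, 1] =
[a₀ + q w, q; 0, 1]`. The two triangular matrices are homotopic to `1` (multiply the off-diagonal
entry by `t`), so `κ(p) = κ(diag(p, 1)) = κ([a₀, q; -w, 1])` by `kap_sum`, `kap_mul`, `kap_hmt`,
`kap_const`; the coefficients commute with `e ⊕ e`. -/
theorem Clu.kap_poly_step {e : Fam X} (c : Clu e) (d : ℕ) (h : c.IsPoly (d + 2)) :
    ∃ (e' : Fam X) (c' : Clu e'), c'.IsPoly (d + 1) ∧ c.kap = c'.kap := by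
  obtain ⟨a, hac, haq, haG⟩ := h
  let q : X × Circle → Matrix e.S e.S ℂ := fun y =>
    ∑ k ∈ Finset.range (d + 2), (y.2 : ℂ) ^ k • a (k + 1) y.1
  have hq : Continuous q := by
    refine continuous_finsetSum _ fun k _ => ?_
    exact Continuous.smul (show Continuous fun y : X × Circle => (y.2 : ℂ) ^ k by fun_prop)
      ((hac (k + 1)).comp continuous_fst)
  have hqc : ∀ x w, e.Q x * q (x, w) = q (x, w) * e.Q x := by
    intro x w
    change e.Q x * ∑ k ∈ Finset.range (d + 2), (w : ℂ) ^ k • a (k + 1) x =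
      (∑ k ∈ Finset.range (d + 2), (w : ℂ) ^ k • a (k + 1) x) * e.Q x
    rw [Finset.mul_sum, Finset.sum_mul]
    refine Finset.sum_congr rfl fun k _ => ?_
    rw [Matrix.mul_smul, Matrix.smul_mul, haq]
  let r : X × Circle → Matrix e.S e.S ℂ := fun y => -((y.2 : ℂ) • (1 : Matrix e.S e.S ℂ))
  have hr : Continuous r := by
    have : Continuous fun y : X × Circle => (y.2 : ℂ) := by fun_prop
    exact (this.smul continuous_const).neg
  have hrc : ∀ x w, e.Q x * r (x, w) = r (x, w) * e.Q x := by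
    intro x w
    change e.Q x * -((w : ℂ) • (1 : Matrix e.S e.S ℂ)) = -((w : ℂ) • (1 : Matrix e.S e.S ℂ)) * e.Q x
    rw [Matrix.mul_neg, Matrix.neg_mul, Matrix.mul_smul, Matrix.smul_mul, Matrix.mul_one,
      Matrix.one_mul]
  have hp : ∀ x w, c.G (x, w) = a 0 x + (w : ℂ) • q (x, w) := by
    intro x w
    rw [haG, Finset.sum_range_succ', pow_zero, one_smul, add_comm]
    change _ = a 0 x + (w : ℂ) • ∑ k ∈ Finset.range (d + 2), (w : ℂ) ^ k • a (k + 1) x
    rw [Finset.smul_sum]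
    congr 1
    refine Finset.sum_congr rfl fun k _ => ?_
    rw [smul_smul, pow_succ']
  let b : ℕ → X → Matrix (e.S ⊕ e.S) (e.S ⊕ e.S) ℂ := fun k x =>
    fromBlocks ((if k = 0 then (1 : ℂ) else 0) • a 0 x) (a (k + 1) x)
      ((if k = 1 then (-1 : ℂ) else 0) • 1) ((if k = 0 then (1 : ℂ) else 0) • 1)
  refine ⟨e.sum e, ((Clu.upp q hq hqc).mul (c.sum (Clu.one e))).mul (Clu.low r hr hrc),
    ⟨b, fun k => ?_, fun k x => ?_, fun x w => ?_⟩, ?_⟩
  · have h0 := hac 0
    exact Continuous.matrix_fromBlocks (by fun_prop) (hac (k + 1)) continuous_const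
      continuous_const
  · exact blk_comm_coef (e.Q x) (a 0 x) (a (k + 1) x) (if k = 0 then (1 : ℂ) else 0)
      (if k = 1 then (-1 : ℂ) else 0) (haq 0 x) (haq (k + 1) x)
  · have hb : ∑ k ∈ Finset.range (d + 1 + 1), (w : ℂ) ^ k • b k x =
        fromBlocks (a 0 x) (q (x, w)) (r (x, w)) 1 := by
      ext i j
      rw [Matrix.sum_apply]
      rcases i with i | i <;> rcases j with j | j
      · change ∑ k ∈ Finset.range (d + 1 + 1), (w : ℂ) ^ k * ((if k = 0 then (1 : ℂ) else 0) *
          a 0 x i j) = a 0 x i j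
        rw [Finset.sum_eq_single 0]
        · simp
        · intro k _ hk
          rw [if_neg hk]
          simp
        · intro h
          exact absurd (Finset.mem_range.2 (Nat.succ_pos _)) h
      · change ∑ k ∈ Finset.range (d + 1 + 1), (w : ℂ) ^ k * a (k + 1) x i j = q (x, w) i j
        change _ = (∑ k ∈ Finset.range (d + 2), (w : ℂ) ^ k • a (k + 1) x) i j
        rw [Matrix.sum_apply]
        rfl
      · change ∑ k ∈ Finset.range (d + 1 + 1), (w : ℂ) ^ k * ((if k = 1 then (-1 : ℂ) else 0) *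
          (1 : Matrix e.S e.S ℂ) i j) = -((w : ℂ) * (1 : Matrix e.S e.S ℂ) i j)
        rw [Finset.sum_eq_single 1]
        · simp
        · intro k _ hk
          rw [if_neg hk]
          simp
        · intro h
          exact absurd (Finset.mem_range.2 (by omega)) h
      · change ∑ k ∈ Finset.range (d + 1 + 1), (w : ℂ) ^ k * ((if k = 0 then (1 : ℂ) else 0) *
          (1 : Matrix e.S e.S ℂ) i j) = (1 : Matrix e.S e.S ℂ) i j
        rw [Finset.sum_eq_single 0]
        · simp
        · intro k _ hk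
          rw [if_neg hk]
          simp
        · intro h
          exact absurd (Finset.mem_range.2 (Nat.succ_pos _)) h
    refine Eq.trans ?_ hb.symm
    exact blk_step (c.G (x, w)) (q (x, w)) (r (x, w)) (a 0 x) (w : ℂ) (hp x w) rfl
  · rw [Clu.kap_mul, Clu.kap_mul, Clu.kap_upp, Clu.kap_low, Clu.kap_sum, Clu.kap_one]
    abel

/-- (K16) linear clutching functions.
Proof. `G = a₀ + w a₁`, `C = a₀ + a₁ = G(x, 1)` is invertible, `G = C (1 + (w - 1) a)` with
`a = C⁻¹ a₁`; so `κ(G) = κ(1 + (w - 1) a)` by `kap_mul`, `kap_const`. `exists_spec` gives `q` and a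
homotopy `1 + (w - 1)((1 - t) a + t q)` to `1 + (w - 1) q` (`e` commutes with `a`, hence with `q`), so
`kap_hmt` and `kap_split` finish. -/
theorem Clu.kap_linear [CompactSpace X] [PreconnectedSpace X] {e : Fam X} (c : Clu e)
    (h : c.IsPoly 1) : c.kap ∈ MM X := by
  obtain ⟨a, ha, hac, hG⟩ := h
  have hG' : ∀ x w, c.G (x, w) = a 0 x + (w : ℂ) • a 1 x := by
    intro x w
    rw [hG, Finset.sum_range_succ, Finset.sum_range_one, pow_zero, one_smul, pow_one]
  -- the value at `1`
  let C : X → Matrix e.S e.S ℂ := fun x => c.G (x, 1)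
  have hC1 : ∀ x, C x = a 0 x + a 1 x := by
    intro x
    change c.G (x, 1) = _
    rw [hG', Circle.coe_one, one_smul]
  have hCc : Continuous C := c.cont.comp (by fun_prop)
  have hCu : ∀ x, IsUnit (C x) := fun x => c.unit (x, 1)
  have hCd : ∀ x, IsUnit (C x).det := fun x => (Matrix.isUnit_iff_isUnit_det _).1 (hCu x)
  have hCe : ∀ x, e.Q x * C x = C x * e.Q x := fun x => c.comm x 1
  have hCie : ∀ x, e.Q x * (C x)⁻¹ = (C x)⁻¹ * e.Q x := by
    intro x
    have h1 := Matrix.nonsing_inv_mul _ (hCd x)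
    have h2 := Matrix.mul_nonsing_inv _ (hCd x)
    calc e.Q x * (C x)⁻¹ = (C x)⁻¹ * C x * e.Q x * (C x)⁻¹ := by rw [h1, Matrix.one_mul]
      _ = (C x)⁻¹ * (C x * e.Q x) * (C x)⁻¹ := by rw [Matrix.mul_assoc (C x)⁻¹]
      _ = (C x)⁻¹ * (e.Q x * C x) * (C x)⁻¹ := by rw [hCe]
      _ = (C x)⁻¹ * e.Q x * (C x * (C x)⁻¹) := by simp only [Matrix.mul_assoc]
      _ = (C x)⁻¹ * e.Q x := by rw [h2, Matrix.mul_one]
  let α : X → Matrix e.S e.S ℂ := fun x => (C x)⁻¹ * a 1 x
  have hα : Continuous α := (continuous_inv_mat hCc hCu).matrix_mul (ha 1)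
  have hαe : ∀ x, e.Q x * α x = α x * e.Q x := by
    intro x
    change e.Q x * ((C x)⁻¹ * a 1 x) = (C x)⁻¹ * a 1 x * e.Q x
    rw [← Matrix.mul_assoc, hCie, Matrix.mul_assoc, hac, Matrix.mul_assoc]
  have hpenG : ∀ x (w : Circle), C x * pen (α x) w = c.G (x, w) := by
    intro x w
    have h2 := Matrix.mul_nonsing_inv _ (hCd x)
    rw [hG', pen, Matrix.mul_add, Matrix.mul_one, Matrix.mul_smul]
    change C x + ((w : ℂ) - 1) • (C x * ((C x)⁻¹ * a 1 x)) = _
    rw [← Matrix.mul_assoc, h2, Matrix.one_mul, hC1, sub_smul, one_smul]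
    abel
  have hpenu : ∀ x (w : Circle), IsUnit (pen (α x) w) := by
    intro x w
    have h1 : pen (α x) w = (C x)⁻¹ * c.G (x, w) := by
      rw [← hpenG, ← Matrix.mul_assoc, Matrix.nonsing_inv_mul _ (hCd x), Matrix.one_mul]
    rw [h1, Matrix.isUnit_iff_isUnit_det, Matrix.det_mul]
    exact (Matrix.isUnit_nonsing_inv_det _ (hCd x)).mul
      ((Matrix.isUnit_iff_isUnit_det _).1 (c.unit _))
  have hpenc : ∀ {f : unitInterval × X × Circle → Matrix e.S e.S ℂ}, Continuous f →
      Continuous fun z => pen (f z) (z.2.2 : ℂ) := by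
    intro f hf
    unfold pen
    fun_prop
  have hpene : ∀ x (b : Matrix e.S e.S ℂ) (w : ℂ), e.Q x * b = b * e.Q x →
      e.Q x * pen b w = pen b w * e.Q x := by
    intro x b w hb
    rw [pen, Matrix.mul_add, Matrix.add_mul, Matrix.mul_one, Matrix.one_mul, Matrix.mul_smul, hb,
      Matrix.smul_mul]
  obtain ⟨q, hq, hqq, hqc, hqu⟩ := exists_spec α hα (fun x w hw => by
    have := hpenu x ⟨w, mem_sphere_zero_iff_norm.2 hw⟩
    exact this)
  have hqe : ∀ x, e.Q x * q x = q x * e.Q x := fun x => hqc x _ (hαe x)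
  have hcirc : ∀ w : Circle, ‖(w : ℂ)‖ = 1 := fun w => Circle.norm_coe w
  let H : unitInterval × X × Circle → Matrix e.S e.S ℂ := fun z =>
    pen (((1 - (z.1 : ℝ) : ℝ) : ℂ) • α z.2.1 + (((z.1 : ℝ) : ℝ) : ℂ) • q z.2.1) z.2.2
  have hHc : Continuous H := hpenc (by fun_prop)
  have hHu : ∀ z, IsUnit (H z) := fun z => hqu z.2.1 z.2.2 z.1 (hcirc _) z.1.2.1 z.1.2.2
  have hHe : ∀ t x w, e.Q x * H (t, x, w) = H (t, x, w) * e.Q x := by
    intro t x w
    refine hpene x _ w ?_
    rw [Matrix.mul_add, Matrix.add_mul, Matrix.mul_smul, Matrix.mul_smul, Matrix.smul_mul,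
      Matrix.smul_mul, hαe, hqe]
  have hH0 : ∀ x (w : Circle), H (0, x, w) = pen (α x) w := by
    intro x w
    simp [H]
  have hH1 : ∀ x (w : Circle), H (1, x, w) = pen (q x) w := by
    intro x w
    simp [H]
  let cC : Clu e :=
    { G := fun y => C y.1
      cont := hCc.comp continuous_fst
      unit := fun y => hCu y.1
      comm := fun x _ => hCe x }
  let c1 : Clu e :=
    { G := fun y => pen (α y.1) y.2
      cont := by
        have : Continuous fun y : X × Circle => H (0, y.1, y.2) :=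
          hHc.comp (by fun_prop)
        simp only [hH0] at this
        exact this
      unit := fun y => hpenu y.1 y.2
      comm := fun x w => hpene x _ w (hαe x) }
  let c2 : Clu e :=
    { G := fun y => pen (q y.1) y.2
      cont := by
        have : Continuous fun y : X × Circle => H (1, y.1, y.2) :=
          hHc.comp (by fun_prop)
        simp only [hH1] at this
        exact this
      unit := fun y => by
        have := hHu (1, y.1, y.2)
        rw [hH1] at this
        exact this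
      comm := fun x w => hpene x _ w (hqe x) }
  have e1 : c = cC.mul c1 := Clu.eq_of (funext fun y => (hpenG y.1 y.2).symm)
  have e2 : c1.kap = c2.kap := Clu.kap_hmt c1 c2 H hHc hHu hHe (fun x w => hH0 x w)
    (fun x w => hH1 x w)
  rw [e1, Clu.kap_mul, Clu.kap_const cC C (fun _ _ => rfl), zero_add, e2]
  exact Clu.kap_split c2 q hq hqq hqe (fun x w => rfl)

theorem Clu.kap_poly [CompactSpace X] [PreconnectedSpace X] (d : ℕ) :
    ∀ {e : Fam X} (c : Clu e), c.IsPoly (d + 1) → c.kap ∈ MM X := by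
  induction d with
  | zero =>
    intro e c h
    exact c.kap_linear h
  | succ d ih =>
    intro e c h
    obtain ⟨e', c', h', h2⟩ := c.kap_poly_step d h
    rw [h2]
    exact ih c' h'

theorem Clu.IsPoly.succ {e : Fam X} {c : Clu e} {d : ℕ} (h : c.IsPoly d) : c.IsPoly (d + 1) := by
  obtain ⟨a, h1, h2, h3⟩ := h
  have e1 : ∀ k, k ≤ d → (if k ≤ d then a k else 0) = a k := fun k hk => if_pos hk
  have e2 : ∀ k, ¬k ≤ d → (if k ≤ d then a k else 0) = 0 := fun k hk => if_neg hk
  refine ⟨fun k => if k ≤ d then a k else 0, fun k => ?_, fun k x => ?_, fun x w => ?_⟩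
  · by_cases hk : k ≤ d
    · have := h1 k
      rwa [← e1 k hk] at this
    · have h4 : Continuous (0 : X → Matrix e.S e.S ℂ) := continuous_const
      rwa [← e2 k hk] at h4
  · by_cases hk : k ≤ d
    · have := h2 k x
      rwa [← e1 k hk] at this
    · have h4 : e.Q x * (0 : X → Matrix e.S e.S ℂ) x = (0 : X → Matrix e.S e.S ℂ) x * e.Q x := by
        rw [Pi.zero_apply, Matrix.mul_zero, Matrix.zero_mul]
      rwa [← e2 k hk] at h4
  · rw [h3, Finset.sum_range_succ (n := d + 1)]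
    have h5 : (w : ℂ) ^ (d + 1) • (fun k => if k ≤ d then a k else 0) (d + 1) x = 0 := by
      change (w : ℂ) ^ (d + 1) • (if d + 1 ≤ d then a (d + 1) else 0) x = 0
      rw [e2 (d + 1) (by omega), Pi.zero_apply, smul_zero]
    rw [h5, add_zero]
    refine Finset.sum_congr rfl fun k hk => ?_
    change (w : ℂ) ^ k • a k x = (w : ℂ) ^ k • (if k ≤ d then a k else 0) x
    rw [e1 k (by have := Finset.mem_range.1 hk; omega)]

/-- Bott periodicity, the surjective part -/
theorem bott_surj [CompactSpace X] [T2Space X] [PreconnectedSpace X] (z : K0 (X × P1)) :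
    z ∈ MM X := by
  refine K0.induction (P := fun z => z ∈ MM X) (fun E => ?_) (fun x y hx hy => add_mem hx hy)
    (fun x hx => neg_mem hx) (zero_mem _) z
  obtain ⟨e, c, h⟩ := exists_clutch E
  obtain ⟨N, d, c', h1, h2⟩ := c.exists_laurent
  have h3 : c'.kap ∈ MM X := Clu.kap_poly d c' h1.succ
  have hp : ∀ y : K0 X, pib y ∈ MM X := fun y =>
    AddSubgroup.mem_sup_left (AddMonoidHom.mem_range.2 ⟨y, rfl⟩)
  have ht : ∀ y : K0 X, tau y ∈ MM X := fun y =>
    AddSubgroup.mem_sup_right (AddMonoidHom.mem_range.2 ⟨y, rfl⟩)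
  have h4 : (Clu.zz e).kap ∈ MM X := by
    rw [Clu.kap_zz]
    exact sub_mem (ht _) (hp _)
  have h5 : c.kap ∈ MM X := by
    rw [h2]
    exact sub_mem h3 (AddSubgroup.nsmul_mem _ h4 N)
  rw [h]
  have h6 : cls c.fam = c.kap + pib (cls e) := by
    unfold Clu.kap
    rw [sub_add_cancel]
  rw [h6]
  exact add_mem h5 (hp _)

end Pool.Agent.Helper1.Stab.KT
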