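import Pool.Agent.Helper1.Stab.K.Lin
import Pool.Agent.Helper1.Stab.Proj

/-! The K-theory of `P1 × P1` is spanned by the external products of line bundles. -/

open Matrix

noncomputable section

namespace Pool.Agent.Helper1.Stab.KT

/-- families with identity matrices and equinumerous index sets are isomorphic -/
theorem mvn_of_equiv {X : Type} [TopologicalSpace X] (E F : Fam X) (e : E.S ≃ F.S)
    (hE : ∀ x, E.Q x = 1) (hF : ∀ x, F.Q x = 1) : MvN E F := by
  refine ⟨fun _ => (1 : Matrix F.S F.S ℂ).submatrix id e,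
    fun _ => (1 : Matrix F.S F.S ℂ).submatrix e id, continuous_const, continuous_const,
    fun x => ?_, fun x => ?_⟩
  · rw [← Matrix.submatrix_mul _ _ e id e Function.bijective_id, Matrix.one_mul, hE]
    exact Matrix.submatrix_one_equiv e
  · rw [← Matrix.submatrix_mul _ _ id e id e.bijective, Matrix.one_mul, hF]
    exact Matrix.submatrix_id_id _

/-- the trivial bundle of rank `n` over a point -/
def trivPt (n : ℕ) : Fam PUnit where
  S := Fin n
  n := n
  Q _ := 1
  cont := continuous_const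
  idem _ := by rw [Matrix.one_mul]
  tr _ := by simp

theorem cls_trivPt (n : ℕ) : cls (trivPt n) = n • cls (Fam.one PUnit) := by
  induction n with
  | zero =>
    have h : MvN ((trivPt 0).sum (trivPt 0)) (trivPt 0) :=
      mvn_of_equiv _ _ (show Fin 0 ⊕ Fin 0 ≃ Fin 0 from Equiv.sumEmpty (Fin 0) (Fin 0))
        (fun x => Matrix.fromBlocks_one) (fun x => rfl)
    have h2 := cls_mvn h
    rw [cls_sum] at h2
    rw [zero_smul]
    exact add_eq_left.1 h2
  | succ n ih =>
    have h : MvN ((trivPt n).sum (Fam.one PUnit)) (trivPt (n + 1)) :=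
      mvn_of_equiv _ _ (show Fin n ⊕ Unit ≃ Fin (n + 1) from
        (Equiv.sumCongr (Equiv.refl (Fin n)) finOneEquiv.symm).trans finSumFinEquiv)
        (fun x => Matrix.fromBlocks_one) (fun x => rfl)
    rw [← cls_mvn h, cls_sum, ih, succ_nsmul]

/-- an idempotent matrix of trace `n` factors through `ℂⁿ` -/
theorem idem_factor {S : Type} [Fintype S] [DecidableEq S] {Q : Matrix S S ℂ} {n : ℕ}
    (h : Q * Q = Q) (ht : Q.trace = n) :
    ∃ (A : Matrix (Fin n) S ℂ) (B : Matrix S (Fin n) ℂ), B * A = Q ∧ A * B = 1 := by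
  let f : (S → ℂ) →ₗ[ℂ] (S → ℂ) := Matrix.toLin' Q
  have hff : f ∘ₗ f = f := by
    show Matrix.toLin' Q ∘ₗ Matrix.toLin' Q = Matrix.toLin' Q
    rw [← Matrix.toLin'_mul, h]
  have hfx : ∀ x, f (f x) = f x := fun x => LinearMap.congr_fun hff x
  have hproj : LinearMap.IsProj (LinearMap.range f) f := by
    refine ⟨fun x => ⟨x, rfl⟩, ?_⟩
    rintro _ ⟨x, rfl⟩
    exact hfx x
  have htr : LinearMap.trace ℂ (S → ℂ) f = Q.trace := Matrix.trace_toLin'_eq Q
  have hrk : Module.finrank ℂ (LinearMap.range f) = n := by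
    have h1 := hproj.trace
    rw [htr, ht] at h1
    exact_mod_cast h1.symm
  let b := Module.finBasisOfFinrankEq ℂ (LinearMap.range f) hrk
  let ι : (Fin n → ℂ) →ₗ[ℂ] (S → ℂ) := (LinearMap.range f).subtype ∘ₗ b.equivFun.symm.toLinearMap
  let π : (S → ℂ) →ₗ[ℂ] (Fin n → ℂ) := b.equivFun.toLinearMap ∘ₗ f.rangeRestrict
  have h1 : ι ∘ₗ π = f := by
    ext x
    simp [ι, π]
  have h2 : π ∘ₗ ι = LinearMap.id := by
    refine LinearMap.ext fun x => ?_
    show b.equivFun (f.rangeRestrict ((b.equivFun.symm x : LinearMap.range f) : S → ℂ)) = x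
    have h3 : f.rangeRestrict ((b.equivFun.symm x : LinearMap.range f) : S → ℂ) =
        b.equivFun.symm x := Subtype.ext (hproj.2 _ (b.equivFun.symm x).2)
    rw [h3, LinearEquiv.apply_symm_apply]
  refine ⟨LinearMap.toMatrix' π, LinearMap.toMatrix' ι, ?_, ?_⟩
  · rw [← LinearMap.toMatrix'_comp, h1]
    exact LinearMap.toMatrix'_toLin' Q
  · rw [← LinearMap.toMatrix'_comp, h2, LinearMap.toMatrix'_id]

/-- (G1) The K-theory of a point.
Proof. An idempotent matrix `Q` of trace `n` has rank `n` (`LinearMap.IsProj.trace` or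
`IsIdempotentElem`), so `Q = B A` with `A : n × S`, `B : S × n`, `A B = 1`; so `E` is `MvN` to the family
`S = Fin n`, `Q = 1`, whose class is `n • cls one` by induction (`cls_sum` and permutations of
indices; for `n = 0` the sum of the zero family with itself is the zero family). -/
theorem cls_pt (E : Fam PUnit) : cls E = E.n • cls (Fam.one PUnit) := by
  obtain ⟨A, B, h1, h2⟩ := idem_factor (E.idem PUnit.unit) (E.tr PUnit.unit)
  rw [← cls_trivPt E.n]
  exact cls_mvn ⟨fun _ => A, fun _ => B, continuous_const, continuous_const, fun _ => h1,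
    fun _ => h2⟩

theorem K0_pt (z : K0 PUnit) : ∃ n : ℤ, z = n • cls (Fam.one PUnit) := by
  refine K0.induction (P := fun z => ∃ n : ℤ, z = n • cls (Fam.one PUnit))
    (fun E => ⟨E.n, ?_⟩) (fun x y ⟨a, ha⟩ ⟨b, hb⟩ => ⟨a + b, ?_⟩) (fun x ⟨a, ha⟩ => ⟨-a, ?_⟩)
    ⟨0, ?_⟩ z
  · rw [cls_pt E, natCast_zsmul]
  · rw [ha, hb, add_smul]
  · rw [ha, neg_smul]
  · rw [zero_smul]

instance : T2Space P1 := inferInstanceAs (T2Space (Pr Bool 1))
instance : CompactSpace P1 := inferInstanceAs (CompactSpace (Pr Bool 1))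

instance : PreconnectedSpace P1 := by
  have h : IsPreconnected (Set.range pol) := isPreconnected_range continuous_pol
  rw [pol_surjective.range_eq] at h
  exact ⟨h⟩

/-- (G2a) families with proportional index sets: the external product of the trivial line bundle -/
theorem tau_one (X : Type) [TopologicalSpace X] : tau (cls (Fam.one X)) =
    K0.map (⟨Prod.snd, continuous_snd⟩ : C(X × P1, P1)) (cls Fam.taut) := by
  rw [tau_cls, K0.map_cls]
  refine cls_mvn ⟨fun x i j => x.2.1 i j.2, fun x i j => x.2.1 i.2 j, ?_, ?_, fun x => ?_,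
    fun x => ?_⟩
  · exact continuous_matrix fun i j => (continuous_subtype_val.comp continuous_snd).matrix_elem _ _
  · exact continuous_matrix fun i j => (continuous_subtype_val.comp continuous_snd).matrix_elem _ _
  · ext ⟨⟨⟩, i⟩ ⟨⟨⟩, j⟩
    change ∑ k, x.2.1 i k * x.2.1 k j = (1 : Matrix Unit Unit ℂ) () () * x.2.1 i j
    rw [Matrix.one_apply_eq, one_mul]
    exact congrFun (congrFun x.2.2.2.1 i) j
  · ext i j
    change ∑ k : Unit × Bool, x.2.1 i k.2 * x.2.1 k.2 j = x.2.1 i j
    rw [Fintype.sum_prod_type]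
    simp only [Finset.univ_unique, Finset.sum_singleton]
    exact congrFun (congrFun x.2.2.2.1 i) j

/-- the external product is natural in the base -/
theorem pib_cls {X : Type} [TopologicalSpace X] (E : Fam X) :
    pib (cls E) = cls (E.map (⟨Prod.fst, continuous_fst⟩ : C(X × P1, X))) := K0.map_cls _ _

/-- (G2) The K-theory of the projective line. -/
theorem K0_P1 (z : K0 P1) : ∃ a b : ℤ, z = a • cls (Fam.one P1) + b • cls Fam.taut := by
  let i : C(P1, PUnit × P1) := ⟨fun p => (PUnit.unit, p), by fun_prop⟩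
  let s : C(PUnit × P1, P1) := ⟨Prod.snd, continuous_snd⟩
  have h1 : z = K0.map i (K0.map s z) := by
    rw [K0.map_map]
    have h2 : s.comp i = ContinuousMap.id P1 := rfl
    rw [h2]
    refine K0.induction (P := fun z => z = K0.map (ContinuousMap.id P1) z) (fun E => ?_)
      (fun x y hx hy => ?_) (fun x hx => ?_) ?_ z
    · rw [K0.map_cls]
      rfl
    · rw [map_add, ← hx, ← hy]
    · rw [map_neg, ← hx]
    · rw [map_zero]
  obtain ⟨x, ⟨x', rfl⟩, y, ⟨y', rfl⟩, hxy⟩ := AddSubgroup.mem_sup.1 (bott_surj (K0.map s z))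
  obtain ⟨a, rfl⟩ := K0_pt x'
  obtain ⟨b, rfl⟩ := K0_pt y'
  refine ⟨a, b, ?_⟩
  rw [h1, ← hxy, map_add, map_zsmul, map_zsmul, map_zsmul, map_zsmul, tau_one, K0.map_map,
    pib_cls, K0.map_cls, K0.map_cls]
  rfl

/-- (G3) The K-theory of `P1 × P1`. -/
theorem K0_P1P1 (z : K0 (P1 × P1)) : ∃ a b c d : ℤ, z = a • cls (Fam.one (P1 × P1)) +
    b • cls (Fam.taut.map (⟨Prod.fst, continuous_fst⟩ : C(P1 × P1, P1))) +
    c • cls (Fam.taut.map (⟨Prod.snd, continuous_snd⟩ : C(P1 × P1, P1))) +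
    d • cls Fam.taut.tau := by
  obtain ⟨x, ⟨x', rfl⟩, y, ⟨y', rfl⟩, hxy⟩ := AddSubgroup.mem_sup.1 (bott_surj z)
  obtain ⟨a, b, rfl⟩ := K0_P1 x'
  obtain ⟨c, d, rfl⟩ := K0_P1 y'
  refine ⟨a, b, c, d, ?_⟩
  rw [← hxy, map_add, map_add, map_zsmul, map_zsmul, map_zsmul, map_zsmul, tau_one, tau_cls,
    pib_cls, pib_cls, K0.map_cls, ← add_assoc]
  rfl

end Pool.Agent.Helper1.Stab.KT
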