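import Pool.Agent.Helper1.Stab.K.Span
import Pool.Agent.Helper1.Stab.Final

/-! The class of a family of projections in a theory over `S[BU]` depends only on the class in
K-theory. -/

open Topology Filter Set Matrix

noncomputable section

namespace Pool.Agent.Helper1.Stab.KT

variable {X : Type} [TopologicalSpace X]

/-! ## Range projections -/

open ComplexOrder in
/-- auxiliary: the range projection of an idempotent matrix -/
theorem proj_aux8 {S : Type} [Fintype S] [DecidableEq S] (Q : Matrix S S ℂ) (hQ : Q * Q = Q) :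
    IsUnit (Q + Qᴴ - 1) ∧ (Q * (Q + Qᴴ - 1)⁻¹)ᴴ = Q * (Q + Qᴴ - 1)⁻¹ ∧
      Q * (Q + Qᴴ - 1)⁻¹ * Q = Q := by
  set T := Q + Qᴴ - 1 with hT
  have hQ' : Qᴴ * Qᴴ = Qᴴ := by rw [← conjTranspose_mul, hQ]
  have hTT : T * T = 1 + (Q - Qᴴ) * (Q - Qᴴ)ᴴ := by
    rw [hT, conjTranspose_sub, conjTranspose_conjTranspose]
    simp only [sub_mul, mul_sub, add_mul, mul_add, hQ, hQ', one_mul, mul_one]
    abel
  have hpd : (1 + (Q - Qᴴ) * (Q - Qᴴ)ᴴ).PosDef :=
    Matrix.PosDef.one.add_posSemidef (Matrix.posSemidef_self_mul_conjTranspose _)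
  have hu : IsUnit T := by
    have h1 : IsUnit (T * T) := by rw [hTT]; exact hpd.isUnit
    rw [Matrix.isUnit_iff_isUnit_det] at h1 ⊢
    rw [Matrix.det_mul] at h1
    exact isUnit_of_mul_isUnit_left h1
  have hdet : IsUnit T.det := (Matrix.isUnit_iff_isUnit_det T).1 hu
  have hTh : Tᴴ = T := by
    rw [hT, conjTranspose_sub, conjTranspose_add, conjTranspose_conjTranspose, conjTranspose_one,
      add_comm Qᴴ]
  have e1 : Q * T = T * Qᴴ := by
    rw [hT]
    simp only [sub_mul, mul_sub, add_mul, mul_add, hQ, hQ', one_mul, mul_one]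
    abel
  have e2 : T * Q = Qᴴ * T := by
    rw [hT]
    simp only [sub_mul, mul_sub, add_mul, mul_add, hQ, hQ', one_mul, mul_one]
    abel
  have e0 : Q * T = Q * Qᴴ := by
    rw [hT]
    simp only [mul_sub, mul_add, hQ, mul_one]
    abel
  have f1 : T⁻¹ * Q = Qᴴ * T⁻¹ := by
    calc T⁻¹ * Q = T⁻¹ * (Q * T) * T⁻¹ := by
          rw [Matrix.mul_assoc, Matrix.mul_assoc, Matrix.mul_nonsing_inv _ hdet, Matrix.mul_one]
      _ = Qᴴ * T⁻¹ := by
          rw [e1, ← Matrix.mul_assoc, Matrix.nonsing_inv_mul _ hdet, Matrix.one_mul]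
  have f2 : Q * T⁻¹ = T⁻¹ * Qᴴ := by
    calc Q * T⁻¹ = T⁻¹ * (T * Q) * T⁻¹ := by
          rw [← Matrix.mul_assoc, Matrix.nonsing_inv_mul _ hdet, Matrix.one_mul]
      _ = T⁻¹ * Qᴴ := by
          rw [e2, Matrix.mul_assoc, Matrix.mul_assoc, Matrix.mul_nonsing_inv _ hdet, Matrix.mul_one]
  refine ⟨hu, ?_, ?_⟩
  · rw [conjTranspose_mul, conjTranspose_nonsing_inv, hTh, f2]
  · rw [Matrix.mul_assoc, f1, ← Matrix.mul_assoc, ← e0, Matrix.mul_assoc,
      Matrix.mul_nonsing_inv _ hdet, Matrix.mul_one]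

/-- (H1) The orthogonal projection onto the range of an idempotent.
Proof. Put `T = Q + Qᴴ - 1`. Then `T² = 1 + (Q - Qᴴ)(Q - Qᴴ)ᴴ` is positive definite, so `T` is
invertible; `Q T = Q Qᴴ = T Qᴴ`, `T Q = Qᴴ Q = Qᴴ T`. So `P = Q T⁻¹` is Hermitian and idempotent,
`P Q = Q`, `Q P = P` and `tr P = tr (Q P) = tr (P Q) = tr Q = n`. Continuity: `continuous_inv_mat`. -/
theorem Fam.exists_proj (E : Fam X) : ∃ P : C(X, Pr E.S E.n), ∀ x,
    (P x).1 * E.Q x = E.Q x ∧ E.Q x * (P x).1 = (P x).1 := by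
  have hT : Continuous fun x => E.Q x + (E.Q x)ᴴ - 1 :=
    (E.cont.add E.cont.matrix_conjTranspose).sub continuous_const
  have hinv := continuous_inv_mat hT fun x => (proj_aux8 (E.Q x) (E.idem x)).1
  have hQP : ∀ x, E.Q x * (E.Q x * (E.Q x + (E.Q x)ᴴ - 1)⁻¹) =
      E.Q x * (E.Q x + (E.Q x)ᴴ - 1)⁻¹ := fun x => by
    rw [← Matrix.mul_assoc, E.idem]
  refine ⟨⟨fun x => ⟨E.Q x * (E.Q x + (E.Q x)ᴴ - 1)⁻¹, (proj_aux8 (E.Q x) (E.idem x)).2.1, ?_, ?_⟩,
    Continuous.subtype_mk (E.cont.matrix_mul hinv) _⟩, fun x =>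
    ⟨(proj_aux8 (E.Q x) (E.idem x)).2.2, hQP x⟩⟩
  · rw [← Matrix.mul_assoc, (proj_aux8 (E.Q x) (E.idem x)).2.2]
  · rw [← hQP x, Matrix.trace_mul_comm, (proj_aux8 (E.Q x) (E.idem x)).2.2]
    exact E.tr x

/-- the family of the orthogonal projections onto the ranges -/
def Fam.proj (E : Fam X) : C(X, Pr E.S E.n) := E.exists_proj.choose

theorem Fam.proj_mul (E : Fam X) (x : X) : (E.proj x).1 * E.Q x = E.Q x :=
  (E.exists_proj.choose_spec x).1

theorem Fam.mul_proj (E : Fam X) (x : X) : E.Q x * (E.proj x).1 = (E.proj x).1 :=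
  (E.exists_proj.choose_spec x).2

/-- the range projection is unique -/
theorem Fam.proj_eq (E : Fam X) {x : X} (P : Pr E.S E.n) (h1 : P.1 * E.Q x = E.Q x)
    (h2 : E.Q x * P.1 = P.1) : E.proj x = P := by
  apply Subtype.ext
  have h3 : (E.proj x).1 * P.1 = P.1 := by
    rw [← h2, ← Matrix.mul_assoc, E.proj_mul]
  have h4 : P.1 * (E.proj x).1 = (E.proj x).1 := by
    rw [← E.mul_proj, ← Matrix.mul_assoc, h1]
  have h5 := congrArg conjTranspose h4
  rw [conjTranspose_mul, P.2.1, (E.proj x).2.1, h3] at h5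
  exact h5.symm

/-- a family of projections as a family of idempotents -/
def Fam.ofPr {S : Type} [Fintype S] [DecidableEq S] {n : ℕ} (u : C(X, Pr S n)) : Fam X where
  S := S
  n := n
  Q x := (u x).1
  cont := Pr.continuous_val69.comp u.continuous
  idem x := (u x).2.2.1
  tr x := (u x).2.2.2

theorem Fam.proj_ofPr {S : Type} [Fintype S] [DecidableEq S] {n : ℕ} (u : C(X, Pr S n)) :
    (Fam.ofPr u).proj = u := by
  ext1 x
  exact (Fam.ofPr u).proj_eq (u x) (u x).2.2.1 (u x).2.2.1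

theorem Fam.proj_map {Y : Type} [TopologicalSpace Y] (E : Fam Y) (f : C(X, Y)) (x : X) :
    (E.map f).proj x = E.proj (f x) :=
  (E.map f).proj_eq (E.proj (f x)) (E.proj_mul (f x)) (E.mul_proj (f x))

theorem Fam.proj_sum (E F : Fam X) (x : X) :
    (E.sum F).proj x = Pr.sum (E.proj x, F.proj x) := by
  refine (E.sum F).proj_eq (Pr.sum (E.proj x, F.proj x)) ?_ ?_
  · change fromBlocks (E.proj x).1 0 0 (F.proj x).1 * fromBlocks (E.Q x) 0 0 (F.Q x) =
      fromBlocks (E.Q x) 0 0 (F.Q x)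
    rw [fromBlocks_multiply, E.proj_mul, F.proj_mul]
    simp
  · change fromBlocks (E.Q x) 0 0 (F.Q x) * fromBlocks (E.proj x).1 0 0 (F.proj x).1 =
      fromBlocks (E.proj x).1 0 0 (F.proj x).1
    rw [fromBlocks_multiply, E.mul_proj, F.mul_proj]
    simp

/-! ## The class of a family of idempotents -/

variable (R : GBiv) {K L : LC} [CompactSpace K] [CompactSpace L]

/-- the class of a family of idempotents -/
def fbun (E : Fam K) : R.Hom K LC.point := R.bun E.proj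

/-- auxiliary: a family with the blocks of another one -/
theorem fbun_aux58 {S T : Type} [Fintype S] [DecidableEq S] [Fintype T] [DecidableEq T] {n : ℕ}
    (Q : K → Matrix S S ℂ) (cQ : Continuous Q) (iQ : ∀ x, Q x * Q x = Q x)
    (tQ : ∀ x, (Q x).trace = n) (j : S ↪ T) (Q' : K → Matrix T T ℂ) (cQ' : Continuous Q')
    (iQ' : ∀ x, Q' x * Q' x = Q' x) (tQ' : ∀ x, (Q' x).trace = n)
    (h : ∀ x (P : Pr S n), P.1 * Q x = Q x → Q x * P.1 = P.1 →
      (Pr.ext j P).1 * Q' x = Q' x ∧ Q' x * (Pr.ext j P).1 = (Pr.ext j P).1) :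
    fbun R (K := K) (⟨T, n, Q', cQ', iQ', tQ'⟩ : Fam K) =
      fbun R (K := K) (⟨S, n, Q, cQ, iQ, tQ⟩ : Fam K) := by
  unfold fbun
  refine GBiv.bun_ext54 R j (Fam.proj (⟨S, n, Q, cQ, iQ, tQ⟩ : Fam K))
    (Fam.proj (⟨T, n, Q', cQ', iQ', tQ'⟩ : Fam K)) fun k => ?_
  have h1 := h k (Fam.proj (⟨S, n, Q, cQ, iQ, tQ⟩ : Fam K) k)
    (Fam.proj_mul (⟨S, n, Q, cQ, iQ, tQ⟩ : Fam K) k)
    (Fam.mul_proj (⟨S, n, Q, cQ, iQ, tQ⟩ : Fam K) k)
  exact Fam.proj_eq (⟨T, n, Q', cQ', iQ', tQ'⟩ : Fam K)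
    (Pr.ext j (Fam.proj (⟨S, n, Q, cQ, iQ, tQ⟩ : Fam K) k)) h1.1 h1.2

theorem ext_inl58 {S T : Type} [Fintype S] [Fintype T] {n : ℕ} (P : Pr S n) :
    (Pr.ext (⟨Sum.inl, Sum.inl_injective⟩ : S ↪ S ⊕ T) P).1 = fromBlocks P.1 0 0 0 := by
  ext x y
  rcases x with x | x <;> rcases y with y | y
  · have h : (∃ s : S, (⟨Sum.inl, Sum.inl_injective⟩ : S ↪ S ⊕ T) s = Sum.inl x) ∧
      ∃ s : S, (⟨Sum.inl, Sum.inl_injective⟩ : S ↪ S ⊕ T) s = Sum.inl y := ⟨⟨x, rfl⟩, ⟨y, rfl⟩⟩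
    refine (dif_pos h).trans ?_
    rw [Sum.inl_injective h.1.choose_spec, Sum.inl_injective h.2.choose_spec]
    rfl
  · refine dif_neg ?_
    rintro ⟨-, s, hs⟩
    exact Sum.inl_ne_inr hs
  · refine dif_neg ?_
    rintro ⟨⟨s, hs⟩, -⟩
    exact Sum.inl_ne_inr hs
  · refine dif_neg ?_
    rintro ⟨⟨s, hs⟩, -⟩
    exact Sum.inl_ne_inr hs

theorem ext_inr58 {S T : Type} [Fintype S] [Fintype T] {n : ℕ} (P : Pr T n) :
    (Pr.ext (⟨Sum.inr, Sum.inr_injective⟩ : T ↪ S ⊕ T) P).1 = fromBlocks 0 0 0 P.1 := by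
  ext x y
  rcases x with x | x <;> rcases y with y | y
  · refine dif_neg ?_
    rintro ⟨-, s, hs⟩
    exact Sum.inr_ne_inl hs
  · refine dif_neg ?_
    rintro ⟨⟨s, hs⟩, -⟩
    exact Sum.inr_ne_inl hs
  · refine dif_neg ?_
    rintro ⟨-, s, hs⟩
    exact Sum.inr_ne_inl hs
  · have h : (∃ s : T, (⟨Sum.inr, Sum.inr_injective⟩ : T ↪ S ⊕ T) s = Sum.inr x) ∧
      ∃ s : T, (⟨Sum.inr, Sum.inr_injective⟩ : T ↪ S ⊕ T) s = Sum.inr y := ⟨⟨x, rfl⟩, ⟨y, rfl⟩⟩
    refine (dif_pos h).trans ?_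
    rw [Sum.inr_injective h.1.choose_spec, Sum.inr_injective h.2.choose_spec]
    rfl

theorem tr_blocks58 {S T : Type} [Fintype S] [Fintype T] (A : Matrix S S ℂ) (B : Matrix S T ℂ)
    (C : Matrix T S ℂ) (D : Matrix T T ℂ) : (fromBlocks A B C D).trace = A.trace + D.trace := by
  simp only [Matrix.trace, Matrix.diag, Fintype.sum_sum_type, fromBlocks_apply₁₁,
    fromBlocks_apply₂₂]

theorem mm58 {S : Type} [Fintype S] (p q r : Matrix S S ℂ) (g : p * q = q) (m : q * r = r) :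
    p * r = r := by
  rw [← m, ← Matrix.mul_assoc, g]

theorem mm58' {S : Type} [Fintype S] (p q r : Matrix S S ℂ) (g : q * p = p) (m : r * q = q) :
    r * p = p := by
  rw [← g, ← Matrix.mul_assoc, m]

theorem fbun_hmt58 (H : Fam (unitInterval × K)) :
    fbun R (H.map (in0 K)) = fbun R (H.map (in1 K)) := by
  refine R.bun_homotopic (S := H.S) (n := H.n) ⟨⟨H.proj, fun x => ?_, fun x => ?_⟩⟩
  · exact (H.proj_map (in0 K) x).symm
  · exact (H.proj_map (in1 K) x).symm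

/-- auxiliary: isomorphic families of the same rank have the same class -/
theorem fbun_mvn_aux58 {S T : Type} [Fintype S] [DecidableEq S] [Fintype T] [DecidableEq T]
    {n : ℕ} (Q : K → Matrix S S ℂ) (cQ : Continuous Q) (iQ : ∀ x, Q x * Q x = Q x)
    (tQ : ∀ x, (Q x).trace = n) (P : K → Matrix T T ℂ) (cP : Continuous P)
    (iP : ∀ x, P x * P x = P x) (tP : ∀ x, (P x).trace = n) (A : K → Matrix T S ℂ)
    (B : K → Matrix S T ℂ) (cA : Continuous A) (cB : Continuous B) (hBA : ∀ x, B x * A x = Q x)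
    (hAB : ∀ x, A x * B x = P x) (hAQ : ∀ x, A x * Q x = A x) (hQB : ∀ x, Q x * B x = B x)
    (hPA : ∀ x, P x * A x = A x) (hBP : ∀ x, B x * P x = B x) :
    fbun R (K := K) (⟨S, n, Q, cQ, iQ, tQ⟩ : Fam K) =
      fbun R (K := K) (⟨T, n, P, cP, iP, tP⟩ : Fam K) := by
  -- the two homotopies
  have c1 : Continuous fun z : unitInterval × K =>
      (fromBlocks (Q z.2) 0 (((z.1 : ℝ) : ℂ) • A z.2) 0 : Matrix (S ⊕ T) (S ⊕ T) ℂ) :=
    Continuous.matrix_fromBlocks (cQ.comp continuous_snd) continuous_const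
      ((Complex.continuous_ofReal.comp (continuous_subtype_val.comp continuous_fst)).smul
        (cA.comp continuous_snd)) continuous_const
  have i1 : ∀ z : unitInterval × K,
      (fromBlocks (Q z.2) 0 (((z.1 : ℝ) : ℂ) • A z.2) 0 : Matrix (S ⊕ T) (S ⊕ T) ℂ) *
        fromBlocks (Q z.2) 0 (((z.1 : ℝ) : ℂ) • A z.2) 0 =
      (fromBlocks (Q z.2) 0 (((z.1 : ℝ) : ℂ) • A z.2) 0 : Matrix (S ⊕ T) (S ⊕ T) ℂ) := by
    intro z
    rw [fromBlocks_multiply, iQ, Matrix.smul_mul, hAQ]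
    simp
  have c2 : Continuous fun z : unitInterval × K =>
      (fromBlocks 0 (((z.1 : ℝ) : ℂ) • B z.2) 0 (P z.2) : Matrix (S ⊕ T) (S ⊕ T) ℂ) :=
    Continuous.matrix_fromBlocks continuous_const
      ((Complex.continuous_ofReal.comp (continuous_subtype_val.comp continuous_fst)).smul
        (cB.comp continuous_snd)) continuous_const (cP.comp continuous_snd)
  have i2 : ∀ z : unitInterval × K,
      (fromBlocks 0 (((z.1 : ℝ) : ℂ) • B z.2) 0 (P z.2) : Matrix (S ⊕ T) (S ⊕ T) ℂ) *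
        fromBlocks 0 (((z.1 : ℝ) : ℂ) • B z.2) 0 (P z.2) =
      (fromBlocks 0 (((z.1 : ℝ) : ℂ) • B z.2) 0 (P z.2) : Matrix (S ⊕ T) (S ⊕ T) ℂ) := by
    intro z
    have h : (((z.1 : ℝ) : ℂ) • B z.2) * P z.2 = ((z.1 : ℝ) : ℂ) • B z.2 := by
      rw [Matrix.smul_mul, hBP]
    rw [fromBlocks_multiply, iP, h]
    simp
  let H1 : Fam (unitInterval × K) := ⟨S ⊕ T, n,
    fun z => fromBlocks (Q z.2) 0 (((z.1 : ℝ) : ℂ) • A z.2) 0, c1, i1, fun z => by
      rw [tr_blocks58, tQ, Matrix.trace_zero, add_zero]⟩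
  let H2 : Fam (unitInterval × K) := ⟨S ⊕ T, n,
    fun z => fromBlocks 0 (((z.1 : ℝ) : ℂ) • B z.2) 0 (P z.2), c2, i2, fun z => by
      rw [tr_blocks58, tP, Matrix.trace_zero, zero_add]⟩
  have e1 : fbun R (H1.map (in0 K)) = fbun R (K := K) (⟨S, n, Q, cQ, iQ, tQ⟩ : Fam K) := by
    refine fbun_aux58 R Q cQ iQ tQ ⟨Sum.inl, Sum.inl_injective⟩ _ _ _ _ fun x p h1 h2 => ?_
    rw [ext_inl58]
    change (fromBlocks p.1 0 0 0 : Matrix (S ⊕ T) (S ⊕ T) ℂ) *
        fromBlocks (Q x) 0 ((((0 : unitInterval) : ℝ) : ℂ) • A x) 0 =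
          fromBlocks (Q x) 0 ((((0 : unitInterval) : ℝ) : ℂ) • A x) 0 ∧
      (fromBlocks (Q x) 0 ((((0 : unitInterval) : ℝ) : ℂ) • A x) 0 : Matrix (S ⊕ T) (S ⊕ T) ℂ) *
        fromBlocks p.1 0 0 0 = fromBlocks p.1 0 0 0
    rw [fromBlocks_multiply, fromBlocks_multiply, h1, h2]
    simp
  have e2 : fbun R (H2.map (in0 K)) = fbun R (K := K) (⟨T, n, P, cP, iP, tP⟩ : Fam K) := by
    refine fbun_aux58 R P cP iP tP ⟨Sum.inr, Sum.inr_injective⟩ _ _ _ _ fun x p h1 h2 => ?_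
    rw [ext_inr58]
    change (fromBlocks 0 0 0 p.1 : Matrix (S ⊕ T) (S ⊕ T) ℂ) *
        fromBlocks 0 ((((0 : unitInterval) : ℝ) : ℂ) • B x) 0 (P x) =
          fromBlocks 0 ((((0 : unitInterval) : ℝ) : ℂ) • B x) 0 (P x) ∧
      (fromBlocks 0 ((((0 : unitInterval) : ℝ) : ℂ) • B x) 0 (P x) :
        Matrix (S ⊕ T) (S ⊕ T) ℂ) * fromBlocks 0 0 0 p.1 = fromBlocks 0 0 0 p.1
    rw [fromBlocks_multiply, fromBlocks_multiply, h1, h2]
    simp
  have e3 : fbun R (H1.map (in1 K)) = fbun R (H2.map (in1 K)) := by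
    refine congrArg (fun u : C(K, Pr (S ⊕ T) n) => R.bun u) ?_
    ext1 x
    have g1 := (H2.map (in1 K)).proj_mul x
    have g2 := (H2.map (in1 K)).mul_proj x
    have q1 : (H2.map (in1 K)).Q x =
        (fromBlocks 0 (B x) 0 (P x) : Matrix (S ⊕ T) (S ⊕ T) ℂ) := by
      change (fromBlocks 0 ((((1 : unitInterval) : ℝ) : ℂ) • B x) 0 (P x) :
        Matrix (S ⊕ T) (S ⊕ T) ℂ) = _
      simp
    have q2 : (H1.map (in1 K)).Q x =
        (fromBlocks (Q x) 0 (A x) 0 : Matrix (S ⊕ T) (S ⊕ T) ℂ) := by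
      change (fromBlocks (Q x) 0 ((((1 : unitInterval) : ℝ) : ℂ) • A x) 0 :
        Matrix (S ⊕ T) (S ⊕ T) ℂ) = _
      simp
    have m1 : (fromBlocks 0 (B x) 0 (P x) : Matrix (S ⊕ T) (S ⊕ T) ℂ) *
        (fromBlocks (Q x) 0 (A x) 0 : Matrix (S ⊕ T) (S ⊕ T) ℂ) =
          (fromBlocks (Q x) 0 (A x) 0 : Matrix (S ⊕ T) (S ⊕ T) ℂ) := by
      rw [fromBlocks_multiply, hBA, hPA]
      simp
    have m2 : (fromBlocks (Q x) 0 (A x) 0 : Matrix (S ⊕ T) (S ⊕ T) ℂ) *
        (fromBlocks 0 (B x) 0 (P x) : Matrix (S ⊕ T) (S ⊕ T) ℂ) =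
          (fromBlocks 0 (B x) 0 (P x) : Matrix (S ⊕ T) (S ⊕ T) ℂ) := by
      rw [fromBlocks_multiply, hAB, hQB]
      simp
    rw [q1] at g1 g2
    refine (H1.map (in1 K)).proj_eq ((H2.map (in1 K)).proj x) ?_ ?_
    · rw [q2]
      exact mm58 (S := S ⊕ T) ((H2.map (in1 K)).proj x).1 _ _ g1 m1
    · rw [q2]
      exact mm58' (S := S ⊕ T) ((H2.map (in1 K)).proj x).1 _ _ g2 m2
  rw [← e1, ← e2, fbun_hmt58, fbun_hmt58]
  exact e3

/-- (H2) Isomorphic families have the same class.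
Proof. If `K` is empty use `GBiv.eq_of_isEmpty54`. Otherwise `E.n = F.n` (traces). Let `B A = E.Q`,
`A B = F.Q`; replacing `A` by `F.Q A E.Q`, `B` by `E.Q B F.Q` we may assume `A E.Q = A`, `E.Q B = B`. Over
`I × K` the families of idempotents `[E.Q, 0; t A, 0]` and `[0, t B; 0, F.Q]` with index `E.S ⊕ F.S` and
rank `n` have `proj` families that join `proj E ⊕ 0` and `0 ⊕ proj F` (use `proj_eq`) to the same
family at `t = 1`: the idempotents `q₁ = [E.Q, 0; A, 0]`, `q₂ = [0, B; 0, F.Q]` satisfy `q₁ q₂ = q₂`,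
`q₂ q₁ = q₁`, so they have the same `proj`. `proj E ⊕ 0` is `Pr.ext` along `inl`; so `bun_homotopic` and
`bun_ext54` finish. -/
theorem fbun_mvn {E F : Fam K} (h : MvN E F) : fbun R E = fbun R F := by
  rcases isEmpty_or_nonempty K with hK | ⟨⟨k⟩⟩
  · exact GBiv.eq_of_isEmpty54 R _ _
  obtain ⟨A, B, cA, cB, hBA, hAB⟩ := h
  have hn : E.n = F.n := by
    have h1 : (E.n : ℂ) = F.n := by
      rw [← E.tr k, ← F.tr k, ← hBA, ← hAB, Matrix.trace_mul_comm]
    exact_mod_cast h1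
  obtain ⟨S, n, Q, cQ, iQ, tQ⟩ := E
  obtain ⟨T, m, P, cP, iP, tP⟩ := F
  change n = m at hn
  subst hn
  change ∀ x, B x * A x = Q x at hBA
  change ∀ x, A x * B x = P x at hAB
  refine fbun_mvn_aux58 R Q cQ iQ tQ P cP iP tP (fun x => P x * A x * Q x)
    (fun x => Q x * B x * P x) ((cP.matrix_mul cA).matrix_mul cQ)
    ((cQ.matrix_mul cB).matrix_mul cP) (fun x => ?_) (fun x => ?_) (fun x => ?_) (fun x => ?_)
    (fun x => ?_) fun x => ?_
  · calc Q x * B x * P x * (P x * A x * Q x) = Q x * B x * (P x * P x) * A x * Q x := by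
          simp only [Matrix.mul_assoc]
      _ = Q x * (B x * A x) * (B x * A x) * Q x := by
          rw [iP, ← hAB]
          simp only [Matrix.mul_assoc]
      _ = Q x := by
          rw [hBA, iQ, iQ, iQ]
  · calc P x * A x * Q x * (Q x * B x * P x) = P x * A x * (Q x * Q x) * B x * P x := by
          simp only [Matrix.mul_assoc]
      _ = P x * (A x * B x) * (A x * B x) * P x := by
          rw [iQ, ← hBA]
          simp only [Matrix.mul_assoc]
      _ = P x := by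
          rw [hAB, iP, iP, iP]
  · rw [Matrix.mul_assoc, iQ]
  · rw [← Matrix.mul_assoc, ← Matrix.mul_assoc, iQ]
  · rw [← Matrix.mul_assoc, ← Matrix.mul_assoc, iP]
  · rw [Matrix.mul_assoc, iP]

theorem fbun_hmt (H : Fam (unitInterval × K)) :
    fbun R (H.map (in0 K)) = fbun R (H.map (in1 K)) := by
  refine R.bun_homotopic (S := H.S) (n := H.n) ⟨⟨H.proj, fun x => ?_, fun x => ?_⟩⟩
  · exact (H.proj_map (in0 K) x).symm
  · exact (H.proj_map (in1 K) x).symm

theorem fbun_sum (E F : Fam K) : fbun R (E.sum F) = R.mul (fbun R E) (fbun R F) := by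
  refine Eq.trans ?_ (R.bun_sum E.proj F.proj)
  refine congrArg (fun u : C(K, Pr (E.S ⊕ F.S) (E.n + F.n)) => R.bun u) ?_
  ext1 x
  exact E.proj_sum F x

theorem fbun_ofPr {S : Type} [Fintype S] [DecidableEq S] {n : ℕ} (u : C(K, Pr S n)) :
    fbun R (Fam.ofPr (X := K) u) = R.bun u := by
  unfold fbun
  rw [Fam.proj_ofPr]
  rfl

theorem fbun_map (E : Fam L) (f : C(K, L)) : fbun R (E.map f) =
    R.comp (R.J (PMap.ofCont (K := K) (L := L) f f.continuous)) (fbun R E) := by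
  unfold fbun
  rw [R.bun_comp f E.proj]
  refine congrArg (fun u : C(K, Pr E.S E.n) => R.bun u) ?_
  ext1 x
  exact E.proj_map f x

/-! ## The ring `R(K, pt)` -/

/-- the ring `R(K, pt)` of a compact space `K` -/
def Rg (K : LC) : Type := R.Hom K LC.point

instance : AddCommGroup (Rg R K) := inferInstanceAs (AddCommGroup (R.Hom K LC.point))

theorem mul_zero' (x : R.Hom K LC.point) : R.mul x 0 = 0 := by
  have h := R.mul_add x 0 0
  rw [add_zero] at h
  exact left_eq_add.1 h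

theorem add_mul' (x y z : R.Hom K LC.point) : R.mul (x + y) z = R.mul x z + R.mul y z := by
  rw [R.mul_comm, R.mul_add, R.mul_comm z, R.mul_comm z]

instance : CommRing (Rg R K) :=
  { (inferInstance : AddCommGroup (Rg R K)) with
    mul := R.mul
    one := R.one K
    mul_comm := R.mul_comm
    mul_assoc := R.mul_assoc
    mul_one := R.mul_one
    one_mul := fun x => (R.mul_comm _ _).trans (R.mul_one x)
    left_distrib := R.mul_add
    right_distrib := add_mul' R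
    zero_mul := fun x => (R.mul_comm _ _).trans (mul_zero' R x)
    mul_zero := mul_zero' R }

/-- restriction -/
def pull (f : C(K, L)) : Rg R L →+* Rg R K where
  toFun x := R.comp (R.J (PMap.ofCont (K := K) (L := L) f f.continuous)) x
  map_one' := by
    change R.comp (R.J (PMap.ofCont (K := K) (L := L) f f.continuous)) (R.J (PMap.toPoint L)) =
      R.J (PMap.toPoint K)
    rw [← R.J_comp]
    rfl
  map_mul' x y := R.mul_pre f x y
  map_zero' := by
    have h := R.comp_add (R.J (PMap.ofCont (K := K) (L := L) f f.continuous))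
      (0 : R.Hom L LC.point) 0
    rw [add_zero] at h
    exact left_eq_add.1 h
  map_add' x y := R.comp_add _ x y

/-- the class of a family of idempotents is a unit -/
theorem isUnit_fbun (E : Fam K) : IsUnit (M := Rg R K) (fbun R E) := by
  rcases isEmpty_or_nonempty K with hK | ⟨⟨k⟩⟩
  · have h : (fbun R E : R.Hom K LC.point) = (1 : Rg R K) := GBiv.eq_of_isEmpty54 R _ _
    rw [h]
    exact isUnit_one
  · have h1 : E.n + (Fintype.card E.S - E.n) = Fintype.card E.S := by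
      have := (E.proj k).le_card
      omega
    exact IsUnit.of_mul_eq_one _ (R.bun_perp h1 E.proj)

/-- The class in `R(K, pt)` of an element of K-theory. -/
def toR : K0 K →+ Additive (Rg R K)ˣ :=
  K0.lift (fun E => Additive.ofMul (isUnit_fbun R E).unit)
    (fun E F h => congrArg Additive.ofMul (Units.ext (fbun_mvn R h)))
    (fun H => congrArg Additive.ofMul (Units.ext (fbun_hmt R H)))
    (fun E F => congrArg Additive.ofMul (Units.ext (fbun_sum R E F)))

theorem toR_cls (E : Fam K) : ((toR R (cls E)).toMul : Rg R K) = fbun R E := by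
  unfold toR
  rw [K0.lift_cls]
  rfl

theorem toR_map (f : C(K, L)) (z : K0 L) : toR R (K0.map f z) =
    Additive.ofMul (Units.map (pull R f).toMonoidHom (toR R z).toMul) := by
  refine K0.induction (P := fun z => toR R (K0.map f z) =
    Additive.ofMul (Units.map (pull R f).toMonoidHom (toR R z).toMul)) (fun E => ?_)
    (fun x y hx hy => ?_) (fun x hx => ?_) ?_ z
  · rw [K0.map_cls]
    refine congrArg Additive.ofMul (Units.ext ?_)
    refine (toR_cls R (E.map f)).trans ?_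
    rw [fbun_map]
    change _ = pull R f ((toR R (cls E)).toMul : Rg R L)
    rw [toR_cls]
    rfl
  · rw [map_add, map_add, map_add, hx, hy, toMul_add, map_mul, ofMul_mul]
  · rw [map_neg, map_neg, map_neg, hx, toMul_neg, map_inv, ofMul_inv]
  · rw [map_zero, map_zero, map_zero, toMul_zero, map_one, ofMul_one]

end Pool.Agent.Helper1.Stab.KT
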